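import Pool.Agent.Lib.MP_531408_nt.Exc

set_option autoImplicit false

namespace Pool.Agent.DrY

namespace Sys

/-- The system has no solutions, except possibly when `q = 3` and `d = 3`. -/
theorem core {K : Type*} [Field K] [IsAlgClosed K] {p n d : ℕ} [Fact p.Prime] [CharP K p]
    (S : Sys K p n d) (h33 : ¬ (p ^ n = 3 ∧ d = 3)) : False := by
  have hρ := S.rho_ne_zero
  have hd := S.hd
  have hn := S.hn
  by_cases hW : S.W 0 2 = 0
  · by_cases hp : p = 2
    · subst hp
      by_cases hodd : Odd d
      · exact S.W02_ne_odd hρ hodd hW
      · by_cases h6 : 6 ≤ d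
        · exact S.W02_ne_six hρ h6 hW
        · have hd4 : d = 4 := by
            rw [Nat.not_odd_iff_even] at hodd
            obtain ⟨e, he⟩ := hodd
            omega
          subst hd4
          by_cases hn4 : 4 ≤ 2 ^ n
          · exact S.d4_big hρ hW hn4
          · have hn1 : n = 1 := by
              rcases Nat.lt_or_ge n 2 with h | h
              · omega
              · exfalso
                apply hn4
                calc 4 = 2 ^ 2 := by norm_num
                  _ ≤ 2 ^ n := Nat.pow_le_pow_right (by norm_num) h
            subst hn1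
            exact d4_two S hρ hW
    · exact S.W02_ne_podd hρ hp hW
  · refine S.generic hW hρ h33 ?_
    rintro ⟨h2, hodd, m, hm⟩
    have hp : p = 2 := by
      have h3 : p ∣ 2 := by rw [← h2]; exact dvd_pow_self p hn
      exact (Nat.prime_dvd_prime_iff_eq (Fact.out : p.Prime) Nat.prime_two).mp h3
    subst hp
    have hn1 : n = 1 := by
      rcases Nat.lt_or_ge n 2 with h | h
      · omega
      · exfalso
        have : 2 ^ 2 ≤ 2 ^ n := Nat.pow_le_pow_right (by norm_num) h
        omega
    subst hn1
    refine exc_false S hodd fun j => ?_
    rw [S.kappa_ord j, ← S.kappa_ord m, hm]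

end Sys

end Pool.Agent.DrY
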