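import Pool.Agent.Lib.MP_531408_nt.W0

set_option autoImplicit false

namespace Pool.Agent.DrY

open Polynomial Finset

namespace Sys

section gen

variable {K : Type*} [Field K] {p n d : ℕ} [Fact p.Prime] [CharP K p] (S : Sys K p n d)

/-- relation in the degenerate case -/
lemma deg_rel (hρ : S.ρ ≠ 0) (hW : S.W 0 2 = 0) (i : ℕ) :
    S.ρ * S.κ * S.μ i ^ (p ^ n) * (S.v (i + 1) * S.v (i + 3)) = -1 := by
  have hd := S.hd
  have hμ : S.μ i = S.μ (i + 2) := S.mu_eq_of_W hρ (S.W_all_zero 2 hW i)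
  have h1 := S.N_eq i (i + 2)
  rw [S.v_sub_mu hρ hμ, mul_pow, ← map_pow, sub_pow_char_pow, ← S.ht, ← S.ht,
    show i + 2 + 1 = i + 3 by ring] at h1
  have h2 := S.theta_sub (i + 1) (i + 3)
  have h3 : S.θ (i + 1) = S.θ (i + 3) := (S.W_ne_iff _ _).mp (S.W_all_zero 2 hW (i + 1))
  rw [h3, sub_self, mul_zero] at h2
  have hne : (RatFunc.C (S.t (i + 3) - S.t (i + 1)) : RatFunc K) ≠ 0 := by
    apply (_root_.map_ne_zero _).mpr
    have := S.t_ne (i + 1) 2 (by omega) (by omega)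
    rw [show i + 1 + 2 = i + 3 by ring] at this
    exact sub_ne_zero.mpr this.symm
  apply mul_right_cancel₀ hne
  have h4 : (RatFunc.C (S.t (i + 3) - S.t (i + 1)) : RatFunc K) =
    RatFunc.C (S.t (i + 3)) - RatFunc.C (S.t (i + 1)) := map_sub _ _ _
  rw [h4] at h1 ⊢
  linear_combination S.ρ * h1 + h2

end gen

section two

variable {K : Type*} [Field K] {n : ℕ} [Fact (Nat.Prime 2)] [CharP K 2] (S : Sys K 2 n 4)

lemma deg_ord (hρ : S.ρ ≠ 0) (hW : S.W 0 2 = 0) (a : K) (hk : ¬ (2 : ℤ) ∣ (ordAt a).ord S.κ)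
    (i : ℕ) : ((2 ^ n : ℕ) : ℤ) ∣ (ordAt a).ord S.κ - 1 + (ordAt a).ord (S.v (i + 1)) +
      (ordAt a).ord (S.v (i + 3)) := by
  have hd := S.hd
  have hμ : S.μ i = S.μ (i + 2) := S.mu_eq_of_W hρ (S.W_all_zero 2 hW i)
  have hμ0 := S.mu_ne hρ hμ (S.t_ne i 2 (by omega) (by omega))
  have h1 := S.deg_rel hρ hW i
  have h2 := congrArg (ordAt a).ord h1
  rw [(ordAt a).ord_mul (mul_ne_zero (mul_ne_zero hρ S.κ0) (pow_ne_zero _ hμ0))
      (mul_ne_zero (S.v_ne _) (S.v_ne _)),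
    (ordAt a).ord_mul (mul_ne_zero hρ S.κ0) (pow_ne_zero _ hμ0),
    (ordAt a).ord_mul hρ S.κ0, (ordAt a).ord_pow hμ0, (ordAt a).ord_mul (S.v_ne _) (S.v_ne _),
    (ordAt a).ord_neg_one] at h2
  -- the order of ρ is -1
  have h3 : (ordAt a).ord S.ρ = -1 := by
    classical
    have h4 := ld_at a S.κ0
    have hX := X_sub_C_ne (K := K) a
    have hkK : (((ordAt a).ord S.κ : ℤ) : K) ≠ 0 := by
      intro h
      exact hk ((CharP.intCast_eq_zero_iff K 2 _).mp h)
    have hkL : (((ordAt a).ord S.κ : ℤ) : RatFunc K) ≠ 0 := by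
      rw [← map_intCast (RatFunc.C : K →+* RatFunc K)]
      exact (_root_.map_ne_zero _).mpr hkK
    have h5 : (((ordAt a).ord S.κ : ℤ) : RatFunc K) / (RatFunc.X - RatFunc.C a) ≠ 0 :=
      div_ne_zero hkL hX
    have h6 : (ordAt a).ord ((((ordAt a).ord S.κ : ℤ) : RatFunc K) /
        (RatFunc.X - RatFunc.C a)) = -1 := by
      rw [(ordAt a).ord_div hkL hX, ordAt_X_sub_C, if_pos rfl,
        ← map_intCast (RatFunc.C : K →+* RatFunc K), ordAt_C]
      norm_num
    have h7 := OrdFn.add_eq_left (w := ordAt a) h5 (g := ld S.κ -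
      (((ordAt a).ord S.κ : ℤ) : RatFunc K) / (RatFunc.X - RatFunc.C a))
      (by rw [h6]; simpa using h4)
    rw [h6] at h7
    have h8 : (((ordAt a).ord S.κ : ℤ) : RatFunc K) / (RatFunc.X - RatFunc.C a) +
      (ld S.κ - (((ordAt a).ord S.κ : ℤ) : RatFunc K) / (RatFunc.X - RatFunc.C a)) = S.ρ := by
      rw [ρ]; ring
    rw [h8] at h7
    exact h7.2
  rw [h3] at h2
  refine ⟨-(ordAt a).ord (S.μ i), ?_⟩
  linarith

/-- the case `d = 4`, `q ≥ 4` even -/
theorem d4_big [IsAlgClosed K] (hρ : S.ρ ≠ 0) (hW : S.W 0 2 = 0) (hn : 4 ≤ 2 ^ n) : False := by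
  classical
  have h01 := S.W01_ne hρ
  have hW1 := S.W_all 1 h01
  have hn' : (4 : ℤ) ≤ ((2 ^ n : ℕ) : ℤ) := by exact_mod_cast hn
  have hper0 : ∀ a : K, (ordAt a).ord (S.v 4) = (ordAt a).ord (S.v 0) := fun a => by
    have := S.vper 0
    rw [zero_add] at this
    rw [this]
  have h2q : (2 : ℤ) ∣ ((2 ^ n : ℕ) : ℤ) := by exact_mod_cast S.p_dvd_q
  refine S.master 1 (by omega) (by omega) hW1 hρ fun a => ?_
  rcases le_or_gt 0 ((ordAt a).ord S.κ) with hk | hk
  · exact S.local_nonneg a 1 (by omega) (by omega) hW1 hρ hk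
  by_cases ha : ∃ m, S.t m = a
  · obtain ⟨m, hm⟩ := ha
    rw [← S.tot_shift a 1 m]
    have hW' : (S.shift m).W 0 2 = 0 := by
      show S.W (0 + m) (2 + m) = 0
      have := S.W_all_zero 2 hW m
      rw [zero_add, add_comm 2 m]
      exact this
    have hρ' : (S.shift m).ρ ≠ 0 := hρ
    have R := (S.shift m).rules a
    have hW1' : ∀ i, (S.shift m).W i (i + 1) ≠ 0 := fun i => by
      show S.W (i + m) (i + 1 + m) ≠ 0
      rw [show i + 1 + m = i + m + 1 by ring]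
      exact hW1 _
    have Wr1 := (S.shift m).wr a 1 hW1' hρ
    have h0 : (S.shift m).t 0 = a := by
      show S.t (0 + m) = a
      rw [zero_add, hm]
    have hδ0 : (if (S.shift m).t 0 = a then (1 : ℤ) else 0) = 1 := if_pos h0
    have hδ : ∀ i, 0 < i → i < 4 → (if (S.shift m).t i = a then (1 : ℤ) else 0) = 0 := by
      intro i hi hid
      rw [if_neg]
      intro h
      have := (S.shift m).t_ne 0 i hi hid
      rw [zero_add, h0, h] at this
      exact this rfl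
    have hsum : ∑ i ∈ range 4, (if S.t i = a then (1 : ℤ) else 0) = 1 := by
      have h1 := sum_shift (fun i => if S.t i = a then (1 : ℤ) else 0) 4
        (fun i => by simp only [S.tper]) m
      rw [← h1]
      exact sum_delta (by norm_num) hδ0 hδ
    rw [hsum, mul_one]
    refine bound_alt_p (K := -(ordAt a).ord S.κ) R Wr1 hn h2q
      (by show (ordAt a).ord S.κ = _; ring) (by linarith) hδ0 hδ ?_
    rintro hodd ⟨e0, e1, e2, e3⟩
    have hk2 : ¬ (2 : ℤ) ∣ (ordAt a).ord (S.shift m).κ := by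
      intro h
      exact hodd ((dvd_neg).mpr h)
    have d0 := (S.shift m).deg_ord hρ' hW' a hk2 0
    have d1 := (S.shift m).deg_ord hρ' hW' a hk2 1
    rw [show 1 + 3 = 0 + 4 from rfl, (S.shift m).vper] at d1
    rw [show 0 + 1 = 1 from rfl, show 0 + 3 = 3 from rfl] at d0
    rw [show 1 + 1 = 2 from rfl] at d1
    rw [e1, e3] at d0
    rw [e2, e0] at d1
    have hκ : (ordAt a).ord (S.shift m).κ = (ordAt a).ord S.κ := rfl
    rw [hκ] at d0 d1
    have d2 : ((2 ^ n : ℕ) : ℤ) ∣ 1 := by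
      have h3 := d0.add d1
      have h4 := (dvd_sub (d0) (dvd_neg.mpr d1))
      have h5 : ((ordAt a).ord S.κ - 1 + 0 + 0) + (ordAt a).ord S.κ * (0 : ℤ) +
        ((ordAt a).ord S.κ - 1 + -(ordAt a).ord S.κ + (1 + -(ordAt a).ord S.κ)) = -1 := by
        ring
      have h6 := d0.add d1
      have h7 : ((ordAt a).ord S.κ - 1 + 0 + 0) +
        ((ordAt a).ord S.κ - 1 + -(ordAt a).ord S.κ + (1 + -(ordAt a).ord S.κ)) = -1 := by ring
      rw [h7] at h6
      exact (dvd_neg).mp h6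
    have := Int.le_of_dvd one_pos d2
    linarith
  · have R := S.rules a
    have Wr1 := S.wr a 1 hW1 hρ
    have hδ : ∀ i, (if S.t i = a then (1 : ℤ) else 0) = 0 := fun i =>
      if_neg fun h => ha ⟨i, h⟩
    rw [Finset.sum_eq_zero fun i _ => hδ i, mul_zero]
    refine bound_alt_off (K := -(ordAt a).ord S.κ) R Wr1 (by ring) (by linarith) hδ ?_
    intro hodd hcase
    have hk2 : ¬ (2 : ℤ) ∣ (ordAt a).ord S.κ := by
      intro h
      exact hodd ((dvd_neg).mpr h)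
    have d0 := S.deg_ord hρ hW a hk2 0
    have d1 := S.deg_ord hρ hW a hk2 1
    rw [show 1 + 3 = 0 + 4 from rfl, S.vper] at d1
    rw [show 0 + 1 = 1 from rfl, show 0 + 3 = 3 from rfl] at d0
    rw [show 1 + 1 = 2 from rfl] at d1
    have d2 : ((2 ^ n : ℕ) : ℤ) ∣ 2 := by
      have h6 := d0.add d1
      have h7 : ((ordAt a).ord S.κ - 1 + (ordAt a).ord (S.v 1) + (ordAt a).ord (S.v 3)) +
        ((ordAt a).ord S.κ - 1 + (ordAt a).ord (S.v 2) + (ordAt a).ord (S.v 0)) = -2 := by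
        rcases hcase with ⟨a1, a2, a3, a4⟩ | ⟨a1, a2, a3, a4⟩ <;>
          (rw [a1, a2, a3, a4]; ring)
      rw [h7] at h6
      exact (dvd_neg).mp h6
    have := Int.le_of_dvd two_pos d2
    linarith

end two

end Sys

end Pool.Agent.DrY
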