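import Pool.Agent.Lib.MP_531408_nt.D4

set_option autoImplicit false

namespace Pool.Agent.DrY

open Polynomial Finset

section

variable {K : Type*} [Field K]

lemma denom_eq_one_of_ord [IsAlgClosed K] {f : RatFunc K}
    (h : ∀ a : K, 0 ≤ (ordAt a).ord f) : f.denom = 1 := by
  have hden : f.denom.natDegree = 0 := by
    by_contra hcon
    have hdeg : f.denom.degree ≠ 0 := by
      intro h0
      exact hcon (Polynomial.natDegree_eq_of_degree_eq_some h0)
    obtain ⟨a, ha⟩ := IsAlgClosed.exists_root f.denom hdeg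
    have h1 := h a
    have h2 : 0 < f.denom.rootMultiplicity a :=
      (Polynomial.rootMultiplicity_pos f.denom_ne_zero).mpr ha
    have h3 : f.num.rootMultiplicity a = 0 := by
      rw [Polynomial.rootMultiplicity_eq_zero_iff]
      intro hr
      exfalso
      obtain ⟨u, v, huv⟩ := f.isCoprime_num_denom
      have := congrArg (Polynomial.eval a) huv
      rw [Polynomial.eval_add, Polynomial.eval_mul, Polynomial.eval_mul,
        Polynomial.IsRoot.def.mp hr, Polynomial.IsRoot.def.mp ha] at this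
      simp at this
    have h4 : (ordAt a).ord f = (f.num.rootMultiplicity a : ℤ) - f.denom.rootMultiplicity a := rfl
    omega
  exact (f.monic_denom.natDegree_eq_zero).mp hden

lemma const_of_ord_zero [IsAlgClosed K] {f : RatFunc K} (hf : f ≠ 0)
    (h : ∀ a : K, (ordAt a).ord f = 0) : ∃ c : K, c ≠ 0 ∧ f = RatFunc.C c := by
  have hden := denom_eq_one_of_ord (f := f) fun a => (h a).ge
  have hnum : f.num.natDegree = 0 := by
    by_contra hcon
    have hdeg : f.num.degree ≠ 0 := by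
      intro h0
      exact hcon (Polynomial.natDegree_eq_of_degree_eq_some h0)
    obtain ⟨a, ha⟩ := IsAlgClosed.exists_root f.num hdeg
    have h2 : 0 < f.num.rootMultiplicity a :=
      (Polynomial.rootMultiplicity_pos (RatFunc.num_ne_zero hf)).mpr ha
    have h4 : (ordAt a).ord f = (f.num.rootMultiplicity a : ℤ) - f.denom.rootMultiplicity a := rfl
    rw [h a, hden, ← map_one Polynomial.C, Polynomial.rootMultiplicity_C] at h4
    simp only [Nat.cast_zero, sub_zero] at h4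
    omega
  have h1 := Polynomial.eq_C_of_natDegree_eq_zero hnum
  have h2 : f = RatFunc.C (f.num.coeff 0) := by
    conv_lhs => rw [← f.num_div_denom, hden, map_one, div_one, h1]
    rw [RatFunc.algebraMap_C]
  refine ⟨f.num.coeff 0, ?_, h2⟩
  intro h0
  rw [h0, map_zero] at h2
  exact hf h2

/-- a root in `K(X)` of a monic quadratic with constant coefficients is constant. -/
lemma const_of_quad [IsAlgClosed K] {f : RatFunc K} {b c : K}
    (h : f ^ 2 + RatFunc.C b * f + RatFunc.C c = 0) : ∃ e : K, f = RatFunc.C e := by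
  have hdeg : (X ^ 2 + C b * X + C c : K[X]).degree ≠ 0 := by
    have : (X ^ 2 + C b * X + C c : K[X]).degree = 2 := by compute_degree!
    rw [this]; norm_num
  obtain ⟨e, he⟩ := IsAlgClosed.exists_root _ hdeg
  have he' : e ^ 2 + b * e + c = 0 := by simpa using he
  have he2 : (RatFunc.C e ^ 2 + RatFunc.C b * RatFunc.C e + RatFunc.C c : RatFunc K) = 0 := by
    rw [← map_pow, ← map_mul, ← map_add, ← map_add, he', map_zero]
  have h2 : (f - RatFunc.C e) * (f + RatFunc.C e + RatFunc.C b) = 0 := by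
    linear_combination h - he2
  rcases mul_eq_zero.mp h2 with h3 | h3
  · exact ⟨e, sub_eq_zero.mp h3⟩
  · refine ⟨-e - b, ?_⟩
    rw [map_sub, map_neg]
    linear_combination h3

end

lemma alg_core1 {L : Type*} [Field L] [CharP L 2] (X m0 m1 τ k t0 t1 t2 t3 Y0 Y1 : L)
    (hm0 : m0 * Y0 = τ) (m0ne : m0 ≠ 0) (m1ne : m1 ≠ 0) (kne : k ≠ 0) (τne : τ ≠ 0)
    (r0 : k * m0 ^ 2 * ((m1 * (Y1 + X + t1)) * (m1 * (Y1 + X + t3))) = 1)
    (r1 : k * m1 ^ 2 * ((m0 * (Y0 + X + t2)) * (m0 * (Y0 + X + t0))) = 1)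
    (e0 : (m0 * (Y0 + X + t0)) * (1 + k * τ * (m1 * (Y1 + X + t3)) ^ 2) = t0 + X)
    (ht0 : t3 ^ 2 = t0) :
    (Y0 + X + t0) * (Y0 + X + t2) = (Y1 + X + t1) * (Y1 + X + t3) ∧
    (τ + Y0) * ((Y0 + X + t0) * (Y0 + X + t2)) =
      Y0 ^ 2 * ((Y1 + X) ^ 2 + (Y0 + X) + (t0 + t2)) := by
  have hP : (Y0 + X + t0) * (Y0 + X + t2) = (Y1 + X + t1) * (Y1 + X + t3) := by
    have : k * m0 ^ 2 * m1 ^ 2 ≠ 0 := by positivity
    apply mul_left_cancel₀ this
    linear_combination r1 - r0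
  refine ⟨hP, ?_⟩
  have h1 : (m0 * (Y0 + X + t0)) * (1 + k * τ * (m1 * (Y1 + X + t3)) ^ 2) =
      (Y0 + X + t0) + Y0 := by
    rw [e0]
    linear_combination (norm := (ring_nf; try reduce_mod_char!)) 0
  apply mul_left_cancel₀ τne
  linear_combination (norm := (ring_nf; try reduce_mod_char!)) Y0 ^ 2 * m0 * (Y0 + X + t2) * h1 -
    (m0 * Y0 + τ) * (Y0 + X + t0) * (Y0 + X + t2) * hm0 -
    τ * (Y1 + X + t3) ^ 2 * Y0 ^ 2 * r1 + Y0 * (Y0 + X + t0) * (Y0 + X + t2) * hm0 +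
    Y0 ^ 2 * (Y0 + X + t2) * hm0 + τ * Y0 ^ 2 * ht0

/-- the second step, when the trace is one. -/
lemma alg_core2 {L : Type*} [Field L] [CharP L 2] (X τ Q0 Q1 a0 a1 p0 p1 B w e : L)
    (hB : Q0 + Q1 = B) (h1 : Q0 ^ 2 + a0 * Q0 + p0 = Q1 ^ 2 + a1 * Q1 + p1)
    (E0 : (τ + (Q0 + X)) * (Q0 ^ 2 + a0 * Q0 + p0) = (Q0 + X) ^ 2 * (Q1 ^ 2 + Q0 + a0))
    (E1 : (τ + (Q1 + X)) * (Q0 ^ 2 + a0 * Q0 + p0) = (Q1 + X) ^ 2 * (Q0 ^ 2 + Q1 + a1))
    (hs : a0 + a1 = 1) (ha0 : a0 ^ 2 = a1) (hw : p0 + p1 = w) (hww : w ^ 2 = w)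
    (he : e = p0 + a0 * w) :
    (X ^ 2 + w) * (B ^ 2 + 1) = (X ^ 2 + e) * B := by
  have ha01 : a0 * a1 = 1 := by
    linear_combination (norm := (ring_nf; try reduce_mod_char!)) (a0 + 1) * hs + ha0
  have ha1 : a1 ^ 2 = a0 := by
    linear_combination (norm := (ring_nf; try reduce_mod_char!)) (a0 + a1 + 1) * hs + ha0 + hs
  obtain ⟨c, hc⟩ : ∃ c, c = B ^ 2 + w := ⟨_, rfl⟩
  have hQ0 : Q0 = c + a1 * B := by
    rw [hc]
    linear_combination (norm := (ring_nf; try reduce_mod_char!)) h1 + (Q0 + Q1 + B + a1) * hB + hw +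
      Q0 * hs
  have hQ1 : Q1 = c + a0 * B := by
    linear_combination (norm := (ring_nf; try reduce_mod_char!)) hQ0 + hB + B * hs
  have s2 : Q0 * Q1 = c ^ 2 + c * B + B ^ 2 := by
    rw [hQ0, hQ1]
    linear_combination (norm := (ring_nf; try reduce_mod_char!)) c * B * hs + B ^ 2 * ha01
  have s3 : Q0 ^ 3 + Q1 ^ 3 = c * B * (c + B) := by
    have : Q0 ^ 3 + Q1 ^ 3 = B ^ 3 + B * (Q0 * Q1) := by
      rw [← hB]
      linear_combination (norm := (ring_nf; try reduce_mod_char!)) 0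
    rw [this, s2]
    linear_combination (norm := (ring_nf; try reduce_mod_char!)) 0
  have s4 : a0 * Q0 ^ 2 + a1 * Q1 ^ 2 = c ^ 2 + B ^ 2 := by
    rw [hQ0, hQ1]
    linear_combination (norm := (ring_nf; try reduce_mod_char!)) c ^ 2 * hs +
      (a0 + a1) * B ^ 2 * ha01 + B ^ 2 * hs
  have s5 : Q0 ^ 2 + a0 * Q0 + p0 = c ^ 2 + B + e := by
    rw [hQ0, he]
    linear_combination (norm := (ring_nf; try reduce_mod_char!)) B ^ 2 * ha1 + B * ha01 + a0 * hc
  have s6 : B * (Q0 ^ 2 + a0 * Q0 + p0) = X ^ 2 * (B ^ 2 + B + 1) + (Q0 ^ 3 + Q1 ^ 3) +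
      (a0 * Q0 ^ 2 + a1 * Q1 ^ 2) := by
    rw [← hB]
    linear_combination (norm := (ring_nf; try reduce_mod_char!)) E0 + E1 + X ^ 2 * hs
  rw [s5, s3, s4] at s6
  linear_combination (norm := (ring_nf; try reduce_mod_char!)) s6 + (c + w) * hc + hww

section ords

variable {L : Type*} [Field L] (w : OrdFn L)

lemma ord_add_one_of_neg {B : L} (hB : B ≠ 0) (h : w.ord B < 0) : w.ord (B + 1) = w.ord B :=
  (OrdFn.add_eq_left hB (OrdFn.O_of_le (by rw [w.ord_one]; omega))).2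

lemma ord_add_one_of_pos {B : L} (h : 0 < w.ord B) : w.ord (B + 1) = 0 := by
  rw [(OrdFn.add_eq_right (one_ne_zero) (OrdFn.O_of_le (by rw [w.ord_one]; omega))).2, w.ord_one]

/-- if `2 ord (B+1) = 2 u + ord B` with `u ≥ 0` then `ord B = 0`. -/
lemma ord_zero_of_rel {B : L} (hB : B ≠ 0) {u : ℤ} (hu : 0 ≤ u)
    (h : 2 * w.ord (B + 1) = 2 * u + w.ord B) : w.ord B = 0 := by
  rcases lt_trichotomy (w.ord B) 0 with h1 | h1 | h1
  · rw [ord_add_one_of_neg w hB h1] at h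
    omega
  · exact h1
  · rw [ord_add_one_of_pos w h1] at h
    omega

end ords

section

variable {K : Type*} [Field K] [CharP K 2]

/-- no nonconstant solutions of `(X - a)² (B+1)² = (X - e)² B` -/
lemma const_of_rel [IsAlgClosed K] {B : RatFunc K} {a e : K} (hB : B ≠ 0) (hB1 : B + 1 ≠ 0)
    (h : (RatFunc.X - RatFunc.C a) ^ 2 * (B + 1) ^ 2 = (RatFunc.X - RatFunc.C e) ^ 2 * B) :
    ∃ c : K, B = RatFunc.C c := by
  classical
  have hXa := X_sub_C_ne (K := K) a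
  have hXe := X_sub_C_ne (K := K) e
  have hord : ∀ w : OrdFn (RatFunc K), 2 * w.ord (RatFunc.X - RatFunc.C a) + 2 * w.ord (B + 1) =
      2 * w.ord (RatFunc.X - RatFunc.C e) + w.ord B := by
    intro w
    have h1 := congrArg w.ord h
    rw [w.ord_mul (pow_ne_zero _ hXa) (pow_ne_zero _ hB1), w.ord_mul (pow_ne_zero _ hXe) hB,
      w.ord_pow hXa, w.ord_pow hXe, w.ord_pow hB1] at h1
    exact_mod_cast h1
  have hinf : ordInf.ord B = 0 := by
    have h1 := hord ordInf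
    rw [ordInf_X_sub_C, ordInf_X_sub_C] at h1
    exact ord_zero_of_rel ordInf hB (u := 0) le_rfl (by linarith)
  have hfin : ∀ b : K, b ≠ a → (ordAt b).ord B = 0 := by
    intro b hb
    have h1 := hord (ordAt b)
    rw [ordAt_X_sub_C, if_neg hb.symm] at h1
    exact ord_zero_of_rel (ordAt b) hB
      (u := (ordAt b).ord (RatFunc.X - RatFunc.C e)) (by rw [ordAt_X_sub_C]; split_ifs <;> simp)
      (by linarith)
  set m := (ordAt a).ord B with hm
  have hG0 : B * (RatFunc.X - RatFunc.C a) ^ (-m) ≠ 0 := mul_ne_zero hB (zpow_ne_zero _ hXa)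
  have hG : ∀ b : K, (ordAt b).ord (B * (RatFunc.X - RatFunc.C a) ^ (-m)) = 0 := by
    intro b
    rw [(ordAt b).ord_mul hB (zpow_ne_zero _ hXa), (ordAt b).ord_zpow hXa, ordAt_X_sub_C]
    by_cases hb : a = b
    · subst hb
      rw [if_pos rfl, ← hm]; ring
    · rw [if_neg hb, hfin b (fun h => hb h.symm)]; ring
  obtain ⟨c, hc0, hc⟩ := const_of_ord_zero hG0 hG
  have h2 := congrArg ordInf.ord hc
  rw [ordInf.ord_mul hB (zpow_ne_zero _ hXa), ordInf.ord_zpow hXa, ordInf_X_sub_C, ordInf_C,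
    hinf] at h2
  have hm0 : m = 0 := by linarith
  rw [hm0] at hc
  exact ⟨c, by simpa using hc⟩

namespace Sys

variable {n : ℕ} [Fact (Nat.Prime 2)]

section gen2

variable {K : Type*} [Field K] {p n d : ℕ} [Fact p.Prime] [CharP K p] (S : Sys K p n d)

lemma sigma_rho : mapRF (iterateFrobenius K p n) S.ρ = S.ρ := by
  rw [ρ, ld, map_div₀, ← mapRF_der, S.κs]

lemma sigma_theta (i : ℕ) : mapRF (iterateFrobenius K p n) (S.θ i) = S.θ (i + 1) := by
  rw [θ, θ, ld, ld, map_div₀, ← mapRF_der, S.vs]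

lemma sigma_mu (i : ℕ) : mapRF (iterateFrobenius K p n) (S.μ i) = S.μ (i + 1) := by
  rw [μ, μ, map_neg, map_add, map_one, map_mul, map_inv₀, S.sigma_rho, S.sigma_theta]

end gen2

/-- the case `d = 4`, `q = 2` -/
theorem d4_two [IsAlgClosed K] (S : Sys K 2 1 4) (hρ : S.ρ ≠ 0) (hW : S.W 0 2 = 0) : False := by
  have hch : CharP (RatFunc K) 2 := inferInstance
  have hμ : ∀ i, S.μ (i + 2) = S.μ i := fun i =>
    (S.mu_eq_of_W hρ (S.W_all_zero 2 hW i)).symm
  have hμ2 : S.μ 2 = S.μ 0 := hμ 0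
  have hμ3 : S.μ 3 = S.μ 1 := hμ 1
  have n02 : S.t 0 ≠ S.t 2 := by
    have := S.t_ne 0 2 (by omega) (by omega)
    rwa [zero_add] at this
  have n01 : S.t 0 ≠ S.t 1 := by
    have := S.t_ne 0 1 (by omega) (by omega)
    rwa [zero_add] at this
  have n12 : S.t 1 ≠ S.t 2 := S.t_ne 1 1 (by omega) (by omega)
  have n13 : S.t 1 ≠ S.t 3 := S.t_ne 1 2 (by omega) (by omega)
  have m0ne : S.μ 0 ≠ 0 := S.mu_ne hρ hμ2.symm n02
  have m1ne : S.μ 1 ≠ 0 := S.mu_ne hρ hμ3.symm n13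
  have t4 : S.t 4 = S.t 0 := by have := S.tper 0; rwa [zero_add] at this
  have v4 : S.v 4 = S.v 0 := by have := S.vper 0; rwa [zero_add] at this
  have ht : ∀ i, S.t i ^ 2 = S.t (i + 1) := fun i => by
    have := S.ht i
    rw [show (2 : ℕ) ^ 1 = 2 from rfl] at this
    exact this.symm
  have ht0 : S.t 0 ^ 2 = S.t 1 := ht 0
  have ht1 : S.t 1 ^ 2 = S.t 2 := ht 1
  have ht2 : S.t 2 ^ 2 = S.t 3 := ht 2
  have ht3 : S.t 3 ^ 2 = S.t 0 := by rw [ht 3]; exact t4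
  -- names
  obtain ⟨τ, hτ⟩ : ∃ τ, τ = (S.ρ)⁻¹ := ⟨_, rfl⟩
  have τne : τ ≠ 0 := by rw [hτ]; exact inv_ne_zero hρ
  obtain ⟨Y0, hY0⟩ : ∃ Y, Y = τ / S.μ 0 := ⟨_, rfl⟩
  obtain ⟨Y1, hY1⟩ : ∃ Y, Y = τ / S.μ 1 := ⟨_, rfl⟩
  have hm0 : S.μ 0 * Y0 = τ := by rw [hY0]; field_simp
  have hm1 : S.μ 1 * Y1 = τ := by rw [hY1]; field_simp
  have hv0 : S.v 0 = S.μ 0 * (Y0 + RatFunc.X + RatFunc.C (S.t 0)) := by
    rw [S.v_eq_mu hρ 0, ← hτ, CharTwo.sub_eq_add]
    linear_combination -hm0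
  have hv2 : S.v 2 = S.μ 0 * (Y0 + RatFunc.X + RatFunc.C (S.t 2)) := by
    rw [S.v_eq_mu hρ 2, hμ2, ← hτ, CharTwo.sub_eq_add]
    linear_combination -hm0
  have hv1 : S.v 1 = S.μ 1 * (Y1 + RatFunc.X + RatFunc.C (S.t 1)) := by
    rw [S.v_eq_mu hρ 1, ← hτ, CharTwo.sub_eq_add]
    linear_combination -hm1
  have hv3 : S.v 3 = S.μ 1 * (Y1 + RatFunc.X + RatFunc.C (S.t 3)) := by
    rw [S.v_eq_mu hρ 3, hμ3, ← hτ, CharTwo.sub_eq_add]
    linear_combination -hm1
  obtain ⟨k, hk⟩ : ∃ k, k = S.ρ * S.κ := ⟨_, rfl⟩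
  have kne : k ≠ 0 := by rw [hk]; exact mul_ne_zero hρ S.κ0
  have hκ : S.κ = k * τ := by rw [hk, hτ]; field_simp
  have d0 := S.deg_rel hρ hW 0
  have d1 := S.deg_rel hρ hW 1
  have d2 := S.deg_rel hρ hW 2
  have d3 := S.deg_rel hρ hW 3
  have v5 : S.v 5 = S.v 1 := S.vper 1
  have v6 : S.v 6 = S.v 2 := S.vper 2
  simp only [zero_add, show 1 + 1 = 2 from rfl, show 1 + 3 = 4 from rfl, show 2 + 1 = 3 from rfl,
    show 2 + 3 = 5 from rfl, show 3 + 1 = 4 from rfl, show 3 + 3 = 6 from rfl, hμ2, hμ3, v4, v5,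
    v6, pow_one, CharTwo.neg_eq, ← hk] at d0 d1 d2 d3
  have E3 := S.heq 3
  have E0 := S.heq 0
  simp only [zero_add, show 3 + 1 = 4 from rfl, v4, t4, pow_one, CharTwo.sub_eq_add, hκ] at E3 E0
  rw [hv1, hv3] at d0
  rw [hv2, hv0] at d1
  rw [hv3, hv1] at d2
  rw [hv0, hv2] at d3
  rw [hv0, hv3] at E3
  rw [hv1, hv0] at E0
  have cht : ∀ i, (RatFunc.C (S.t i) : RatFunc K) ^ 2 = RatFunc.C (S.t (i + 1)) := fun i => by
    rw [← map_pow, ht]
  have cht3 : (RatFunc.C (S.t 3) : RatFunc K) ^ 2 = RatFunc.C (S.t 0) := by rw [← map_pow, ht3]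
  have A0 := alg_core1 RatFunc.X (S.μ 0) (S.μ 1) τ k (RatFunc.C (S.t 0)) (RatFunc.C (S.t 1))
    (RatFunc.C (S.t 2)) (RatFunc.C (S.t 3)) Y0 Y1 hm0 m0ne m1ne kne τne d0 d1 E3 cht3
  have A1 := alg_core1 RatFunc.X (S.μ 1) (S.μ 0) τ k (RatFunc.C (S.t 1)) (RatFunc.C (S.t 2))
    (RatFunc.C (S.t 3)) (RatFunc.C (S.t 0)) Y1 Y0 hm1 m1ne m0ne kne τne
    (by rw [← d3]; ring) d2 E0 (cht 0)
  -- constants
  obtain ⟨a0, ha0⟩ : ∃ x, x = S.t 0 + S.t 2 := ⟨_, rfl⟩
  obtain ⟨a1, ha1⟩ : ∃ x, x = S.t 1 + S.t 3 := ⟨_, rfl⟩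
  obtain ⟨p0, hp0⟩ : ∃ x, x = S.t 0 * S.t 2 := ⟨_, rfl⟩
  obtain ⟨p1, hp1⟩ : ∃ x, x = S.t 1 * S.t 3 := ⟨_, rfl⟩
  have ha0s : a0 ^ 2 = a1 := by
    rw [ha0, ha1, ← ht0, ← ht2, CharTwo.add_sq]
  have ha1s : a1 ^ 2 = a0 := by
    rw [ha0, ha1, CharTwo.add_sq, ht1, ht3]; ring
  have hp0s : p0 ^ 2 = p1 := by rw [hp0, hp1, mul_pow, ht0, ht2]
  have hp1s : p1 ^ 2 = p0 := by rw [hp0, hp1, mul_pow, ht1, ht3]; ring
  obtain ⟨w, hw⟩ : ∃ w, w = p0 + p1 := ⟨_, rfl⟩
  have hww : w ^ 2 = w := by rw [hw, CharTwo.add_sq, hp0s, hp1s]; ring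
  have hs2 : (a0 + a1) ^ 2 = a0 + a1 := by rw [CharTwo.add_sq, ha0s, ha1s]; ring
  obtain ⟨Q0, hQ0⟩ : ∃ x, x = Y0 + RatFunc.X := ⟨_, rfl⟩
  obtain ⟨Q1, hQ1⟩ : ∃ x, x = Y1 + RatFunc.X := ⟨_, rfl⟩
  rw [← hQ0, ← hQ1] at A0 A1
  obtain ⟨B, hB⟩ : ∃ B, B = Q0 + Q1 := ⟨_, rfl⟩
  -- sigma invariance of B
  have hσ : mapRF (iterateFrobenius K 2 1) B = B := by
    have e1 : mapRF (iterateFrobenius K 2 1) τ = τ := by
      rw [hτ, map_inv₀, S.sigma_rho]
    have e2 : mapRF (iterateFrobenius K 2 1) Y0 = Y1 := by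
      rw [hY0, hY1, map_div₀, e1, S.sigma_mu]
    have e3 : mapRF (iterateFrobenius K 2 1) Y1 = Y0 := by
      rw [hY0, hY1, map_div₀, e1, S.sigma_mu, show 1 + 1 = 2 from rfl, hμ2]
    rw [hB, hQ0, hQ1, map_add, map_add, map_add, e2, e3, mapRF_X]
    ring
  have hconst : ∀ b : K, B = RatFunc.C b → b ^ 2 = b := by
    intro b hb
    rw [hb, mapRF_C] at hσ
    have := RatFunc.C_injective hσ
    rw [iterateFrobenius_def] at this
    simpa using this
  have rel1 : Q0 ^ 2 + RatFunc.C a0 * Q0 + RatFunc.C p0 =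
      Q1 ^ 2 + RatFunc.C a1 * Q1 + RatFunc.C p1 := by
    have h := A0.1
    rw [ha0, ha1, hp0, hp1, map_add, map_add, map_mul, map_mul]
    linear_combination h
  rcases (show (a0 + a1) = 0 ∨ (a0 + a1) = 1 by
    have : (a0 + a1) * ((a0 + a1) - 1) = 0 := by linear_combination hs2
    rcases mul_eq_zero.mp this with h | h
    · exact Or.inl h
    · exact Or.inr (sub_eq_zero.mp h)) with hs | hs
  · -- trace zero
    have h01 : a1 = a0 := by
      linear_combination (norm := (ring_nf; try reduce_mod_char!)) hs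
    have ha0ne : a0 ≠ 0 := by
      intro h
      apply n02
      have : S.t 0 + S.t 2 = 0 := by rw [← ha0, h]
      linear_combination (norm := (ring_nf; try reduce_mod_char!)) this
    have ha01 : a0 = 1 := by
      rw [h01] at ha0s
      have : a0 * (a0 - 1) = 0 := by linear_combination ha0s
      exact sub_eq_zero.mp ((mul_eq_zero.mp this).resolve_left ha0ne)
    have hq : B ^ 2 + RatFunc.C a0 * B + RatFunc.C w = 0 := by
      rw [h01] at rel1
      rw [hB, hw, map_add]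
      linear_combination (norm := (ring_nf; try reduce_mod_char!)) rel1
    obtain ⟨b, hb⟩ := const_of_quad hq
    have hb2 := hconst b hb
    rw [hb, ← map_pow, ← map_mul, ← map_add, ← map_add, hb2, ha01, one_mul,
      CharTwo.add_self_eq_zero, zero_add, map_eq_zero] at hq
    have hpp : p0 = p1 := by
      rw [hw] at hq
      linear_combination (norm := (ring_nf; try reduce_mod_char!)) hq
    have : (S.t 1 - S.t 0) * (S.t 1 - S.t 2) = 0 := by
      have e1 : S.t 0 + S.t 2 = S.t 1 + S.t 3 := by rw [← ha0, ← ha1, h01]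
      have e2 : S.t 0 * S.t 2 = S.t 1 * S.t 3 := by rw [← hp0, ← hp1, hpp]
      linear_combination e2 - S.t 1 * e1
    rcases mul_eq_zero.mp this with h | h
    · exact n01 (sub_eq_zero.mp h).symm
    · exact n12 (sub_eq_zero.mp h)
  · -- trace one
    obtain ⟨e, he⟩ : ∃ e, e = p0 + a0 * w := ⟨_, rfl⟩
    have hee : e ^ 2 = e := by
      rw [he, CharTwo.add_sq, mul_pow, hp0s, ha0s, hww]
      linear_combination (norm := (ring_nf; try reduce_mod_char!)) w * hs + hw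
    have hA0 := A0.2
    have hA1 := A1.2
    have hY0Q : Y0 = Q0 + RatFunc.X := by
      rw [hQ0]; linear_combination (norm := (ring_nf; try reduce_mod_char!)) 0
    have hY1Q : Y1 = Q1 + RatFunc.X := by
      rw [hQ1]; linear_combination (norm := (ring_nf; try reduce_mod_char!)) 0
    rw [hY0Q] at hA0
    rw [hY1Q] at hA1
    have fin := alg_core2 RatFunc.X τ Q0 Q1 (RatFunc.C a0) (RatFunc.C a1) (RatFunc.C p0)
      (RatFunc.C p1) B (RatFunc.C w) (RatFunc.C e) hB.symm rel1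
      (by
        rw [ha0, hp0, map_add, map_mul]
        linear_combination hA0)
      (by
        rw [rel1, ha1, hp1, map_add, map_mul]
        linear_combination hA1)
      (by rw [← map_add, hs, map_one]) (by rw [← map_pow, ha0s]) (by rw [← map_add, hw])
      (by rw [← map_pow, hww]) (by rw [he, map_add, map_mul])
    have hsq : ∀ c : K, c ^ 2 = c → (RatFunc.X ^ 2 + RatFunc.C c : RatFunc K) =
        (RatFunc.X - RatFunc.C c) ^ 2 := by
      intro c hc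
      rw [CharTwo.sub_eq_add, CharTwo.add_sq, ← map_pow, hc]
    rw [hsq w hww, hsq e hee] at fin
    have hB0 : B ≠ 0 := by
      intro h
      rw [h] at fin
      have h2 : (RatFunc.X - RatFunc.C w : RatFunc K) ^ 2 = 0 := by linear_combination fin
      exact X_sub_C_ne w (pow_eq_zero_iff (by norm_num) |>.mp h2)
    have hB1 : B + 1 ≠ 0 := by
      intro h
      have h1 : B = 1 := by linear_combination (norm := (ring_nf; try reduce_mod_char!)) h
      rw [h1] at fin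
      have h2 : (RatFunc.X - RatFunc.C e : RatFunc K) ^ 2 = 0 := by
        linear_combination (norm := (ring_nf; try reduce_mod_char!)) -fin
      exact X_sub_C_ne e (pow_eq_zero_iff (by norm_num) |>.mp h2)
    obtain ⟨b, hb⟩ := const_of_rel (a := w) (e := e) hB0 hB1 (by
      rw [← fin, CharTwo.add_sq]; ring)
    have hb2 := hconst b hb
    have : b * (b - 1) = 0 := by linear_combination hb2
    rcases mul_eq_zero.mp this with h | h
    · rw [h, map_zero] at hb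
      exact hB0 hb
    · rw [sub_eq_zero.mp h, map_one] at hb
      apply hB1
      rw [hb, CharTwo.add_self_eq_zero]

end Sys

end

end Pool.Agent.DrY
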