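import Mathlib

set_option autoImplicit false

namespace Pool.Agent.DrY

open Polynomial

section

variable (K : Type*) [Field K]

/-- the ring homomorphism `p ↦ p + p' ε` -/
noncomputable def dualHom : K[X] →+* TrivSqZeroExt (RatFunc K) (RatFunc K) where
  toFun p := TrivSqZeroExt.inl (algebraMap K[X] (RatFunc K) p) +
    TrivSqZeroExt.inr (algebraMap K[X] (RatFunc K) (derivative p))
  map_one' := by
    ext
    · simp only [TrivSqZeroExt.fst_add, TrivSqZeroExt.fst_inl, TrivSqZeroExt.fst_inr,
        TrivSqZeroExt.fst_one, map_one, add_zero]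
    · simp only [TrivSqZeroExt.snd_add, TrivSqZeroExt.snd_inl, TrivSqZeroExt.snd_inr,
        TrivSqZeroExt.snd_one, derivative_one, map_zero, add_zero]
  map_mul' p q := by
    ext
    · simp only [TrivSqZeroExt.fst_add, TrivSqZeroExt.fst_inl, TrivSqZeroExt.fst_inr,
        TrivSqZeroExt.fst_mul, map_mul, add_zero]
    · simp only [TrivSqZeroExt.snd_add, TrivSqZeroExt.snd_inl, TrivSqZeroExt.snd_inr,
        TrivSqZeroExt.fst_add, TrivSqZeroExt.fst_inl, TrivSqZeroExt.fst_inr,
        TrivSqZeroExt.snd_mul, map_mul, map_add, add_zero, zero_add, derivative_mul,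
        smul_eq_mul, op_smul_eq_mul]
      ring
  map_zero' := by
    ext
    · simp only [TrivSqZeroExt.fst_add, TrivSqZeroExt.fst_inl, TrivSqZeroExt.fst_inr,
        TrivSqZeroExt.fst_zero, map_zero, add_zero]
    · simp only [TrivSqZeroExt.snd_add, TrivSqZeroExt.snd_inl, TrivSqZeroExt.snd_inr,
        TrivSqZeroExt.snd_zero, derivative_zero, map_zero, add_zero]
  map_add' p q := by
    ext
    · simp only [TrivSqZeroExt.fst_add, TrivSqZeroExt.fst_inl, TrivSqZeroExt.fst_inr,
        map_add, add_zero]
    · simp only [TrivSqZeroExt.snd_add, TrivSqZeroExt.snd_inl, TrivSqZeroExt.snd_inr,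
        map_add, zero_add, derivative_add]

lemma dualHom_fst (p : K[X]) : (dualHom K p).fst = algebraMap K[X] (RatFunc K) p := by
  simp only [dualHom, RingHom.coe_mk, MonoidHom.coe_mk, OneHom.coe_mk, TrivSqZeroExt.fst_add,
    TrivSqZeroExt.fst_inl, TrivSqZeroExt.fst_inr, add_zero]

lemma dualHom_snd (p : K[X]) :
    (dualHom K p).snd = algebraMap K[X] (RatFunc K) (derivative p) := by
  simp only [dualHom, RingHom.coe_mk, MonoidHom.coe_mk, OneHom.coe_mk, TrivSqZeroExt.snd_add,
    TrivSqZeroExt.snd_inl, TrivSqZeroExt.snd_inr, zero_add]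

lemma dualHom_isUnit (y : nonZeroDivisors K[X]) : IsUnit (dualHom K y) := by
  rw [TrivSqZeroExt.isUnit_iff_isUnit_fst, dualHom_fst, isUnit_iff_ne_zero]
  exact RatFunc.algebraMap_ne_zero (nonZeroDivisors.ne_zero y.2)

/-- extension to rational functions -/
noncomputable def dualLift : RatFunc K →+* TrivSqZeroExt (RatFunc K) (RatFunc K) :=
  IsLocalization.lift (M := nonZeroDivisors K[X]) (dualHom_isUnit K)

lemma dualLift_algebraMap (p : K[X]) :
    dualLift K (algebraMap K[X] (RatFunc K) p) = dualHom K p :=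
  IsLocalization.lift_eq _ _

lemma dualLift_fst (f : RatFunc K) : (dualLift K f).fst = f := by
  have h : (TrivSqZeroExt.fstHom (RatFunc K) (RatFunc K) (RatFunc K)).toRingHom.comp
      (dualLift K) = RingHom.id _ := by
    apply IsLocalization.ringHom_ext (M := nonZeroDivisors K[X])
    refine RingHom.ext fun p => ?_
    show (dualLift K (algebraMap K[X] (RatFunc K) p)).fst = algebraMap K[X] (RatFunc K) p
    rw [dualLift_algebraMap, dualHom_fst]
  exact RingHom.congr_fun h f

/-- the derivation `d/dX` on rational functions -/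
noncomputable def der (f : RatFunc K) : RatFunc K := (dualLift K f).snd

variable {K}

lemma der_algebraMap (p : K[X]) :
    der K (algebraMap K[X] (RatFunc K) p) = algebraMap K[X] (RatFunc K) (derivative p) := by
  rw [der, dualLift_algebraMap, dualHom_snd]

@[simp] lemma der_zero : der K 0 = 0 := by simp [der]

@[simp] lemma der_one : der K 1 = 0 := by simp [der]

@[simp] lemma der_C (a : K) : der K (RatFunc.C a) = 0 := by
  rw [← RatFunc.algebraMap_C, der_algebraMap]; simp

@[simp] lemma der_X : der K RatFunc.X = 1 := by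
  rw [← RatFunc.algebraMap_X, der_algebraMap]; simp

lemma der_add (f g : RatFunc K) : der K (f + g) = der K f + der K g := by
  simp [der]

lemma der_neg (f : RatFunc K) : der K (-f) = - der K f := by
  simp [der]

lemma der_sub (f g : RatFunc K) : der K (f - g) = der K f - der K g := by
  simp [der]

lemma der_mul (f g : RatFunc K) : der K (f * g) = f * der K g + g * der K f := by
  simp only [der, map_mul, TrivSqZeroExt.snd_mul, dualLift_fst, smul_eq_mul,
    op_smul_eq_mul]
  ring

lemma der_pow (f : RatFunc K) (n : ℕ) : der K (f ^ (n + 1)) = (n + 1) * f ^ n * der K f := by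
  induction n with
  | zero => simp
  | succ n ih =>
    rw [pow_succ, der_mul, ih]
    push_cast
    ring

lemma der_pow_char (f : RatFunc K) {n : ℕ} (hn : (n : K) = 0) : der K (f ^ n) = 0 := by
  cases n with
  | zero => simp
  | succ n =>
    rw [der_pow]
    have : ((n : RatFunc K) + 1) = 0 := by
      have h1 : ((n + 1 : ℕ) : RatFunc K) = RatFunc.C ((n + 1 : ℕ) : K) := by simp
      rw [hn] at h1
      simpa using h1
    rw [this]
    ring

lemma der_inv {f : RatFunc K} (hf : f ≠ 0) : der K f⁻¹ = - der K f / f ^ 2 := by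
  have h := der_mul f f⁻¹
  rw [mul_inv_cancel₀ hf, der_one] at h
  have h2 : f * der K f⁻¹ = - (f⁻¹ * der K f) := by linear_combination -h
  rw [eq_div_iff (pow_ne_zero 2 hf)]
  calc der K f⁻¹ * f ^ 2 = f * (f * der K f⁻¹) := by ring
    _ = f * (- (f⁻¹ * der K f)) := by rw [h2]
    _ = - (f * f⁻¹) * der K f := by ring
    _ = - der K f := by rw [mul_inv_cancel₀ hf]; ring

lemma der_div {f g : RatFunc K} (hg : g ≠ 0) :
    der K (f / g) = (der K f * g - f * der K g) / g ^ 2 := by
  rw [div_eq_mul_inv, der_mul, der_inv hg]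
  field_simp
  ring

/-- logarithmic derivative -/
noncomputable def ld (f : RatFunc K) : RatFunc K := der K f / f

lemma ld_mul {f g : RatFunc K} (hf : f ≠ 0) (hg : g ≠ 0) : ld (f * g) = ld f + ld g := by
  unfold ld
  rw [der_mul]
  field_simp
  ring

lemma ld_inv {f : RatFunc K} (hf : f ≠ 0) : ld f⁻¹ = - ld f := by
  unfold ld
  rw [der_inv hf]
  field_simp

lemma ld_div {f g : RatFunc K} (hf : f ≠ 0) (hg : g ≠ 0) : ld (f / g) = ld f - ld g := by
  rw [div_eq_mul_inv, ld_mul hf (inv_ne_zero hg), ld_inv hg]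
  ring

lemma der_eq_mul_ld {f : RatFunc K} (hf : f ≠ 0) : der K f = f * ld f := by
  unfold ld; field_simp

lemma ld_pow {f : RatFunc K} (hf : f ≠ 0) (n : ℕ) : ld (f ^ n) = n * ld f := by
  induction n with
  | zero => simp [ld]
  | succ n ih =>
    rw [pow_succ, ld_mul (pow_ne_zero n hf) hf, ih]
    push_cast; ring

end

end Pool.Agent.DrY
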