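import Mathlib

set_option autoImplicit false

namespace Pool.Agent.DrY

open Polynomial

/-- Galois descent of linear relations between equivariant functions. -/
lemma galois_relation {F E ι S : Type*} [Field F] [Field E] [Algebra F E] [IsGalois F E]
    [Fintype ι] (act : (E ≃ₐ[F] E) → S → S) (hact : ∀ σ, Function.Surjective (act σ))
    (v : ι → S → E) (hv : ∀ σ i s, σ (v i s) = v i (act σ s))
    (hex : ∃ a : ι → E, a ≠ 0 ∧ ∀ s, ∑ i, a i * v i s = 0) :
    ∃ b : ι → F, b ≠ 0 ∧ ∀ s, ∑ i, algebraMap F E (b i) * v i s = 0 := by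
  classical
  -- choose a solution with minimal support
  let N : (ι → E) → ℕ := fun a => (Finset.univ.filter fun i => a i ≠ 0).card
  obtain ⟨a, ⟨ha0, hrel⟩, hmin⟩ :=
    (measure N).wf.has_min {a : ι → E | a ≠ 0 ∧ ∀ s, ∑ i, a i * v i s = 0} hex
  obtain ⟨i0, hi0⟩ := Function.ne_iff.mp ha0
  have hi0' : a i0 ≠ 0 := hi0
  let a' : ι → E := fun i => (a i0)⁻¹ * a i
  have ha'rel : ∀ s, ∑ i, a' i * v i s = 0 := by
    intro s
    have : ∑ i, a' i * v i s = (a i0)⁻¹ * ∑ i, a i * v i s := by
      rw [Finset.mul_sum]
      exact Finset.sum_congr rfl fun i _ => by simp only [a']; ring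
    rw [this, hrel, mul_zero]
  have ha'1 : a' i0 = 1 := inv_mul_cancel₀ hi0'
  have hfix : ∀ (σ : E ≃ₐ[F] E) (i : ι), σ (a' i) = a' i := by
    intro σ
    by_contra hcon
    push Not at hcon
    obtain ⟨i1, hi1⟩ := hcon
    let c : ι → E := fun i => σ (a' i) - a' i
    have hc0 : c ≠ 0 := by
      intro h
      have := congrFun h i1
      exact hi1 (sub_eq_zero.mp this)
    have hcrel : ∀ s, ∑ i, c i * v i s = 0 := by
      intro s
      obtain ⟨s', rfl⟩ := hact σ s
      have h1 : ∑ i, σ (a' i) * v i (act σ s') = 0 := by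
        have := congrArg σ (ha'rel s')
        rw [map_sum, map_zero] at this
        rw [← this]
        exact Finset.sum_congr rfl fun i _ => by rw [← hv, ← map_mul]
      have : ∑ i, c i * v i (act σ s') =
          ∑ i, σ (a' i) * v i (act σ s') - ∑ i, a' i * v i (act σ s') := by
        rw [← Finset.sum_sub_distrib]
        exact Finset.sum_congr rfl fun i _ => by simp only [c]; ring
      rw [this, h1, ha'rel, sub_zero]
    apply hmin c ⟨hc0, hcrel⟩
    show N c < N a
    apply Finset.card_lt_card
    constructor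
    · intro i hi
      rw [Finset.mem_filter] at hi ⊢
      refine ⟨hi.1, ?_⟩
      intro h0
      apply hi.2
      simp only [c, a', h0, mul_zero, map_zero, sub_zero]
    · intro hsub
      have h1 : i0 ∈ Finset.univ.filter fun i => a i ≠ 0 := by
        rw [Finset.mem_filter]; exact ⟨Finset.mem_univ _, hi0'⟩
      have h2 := hsub h1
      rw [Finset.mem_filter] at h2
      apply h2.2
      simp only [c, ha'1, map_one, sub_self]
  have hmem : ∀ i, ∃ b : F, algebraMap F E b = a' i := by
    intro i
    exact (InfiniteGalois.mem_range_algebraMap_iff_fixed (a' i)).mpr fun σ => hfix σ i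
  choose b hb using hmem
  refine ⟨b, ?_, ?_⟩
  · intro h
    have h1 := hb i0
    rw [ha'1, h] at h1
    simp at h1
  · intro s
    rw [← ha'rel s]
    exact Finset.sum_congr rfl fun i _ => by rw [hb]

section

variable {k F E : Type*} [Field k] [Fintype k] [Field F] [Field E] [Algebra k F] [Algebra F E]
  [Algebra k E] [IsScalarTower k F E]

/-- evaluation of polynomials at the shift operator given by `φ` -/
noncomputable def act {V : Type*} (φ : V → V) (ι : V → E) (B : F[X]) : V → E :=
  aeval (LinearMap.funLeft F E φ) B ι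

lemma act_add {V : Type*} (φ : V → V) (ι : V → E) (A B : F[X]) :
    act φ ι (A + B) = act φ ι A + act φ ι B := by
  simp only [act, map_add, LinearMap.add_apply]

lemma act_mul {V : Type*} (φ : V → V) (ι : V → E) (A B : F[X]) :
    act φ ι (A * B) = act φ (act φ ι B) A := by
  simp only [act, map_mul, Module.End.mul_apply]

lemma act_zero {V : Type*} (φ : V → V) (B : F[X]) :
    act (E := E) φ (0 : V → E) B = 0 := by
  simp only [act, map_zero]

lemma funLeft_pow {V : Type*} (φ : V → V) (ι : V → E) (j : ℕ) (s : V) :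
    ((LinearMap.funLeft F E φ) ^ j) ι s = ι (φ^[j] s) := by
  induction j generalizing s with
  | zero => simp
  | succ j ih =>
    rw [pow_succ', Module.End.mul_apply, LinearMap.funLeft_apply, ih, Function.iterate_succ_apply]

lemma act_apply {V : Type*} (φ : V → V) (ι : V → E) (B : F[X]) (s : V) :
    act φ ι B s = ∑ j ∈ Finset.range (B.natDegree + 1), algebraMap F E (B.coeff j) * ι (φ^[j] s) := by
  rw [act, aeval_eq_sum_range, LinearMap.sum_apply, Finset.sum_apply]
  refine Finset.sum_congr rfl fun j _ => ?_
  rw [LinearMap.smul_apply, Pi.smul_apply, funLeft_pow, Algebra.smul_def]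

lemma act_apply' {V : Type*} (φ : V → V) (ι : V → E) (B : F[X]) (n : ℕ) (hn : B.natDegree < n)
    (s : V) :
    act φ ι B s = ∑ j ∈ Finset.range n, algebraMap F E (B.coeff j) * ι (φ^[j] s) := by
  rw [act, aeval_eq_sum_range' hn, LinearMap.sum_apply, Finset.sum_apply]
  refine Finset.sum_congr rfl fun j _ => ?_
  rw [LinearMap.smul_apply, Pi.smul_apply, funLeft_pow, Algebra.smul_def]

end

end Pool.Agent.DrY
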