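import Pool.Agent.Lib.MP_531408_nt.Descent

set_option autoImplicit false

namespace Pool.Agent.DrY

open Polynomial

section

variable {k F E : Type*} [Field k] [Fintype k] [Field F] [Field E] [Algebra k F] [Algebra F E]
  [Algebra k E] [IsScalarTower k F E]

lemma act_C {V : Type*} (φ : V → V) (ι : V → E) (c : F) (s : V) :
    act φ ι (C c) s = algebraMap F E c * ι s := by
  rw [act_apply' φ ι (C c) 1 (by rw [natDegree_C]; norm_num)]
  simp

lemma act_X {V : Type*} (φ : V → V) (ι : V → E) (s : V) :
    act (F := F) φ ι X s = ι (φ s) := by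
  rw [act_apply' φ ι X 2 (by rw [natDegree_X]; norm_num)]
  simp [Finset.sum_range_succ]

lemma act_sub {V : Type*} (φ : V → V) (ι : V → E) (A B : F[X]) :
    act φ ι (A - B) = act φ ι A - act φ ι B := by
  simp only [act, map_sub, LinearMap.sub_apply]

lemma act_one {V : Type*} (φ : V → V) (ι : V → E) :
    act (F := F) φ ι 1 = ι := by
  simp only [act, map_one, Module.End.one_apply]

/-- the annihilator of the inclusion is generated by `P` -/
lemma dvd_of_act_eq_zero {V : Type*} (φ : V → V) (ι : V → E) (hι : ι ≠ 0) {P : F[X]}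
    (hirr : Irreducible P) (hP : act φ ι P = 0) {B : F[X]} (hB : act φ ι B = 0) : P ∣ B := by
  by_contra hnd
  obtain ⟨u, v, huv⟩ := (hirr.coprime_iff_not_dvd).mpr hnd
  apply hι
  have h1 : act φ ι (u * P + v * B) = 0 := by
    rw [act_add, act_mul, act_mul, hP, hB, act_zero, act_zero, add_zero]
  rw [huv, act_one] at h1
  exact h1

/-- The descent theorem: existence of the polynomial `C` over `F` such that the `q`-power map
on `V` is given by `C(φ)`, and the divisibility which follows. -/
theorem descent [IsGalois F E] (T g Δ : F) (V : Submodule k E) [Finite V] (φV : V →ₗ[k] V)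
    (hφ : ∀ s : V, ((φV s : V) : E) = algebraMap F E T * s +
      algebraMap F E g * (s : E) ^ (Fintype.card k) +
      algebraMap F E Δ * (s : E) ^ ((Fintype.card k) ^ 2))
    (hσ : ∀ σ : E ≃ₐ[F] E, ∀ s : E, s ∈ V → σ s ∈ V)
    (P : k[X]) (hirr : Irreducible (P.map (algebraMap k F))) (hPV : aeval φV P = 0)
    (hd : Module.finrank k V = P.natDegree) :
    ∃ Q : F[X], P.map (algebraMap k F) ∣ X - C T - C g * Q -
      C Δ * (Q.map (FiniteField.frobeniusAlgHom k F : F →+* F)) * Q := by
  classical
  set q := Fintype.card k with hq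
  set d := P.natDegree with hddef
  have hdpos : 0 < d := by
    have h := hirr.natDegree_pos
    rwa [natDegree_map] at h
  set ι : V → E := fun s => (s : E) with hι
  let φ : V → V := ⇑φV
  -- ι is not zero
  have hι0 : ι ≠ 0 := by
    intro h
    have hbot : ∀ s : V, s = 0 := fun s => Subtype.ext (congrFun h s)
    have : Subsingleton V := ⟨fun a b => by rw [hbot a, hbot b]⟩
    have h0 : Module.finrank k V = 0 := Module.finrank_zero_of_subsingleton
    omega
  -- P acts as zero
  have hPact : act φ ι (P.map (algebraMap k F)) = 0 := by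
    funext s
    rw [act_apply' φ ι _ (d + 1) (by rw [natDegree_map]; omega)]
    have h1 := congrArg (fun f : V →ₗ[k] V => ((f s : V) : E)) hPV
    simp only [LinearMap.zero_apply, ZeroMemClass.coe_zero] at h1
    rw [aeval_eq_sum_range, LinearMap.sum_apply] at h1
    rw [Pi.zero_apply, ← h1, AddSubmonoidClass.coe_finsetSum]
    refine Finset.sum_congr rfl fun j _ => ?_
    rw [coeff_map, ← IsScalarTower.algebraMap_apply, LinearMap.smul_apply, Submodule.coe_smul,
      Algebra.smul_def, Module.End.pow_apply]
  have key := fun B (hB : act φ ι B = 0) => dvd_of_act_eq_zero φ ι hι0 hirr hPact (B := B) hB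
  -- the family of linear maps
  let f : Option (Fin d) → (V →ₗ[k] E) := fun o => match o with
    | some j => V.subtype ∘ₗ (φV ^ (j : ℕ))
    | none => (FiniteField.frobeniusAlgHom k E).toLinearMap ∘ₗ V.subtype
  have fsome : ∀ (j : Fin d) (s : V), f (some j) s = ι (φ^[j] s) := by
    intro j s
    show ((φV ^ (j : ℕ)) s : E) = _
    rw [Module.End.pow_apply]
  have fnone : ∀ s : V, f none s = (s : E) ^ q := fun s => rfl
  -- E-linear dependence
  have hdep : ∃ a : Option (Fin d) → E, a ≠ 0 ∧ ∀ s, ∑ i, a i * f i s = 0 := by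
    let b := Module.finBasis k V
    let w : Option (Fin d) → (Fin (Module.finrank k V) → E) := fun i j => f i (b j)
    have hnot : ¬ LinearIndependent E w := by
      intro h
      have h1 := h.fintype_card_le_finrank
      rw [Module.finrank_fin_fun, Fintype.card_option, Fintype.card_fin, hd] at h1
      omega
    obtain ⟨a, ha, i, hi⟩ := Fintype.not_linearIndependent_iff.mp hnot
    refine ⟨a, fun h => hi (congrFun h i), ?_⟩
    let Λ : V →ₗ[k] E := ∑ i, (LinearMap.mulLeft k (a i)) ∘ₗ f i
    have hΛ : Λ = 0 := by
      apply b.ext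
      intro j
      have := congrFun ha j
      rw [Finset.sum_apply] at this
      simp only [Λ, LinearMap.sum_apply, LinearMap.comp_apply, LinearMap.mulLeft_apply,
        LinearMap.zero_apply]
      exact this
    intro s
    have := congrArg (fun g : V →ₗ[k] E => g s) hΛ
    simpa only [Λ, LinearMap.sum_apply, LinearMap.comp_apply, LinearMap.mulLeft_apply,
        LinearMap.zero_apply] using this
  -- equivariance
  let actG : (E ≃ₐ[F] E) → V → V := fun σ s => ⟨σ s, hσ σ s s.2⟩
  have hactG : ∀ σ, Function.Surjective (actG σ) := by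
    intro σ s
    refine ⟨actG σ⁻¹ s, Subtype.ext ?_⟩
    show σ (σ⁻¹ (s : E)) = s
    exact σ.apply_symm_apply s
  have hcomm : ∀ σ (s : V), φ (actG σ s) = actG σ (φ s) := by
    intro σ s
    apply Subtype.ext
    show ((φV (actG σ s) : V) : E) = σ ((φV s : V) : E)
    rw [hφ, hφ, map_add, map_add, map_mul, map_mul, map_mul, map_pow, map_pow, σ.commutes,
      σ.commutes, σ.commutes]
  have hcommj : ∀ σ (j : ℕ) (s : V), φ^[j] (actG σ s) = actG σ (φ^[j] s) := by
    intro σ j
    induction j with
    | zero => intro s; rfl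
    | succ j ih => intro s; rw [Function.iterate_succ_apply, hcomm, ih,
        Function.iterate_succ_apply]
  obtain ⟨b, hb0, hb⟩ := galois_relation actG hactG (fun i s => f i s) (by
    intro σ i s
    cases i with
    | none => rw [fnone, fnone]; show σ ((s : E) ^ q) = (σ s) ^ q; rw [map_pow]
    | some j => rw [fsome, fsome, hcommj]) hdep
  -- polynomial from coefficients
  have hpoly : ∀ (c : Fin d → F), ∃ Q : F[X], Q.natDegree < d ∧ (∀ j : Fin d, Q.coeff j = c j) ∧
      ∀ s, act φ ι Q s = ∑ j : Fin d, algebraMap F E (c j) * ι (φ^[j] s) := by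
    intro c
    let Q : F[X] := ∑ j : Fin d, C (c j) * X ^ (j : ℕ)
    have hdeg : Q.natDegree < d := by
      have h1 : Q.natDegree ≤ d - 1 := by
        apply natDegree_sum_le_of_forall_le
        intro j _
        exact (natDegree_C_mul_X_pow_le _ _).trans (by have := j.2; omega)
      omega
    have hcoeff : ∀ j : Fin d, Q.coeff j = c j := by
      intro j
      simp only [Q, finsetSum_coeff, coeff_C_mul, coeff_X_pow]
      rw [Finset.sum_eq_single j]
      · simp
      · intro i _ hij
        rw [if_neg (fun h => hij (Fin.ext h.symm)), mul_zero]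
      · intro h; exact absurd (Finset.mem_univ _) h
    refine ⟨Q, hdeg, hcoeff, fun s => ?_⟩
    rw [act_apply' φ ι Q d hdeg, Finset.sum_range]
    exact Finset.sum_congr rfl fun j _ => by rw [hcoeff]
  have hbnone : b none ≠ 0 := by
    intro h0
    obtain ⟨Q, hQd, hQc, hQact⟩ := hpoly (fun j => b (some j))
    have h1 : act φ ι Q = 0 := by
      funext s
      have h2 := hb s
      rw [Fintype.sum_option, h0, map_zero, zero_mul, zero_add] at h2
      rw [hQact, Pi.zero_apply, ← h2]
      exact Finset.sum_congr rfl fun j _ => by rw [fsome]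
    have h2 := key Q h1
    have h3 : Q = 0 := by
      apply eq_zero_of_dvd_of_natDegree_lt h2
      rw [natDegree_map]; exact hQd
    apply hb0
    funext i
    cases i with
    | none => exact h0
    | some j => rw [← hQc j, h3, coeff_zero]; rfl
  obtain ⟨Q, hQd, hQc, hQact⟩ := hpoly (fun j => - b (some j) / b none)
  have hQq : ∀ s : V, act φ ι Q s = (s : E) ^ q := by
    intro s
    have h2 := hb s
    rw [Fintype.sum_option, fnone] at h2
    have hne : algebraMap F E (b none) ≠ 0 := (_root_.map_ne_zero _).mpr hbnone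
    apply mul_left_cancel₀ hne
    rw [hQact, Finset.mul_sum]
    have h3 : ∑ j : Fin d, algebraMap F E (b none) *
        (algebraMap F E (- b (some j) / b none) * ι (φ^[j] s)) =
        - ∑ j : Fin d, algebraMap F E (b (some j)) * f (some j) s := by
      rw [← Finset.sum_neg_distrib]
      refine Finset.sum_congr rfl fun j _ => ?_
      rw [fsome, map_div₀, map_neg]
      field_simp
    rw [h3]
    linear_combination -h2
  refine ⟨Q, key _ ?_⟩
  funext s
  rw [act_sub, act_sub, act_sub, Pi.sub_apply, Pi.sub_apply, Pi.sub_apply, act_X, act_C,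
    act_mul, act_C, act_mul, act_mul, act_C, hQq, Pi.zero_apply]
  have hlast : act φ (act φ ι Q) (Q.map (FiniteField.frobeniusAlgHom k F : F →+* F)) s =
      (s : E) ^ (q ^ 2) := by
    rw [act_apply' φ _ _ d (by rw [natDegree_map]; exact hQd)]
    have h1 : ∀ j ∈ Finset.range d, algebraMap F E
        ((Q.map (FiniteField.frobeniusAlgHom k F : F →+* F)).coeff j) * act φ ι Q (φ^[j] s) =
        FiniteField.frobeniusAlgHom k E (algebraMap F E (Q.coeff j) * ι (φ^[j] s)) := by
      intro j _
      rw [hQq, coeff_map, map_mul]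
      congr 1
      show algebraMap F E (Q.coeff j ^ q) = (algebraMap F E (Q.coeff j)) ^ q
      rw [map_pow]
    rw [Finset.sum_congr rfl h1, ← map_sum, ← act_apply' φ ι Q d hQd, hQq]
    show ((s : E) ^ q) ^ q = _
    rw [← pow_mul, pow_two]
  rw [hlast]
  show ((φV s : V) : E) - _ - _ - _ = 0
  rw [hφ]
  ring

end

end Pool.Agent.DrY
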