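import Pool.Agent.Lib.MP_531408_nt.Lead

set_option autoImplicit false

namespace Pool.Agent.DrY

open Polynomial Finset

/-- at most one of numerator and denominator vanishes at `a`. -/
lemma denom_ord {K : Type*} [Field K] {f : RatFunc K} (a : K) :
    (f.denom.rootMultiplicity a : ℤ) = max (-(ordAt a).ord f) 0 := by
  have h4 : (ordAt a).ord f = (f.num.rootMultiplicity a : ℤ) - f.denom.rootMultiplicity a := rfl
  rcases Nat.eq_zero_or_pos (f.denom.rootMultiplicity a) with h | h
  · rw [h4, h]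
    omega
  · have h3 : f.num.rootMultiplicity a = 0 := by
      rw [Polynomial.rootMultiplicity_eq_zero_iff]
      intro hr
      exfalso
      have ha : f.denom.IsRoot a := (Polynomial.rootMultiplicity_pos f.denom_ne_zero).mp h
      obtain ⟨u, v, huv⟩ := f.isCoprime_num_denom
      have := congrArg (Polynomial.eval a) huv
      rw [Polynomial.eval_add, Polynomial.eval_mul, Polynomial.eval_mul,
        Polynomial.IsRoot.def.mp hr, Polynomial.IsRoot.def.mp ha] at this
      simp at this
    rw [h4, h3]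
    omega

namespace Sys

variable {K : Type*} [Field K] [Fact (Nat.Prime 2)] [CharP K 2] {d : ℕ} (S : Sys K 2 1 d)

section

lemma ht2 (i : ℕ) : S.t i ^ 2 = S.t (i + 1) := by
  have := S.ht i
  rw [show (2 : ℕ) ^ 1 = 2 from rfl] at this
  exact this.symm

lemma phi_apply (x : K) : iterateFrobenius K 2 1 x = x ^ 2 := by
  rw [iterateFrobenius_def]; norm_num

lemma kappa_ord_succ (i : ℕ) : (ordAt (S.t (i + 1))).ord S.κ = (ordAt (S.t i)).ord S.κ := by
  have h := mapRF_ordAt (iterateFrobenius K 2 1) (S.t i) S.κ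
  rw [S.κs, phi_apply, S.ht2] at h
  exact h

lemma kappa_ord (i : ℕ) : (ordAt (S.t i)).ord S.κ = (ordAt (S.t 0)).ord S.κ := by
  induction i with
  | zero => rfl
  | succ i ih => rw [S.kappa_ord_succ, ih]

end

/-- the orders of `v` at the places `t j` in the exceptional case -/
lemma exc_ord (hodd : Odd d) (j : ℕ) (hk : (ordAt (S.t j)).ord S.κ = -1) (r : ℕ) (hr : r < d) :
    (ordAt (S.t j)).ord (S.v (j + r)) = if Even r then 1 else 0 := by
  classical
  have R := (S.shift j).rules (S.t j)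
  have hd := S.hd
  obtain ⟨e, he⟩ := hodd
  have h0 : (S.shift j).t 0 = S.t j := by
    show S.t (0 + j) = _
    rw [zero_add]
  have hδ0 : (if (S.shift j).t 0 = S.t j then (1 : ℤ) else 0) = 1 := if_pos h0
  have hδ : ∀ i, 0 < i → i < d → (if (S.shift j).t i = S.t j then (1 : ℤ) else 0) = 0 := by
    intro i hi hid
    rw [if_neg]
    intro h
    have := (S.shift j).t_ne 0 i hi hid
    rw [zero_add, h0, h] at this
    exact this rfl
  have hcl := R.classP (K := 1) hk one_pos hδ0 hδ
  have hval : ∀ i, (ordAt (S.t j)).ord ((S.shift j).v i) = (ordAt (S.t j)).ord (S.v (j + i)) := by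
    intro i
    show (ordAt (S.t j)).ord (S.v (i + j)) = _
    rw [add_comm]
  simp only [hval] at hcl
  -- the tail from index 1
  have tail : ∀ x : ℕ → ℤ, Tl x 1 d 1 → x 1 = 0 → ∀ i, 1 ≤ i → i < d →
      x i = if Even i then 1 else 0 := by
    intro x hT h1 i hi
    induction i, hi using Nat.le_induction with
    | base => intro _; rw [h1]; simp
    | succ i hi ih =>
      intro hid
      have h2 := hT.sum hi hid
      have h3 := ih (by omega)
      rcases Nat.even_or_odd i with h4 | h4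
      · rw [if_pos h4] at h3
        have h5 : ¬ Even (i + 1) := by rw [Nat.not_even_iff_odd]; exact h4.add_one
        rw [if_neg h5]
        omega
      · rw [if_neg (Nat.not_even_iff_odd.mpr h4)] at h3
        have h5 : Even (i + 1) := h4.add_one
        rw [if_pos h5]
        omega
  have hdm : Even (d - 1) := ⟨e, by omega⟩
  rcases hcl with ⟨a1, a2, a3, a4⟩ | ⟨a1, a2, a3, a4, a5⟩ |
    ⟨m, b0, b1, b2, b3, b4, b5⟩ | ⟨a1, a2, a3, a4, a5, a6, a7⟩ |
    ⟨m, b0, b1, b2, b3, b4, b5, b6, b7⟩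
  · exfalso
    have := tail _ a3 a2 (d - 1) (by omega) (by omega)
    rw [if_pos hdm, a4] at this
    omega
  · rcases Nat.eq_zero_or_pos r with h | h
    · subst h
      rw [a1]; simp
    · exact tail _ a4 a3 r h hr
  · norm_num at b2
  · norm_num at a2
  · norm_num at b2

/-- the product `P i` -/
noncomputable def PP (S : Sys K 2 1 d) (i : ℕ) : RatFunc K :=
  (RatFunc.X - RatFunc.C (S.t i)) *
    ∏ l ∈ range (d / 2), (RatFunc.X - RatFunc.C (S.t (i + 2 * l + 1)))

lemma PP_ne (i : ℕ) : S.PP i ≠ 0 :=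
  mul_ne_zero (X_sub_C_ne _) (Finset.prod_ne_zero_iff.mpr fun _ _ => X_sub_C_ne _)

lemma PP_sigma (i : ℕ) : mapRF (iterateFrobenius K 2 1) (S.PP i) = S.PP (i + 1) := by
  have h : ∀ j, mapRF (iterateFrobenius K 2 1) (RatFunc.X - RatFunc.C (S.t j)) =
      RatFunc.X - RatFunc.C (S.t (j + 1)) := by
    intro j
    rw [map_sub, mapRF_X, mapRF_C, phi_apply, S.ht2]
  rw [PP, PP, map_mul, map_prod, h]
  congr 1
  refine Finset.prod_congr rfl fun l _ => ?_
  rw [h]
  congr 3
  ring

/-- order of `P` at `t j` -/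
lemma PP_ord (hodd : Odd d) (j r : ℕ) (hr : r < d) :
    (ordAt (S.t j)).ord (S.PP (j + r)) = if Even r then 1 else 0 := by
  classical
  obtain ⟨e, he⟩ := hodd
  have hde : d / 2 = e := by omega
  have key : ∀ s, (ordAt (S.t j)).ord (RatFunc.X - RatFunc.C (S.t (j + s))) =
      if s % d = 0 then 1 else 0 := by
    intro s
    rw [ordAt_X_sub_C]
    have : S.t (j + s) = S.t j ↔ s % d = 0 := by
      rw [S.t_eq_iff]
      constructor
      · intro h
        have h1 : j + s ≡ j + 0 [MOD d] := h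
        exact Nat.ModEq.add_left_cancel' j h1
      · intro h
        have h1 : s ≡ 0 [MOD d] := h
        exact Nat.ModEq.add_left j h1
    by_cases h : s % d = 0
    · rw [if_pos h, if_pos (this.mpr h)]
    · rw [if_neg h, if_neg (fun h' => h (this.mp h'))]
  rw [PP, (ordAt _).ord_mul (X_sub_C_ne _) (Finset.prod_ne_zero_iff.mpr fun _ _ => X_sub_C_ne _),
    (ordAt _).ord_prod _ _ fun _ _ => X_sub_C_ne _, key]
  have h1 : ∀ l ∈ range (d / 2), (ordAt (S.t j)).ord
      (RatFunc.X - RatFunc.C (S.t (j + r + 2 * l + 1))) =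
      if r + 2 * l + 1 = d then 1 else 0 := by
    intro l hl
    rw [show j + r + 2 * l + 1 = j + (r + 2 * l + 1) by ring, key]
    have hl' : l < e := by rw [hde] at hl; exact Finset.mem_range.mp hl
    by_cases h : r + 2 * l + 1 = d
    · rw [if_pos h, h, if_pos (Nat.mod_self d)]
    · rw [if_neg h, if_neg]
      intro h0
      obtain ⟨c, hc⟩ := Nat.dvd_of_mod_eq_zero h0
      rcases Nat.lt_or_ge c 1 with hc1 | hc1
      · have : c = 0 := by omega
        rw [this, mul_zero] at hc
        omega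
      · rcases Nat.lt_or_ge c 2 with hc2 | hc2
        · have : c = 1 := by omega
          rw [this, mul_one] at hc
          exact h hc
        · have : d * 2 ≤ d * c := Nat.mul_le_mul_left d hc2
          omega
  rw [Finset.sum_congr rfl h1]
  rcases Nat.eq_zero_or_pos r with h | h
  · subst h
    rw [Nat.zero_mod, if_pos rfl, if_pos (by simp)]
    have : ∑ l ∈ range (d / 2), (if 0 + 2 * l + 1 = d then (1 : ℤ) else 0) = 0 := by
      refine Finset.sum_eq_zero fun l hl => if_neg ?_
      have := Finset.mem_range.mp hl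
      omega
    rw [this]; norm_num
  · rw [Nat.mod_eq_of_lt hr, if_neg (by omega), zero_add]
    rcases Nat.even_or_odd r with h4 | h4
    · obtain ⟨f, hf⟩ := h4
      rw [if_pos ⟨f, hf⟩, Finset.sum_eq_single (e - f)]
      · rw [if_pos (by omega)]
      · intro b _ hb
        exact if_neg (by omega)
      · intro h5
        exfalso
        apply h5
        rw [Finset.mem_range]
        omega
    · rw [if_neg (Nat.not_even_iff_odd.mpr h4)]
      obtain ⟨f, hf⟩ := h4
      exact Finset.sum_eq_zero fun l _ => if_neg (by omega)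

lemma vper_mul (i m : ℕ) : S.v (i + m * d) = S.v i := by
  induction m with
  | zero => simp
  | succ m ih => rw [← ih, ← S.vper (i + m * d)]; congr 1; ring

lemma v_mod (j s : ℕ) : S.v (j + s % d) = S.v (j + s) := by
  conv_rhs => rw [← Nat.mod_add_div s d, mul_comm d, ← add_assoc, S.vper_mul]

lemma PP_per (i : ℕ) : S.PP (i + d) = S.PP i := by
  rw [PP, PP, S.tper]
  congr 1
  refine Finset.prod_congr rfl fun l _ => ?_
  rw [show i + d + 2 * l + 1 = i + 2 * l + 1 + d by ring, S.tper]

lemma PPper_mul (i m : ℕ) : S.PP (i + m * d) = S.PP i := by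
  induction m with
  | zero => simp
  | succ m ih => rw [← ih, ← S.PP_per (i + m * d)]; congr 1; ring

lemma PP_mod (j s : ℕ) : S.PP (j + s % d) = S.PP (j + s) := by
  conv_rhs => rw [← Nat.mod_add_div s d, mul_comm d, ← add_assoc, S.PPper_mul]

lemma exc_ord_eq (hodd : Odd d) (j : ℕ) (hk : (ordAt (S.t j)).ord S.κ = -1) (i : ℕ) :
    (ordAt (S.t j)).ord (S.v i) = (ordAt (S.t j)).ord (S.PP i) ∧
      0 ≤ (ordAt (S.t j)).ord (S.v i) := by
  have hd := S.hd
  have hle : j ≤ i + j * d := by nlinarith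
  obtain ⟨s, hs⟩ := Nat.exists_eq_add_of_le hle
  have h1 : S.v i = S.v (j + s % d) := by rw [S.v_mod, ← hs, S.vper_mul]
  have h2 : S.PP i = S.PP (j + s % d) := by rw [S.PP_mod, ← hs, S.PPper_mul]
  have hlt : s % d < d := Nat.mod_lt _ (by omega)
  rw [h1, h2, S.exc_ord hodd j hk _ hlt, S.PP_ord hodd j _ hlt]
  refine ⟨rfl, ?_⟩
  split_ifs <;> norm_num

/-- iterates of the denominator of `v 0` -/
noncomputable def Dn (S : Sys K 2 1 d) : ℕ → RatFunc K
  | 0 => algebraMap K[X] (RatFunc K) (S.v 0).denom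
  | (i + 1) => mapRF (iterateFrobenius K 2 1) (Dn S i)

lemma Dn_ne (i : ℕ) : S.Dn i ≠ 0 := by
  induction i with
  | zero => exact RatFunc.algebraMap_ne_zero (S.v 0).denom_ne_zero
  | succ i ih => exact (_root_.map_ne_zero _).mpr ih

lemma Dn_ord [IsAlgClosed K] (i : ℕ) (a : K) :
    (ordAt a).ord (S.Dn i) = max (-(ordAt a).ord (S.v i)) 0 := by
  induction i generalizing a with
  | zero =>
    show (ordAt a).ord (algebraMap K[X] (RatFunc K) (S.v 0).denom) = _
    rw [ordAt_algebraMap, denom_ord]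
  | succ i ih =>
    obtain ⟨b, hb⟩ := IsAlgClosed.exists_pow_nat_eq a (n := 2) (by norm_num)
    have hb' : iterateFrobenius K 2 1 b = a := by rw [phi_apply, hb]
    show (ordAt a).ord (mapRF (iterateFrobenius K 2 1) (S.Dn i)) = _
    rw [← S.vs, ← hb', mapRF_ordAt, mapRF_ordAt, ih]

/-- the auxiliary function -/
noncomputable def Xi (S : Sys K 2 1 d) (i : ℕ) : RatFunc K :=
  S.v (i + 1) * S.Dn (i + 1) / (S.Dn i ^ 2 * S.PP (i + 1))

lemma Xi_ne (i : ℕ) : S.Xi i ≠ 0 :=
  div_ne_zero (mul_ne_zero (S.v_ne _) (S.Dn_ne _))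
    (mul_ne_zero (pow_ne_zero _ (S.Dn_ne _)) (S.PP_ne _))

lemma Xi_sigma (i : ℕ) : mapRF (iterateFrobenius K 2 1) (S.Xi i) = S.Xi (i + 1) := by
  rw [Xi, Xi, map_div₀, map_mul, map_mul, map_pow, S.vs, PP_sigma]
  rfl

lemma Xi_ord [IsAlgClosed K] (i : ℕ) (a : K) : (ordAt a).ord (S.Xi i) =
    (ordAt a).ord (S.v (i + 1)) + max (-(ordAt a).ord (S.v (i + 1))) 0 -
      2 * max (-(ordAt a).ord (S.v i)) 0 - (ordAt a).ord (S.PP (i + 1)) := by
  rw [Xi, (ordAt a).ord_div (mul_ne_zero (S.v_ne _) (S.Dn_ne _))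
    (mul_ne_zero (pow_ne_zero _ (S.Dn_ne _)) (S.PP_ne _)),
    (ordAt a).ord_mul (S.v_ne _) (S.Dn_ne _), (ordAt a).ord_mul (pow_ne_zero _ (S.Dn_ne _))
    (S.PP_ne _), (ordAt a).ord_pow (S.Dn_ne _), S.Dn_ord, S.Dn_ord]
  push_cast
  ring

lemma Xi_ord_succ [IsAlgClosed K] (hodd : Odd d) (hk : ∀ j, (ordAt (S.t j)).ord S.κ = -1)
    (i : ℕ) (a : K) : (ordAt a).ord (S.Xi (i + 1)) = (ordAt a).ord (S.Xi i) := by
  classical
  have hd := S.hd
  rw [Xi_ord, Xi_ord]
  by_cases ha : ∃ j, S.t j = a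
  · obtain ⟨j, rfl⟩ := ha
    have h := S.exc_ord_eq hodd j (hk j)
    have h0 := h i
    have h1 := h (i + 1)
    have h2 := h (i + 1 + 1)
    omega
  · have R := S.rules a
    have hδ : ∀ i, (if S.t i = a then (1 : ℤ) else 0) = 0 := fun i =>
      if_neg fun h => ha ⟨i, h⟩
    have hP : ∀ i, (ordAt a).ord (S.PP i) = 0 := by
      intro i
      rw [PP, (ordAt _).ord_mul (X_sub_C_ne _)
        (Finset.prod_ne_zero_iff.mpr fun _ _ => X_sub_C_ne _),
        (ordAt _).ord_prod _ _ fun _ _ => X_sub_C_ne _]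
      have h1 : ∀ s, (ordAt a).ord (RatFunc.X - RatFunc.C (S.t s)) = 0 := fun s => by
        rw [ordAt_X_sub_C, if_neg fun h => ha ⟨s, h⟩]
      rw [h1, Finset.sum_eq_zero fun l _ => h1 _]
      rfl
    rw [hP, hP]
    rcases lt_trichotomy ((ordAt a).ord S.κ) 0 with hk0 | hk0 | hk0
    · rcases R.neg_off_class (K := -(ordAt a).ord S.κ) (by ring) (by linarith) hδ with h | h
      · have e0 := h i
        have e1 := h (i + 1)
        have e2 := h (i + 1 + 1)
        push_cast at e0 e1 e2
        omega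
      · exfalso
        obtain ⟨e, he⟩ := hodd
        -- alternating sequence with odd period
        have h2 : ∀ i, (ordAt a).ord (S.v (i + 2)) = (ordAt a).ord (S.v i) := by
          intro i
          have e1 := h i
          have e2 := h (i + 1)
          rw [show i + 1 + 1 = i + 2 by ring] at e2
          omega
        have h3 : ∀ m, (ordAt a).ord (S.v (1 + 2 * m)) = (ordAt a).ord (S.v 1) := by
          intro m
          induction m with
          | zero => rfl
          | succ m ih =>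
            rw [← ih, ← h2 (1 + 2 * m)]
            congr 2
        have h4 := h3 e
        have h5 : 1 + 2 * e = 0 + d := by omega
        rw [h5, S.vper] at h4
        have h6 := h 0
        rw [zero_add] at h6
        omega
    · have z0 := R.zero_class hk0 i
      have z1 := R.zero_class hk0 (i + 1)
      simp only [hδ] at z0 z1
      push_cast at z0 z1
      omega
    · rcases R.pos_class hk0 with h | h
      · have e0 := h i
        have e1 := h (i + 1)
        have e2 := h (i + 1 + 1)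
        rw [hδ] at e0 e1 e2
        omega
      · have e0 := h i
        have e1 := h (i + 1)
        have e2 := h (i + 1 + 1)
        push_cast at e0 e1 e2
        omega

/-- the exceptional case `q = 2`, `d` odd, `ord κ = -1` at the `t i`. -/
theorem exc_false [IsAlgClosed K] (hodd : Odd d) (hk : ∀ j, (ordAt (S.t j)).ord S.κ = -1) :
    False := by
  have hd := S.hd
  have hd2 : d / 2 * 2 + 1 = d := by obtain ⟨e, he⟩ := hodd; omega
  -- ratio is constant
  have hG0 : S.Xi 1 / S.Xi 0 ≠ 0 := div_ne_zero (S.Xi_ne _) (S.Xi_ne _)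
  obtain ⟨u, hu0, hu⟩ := const_of_ord_zero hG0 (fun a => by
    rw [(ordAt a).ord_div (S.Xi_ne _) (S.Xi_ne _), S.Xi_ord_succ hodd hk 0 a, sub_self])
  have hXi : S.Xi 1 = RatFunc.C u * S.Xi 0 := by rw [← hu, div_mul_cancel₀ _ (S.Xi_ne 0)]
  have hσ := S.Xi_sigma 0
  rw [zero_add, hXi] at hσ
  have htc := congrArg (tcH K) hσ
  have hlc := congrArg (lcH K) hσ
  rw [tcH_sigma, map_mul, tcH_C, phi_apply] at htc
  rw [lcH_sigma, map_mul, lcH_C, phi_apply] at hlc
  have htu : tcH K (S.Xi 0) = u := by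
    have h := tcH_ne (S.Xi_ne 0)
    apply mul_right_cancel₀ h
    linear_combination htc
  have hlu : lcH K (S.Xi 0) = u := by
    have h := lcH_ne (S.Xi_ne 0)
    apply mul_right_cancel₀ h
    linear_combination hlc
  -- compute
  have hD1t : tcH K (S.Dn 1) = tcH K (S.Dn 0) ^ 2 := by
    show tcH K (mapRF (iterateFrobenius K 2 1) (S.Dn 0)) = _
    rw [tcH_sigma, phi_apply]
  have hD1l : lcH K (S.Dn 1) = lcH K (S.Dn 0) ^ 2 := by
    show lcH K (mapRF (iterateFrobenius K 2 1) (S.Dn 0)) = _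
    rw [lcH_sigma, phi_apply]
  have ht0 : ∀ i, S.t i ≠ 0 := by
    intro i h
    have h1 := S.ht2 i
    rw [h] at h1
    have h2 := S.t_ne i 1 (by omega) (by omega)
    apply h2
    rw [h, ← h1]; ring
  have hneg : ∀ x : K, -x = x := fun x => CharTwo.neg_eq x
  have hPl : lcH K (S.PP 1) = 1 := by
    rw [PP, map_mul, map_prod, lcH_X_sub_C, one_mul]
    exact Finset.prod_eq_one fun l _ => lcH_X_sub_C _
  have hPt : tcH K (S.PP 1) = S.t 1 * ∏ l ∈ range (d / 2), S.t (2 * l + 2) := by
    rw [PP, map_mul, map_prod, tcH_X_sub_C (ht0 _), hneg]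
    congr 1
    refine Finset.prod_congr rfl fun l _ => ?_
    rw [tcH_X_sub_C (ht0 _), hneg]
    congr 1
    ring
  have hr1 : tcH K (S.v 1) = u * tcH K (S.PP 1) := by
    have h1 := htu
    rw [Xi, zero_add, map_div₀, map_mul, map_mul, map_pow, hD1t] at h1
    have h2 := tcH_ne (S.Dn_ne 0)
    have h3 := tcH_ne (S.PP_ne 1)
    rw [← h1]
    field_simp
  have hc1 : lcH K (S.v 1) = u := by
    have h1 := hlu
    rw [Xi, zero_add, map_div₀, map_mul, map_mul, map_pow, hD1l, hPl] at h1
    have h2 := lcH_ne (S.Dn_ne 0)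
    rw [← h1]
    field_simp
  -- leading coefficients
  have hv : ∀ i, lcH K (S.v (i + 1)) = lcH K (S.v i) ^ 2 := by
    intro i
    rw [← S.vs, lcH_sigma, phi_apply]
  have hvt : ∀ i, tcH K (S.v (i + 1)) = tcH K (S.v i) ^ 2 := by
    intro i
    rw [← S.vs, tcH_sigma, phi_apply]
  have hκl : lcH K S.κ = 1 := by
    have h := congrArg (lcH K) S.κs
    rw [lcH_sigma, phi_apply] at h
    apply mul_right_cancel₀ (lcH_ne S.κ0)
    linear_combination h
  have hκt : tcH K S.κ = 1 := by
    have h := congrArg (tcH K) S.κs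
    rw [tcH_sigma, phi_apply] at h
    apply mul_right_cancel₀ (tcH_ne S.κ0)
    linear_combination h
  have heq0 := S.heq 0
  rw [zero_add, show (2 : ℕ) ^ 1 = 2 from rfl] at heq0
  have hgne : S.κ * S.v 0 ^ 2 ≠ 0 := mul_ne_zero S.κ0 (pow_ne_zero _ (S.v_ne 0))
  have hgl : lcH K (S.κ * S.v 0 ^ 2) = u := by
    rw [map_mul, map_pow, hκl, one_mul, ← hv 0, hc1]
  have hu1 : u = 1 := by
    have h1 := congrArg (lcH K) heq0
    rw [map_mul, hc1, lcH_C_sub_X, hneg] at h1
    rcases lcH_one_add hgne with h | h | h | h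
    · rw [h, mul_one] at h1; exact h1
    · rw [h, hgl] at h1
      have : (u - 1) ^ 2 = 0 := by
        linear_combination (norm := (ring_nf; try reduce_mod_char!)) h1
      exact sub_eq_zero.mp (pow_eq_zero_iff (by norm_num) |>.mp this)
    · rw [hgl, hneg] at h; exact h
    · exfalso
      rw [h, hgl] at h1
      -- u (1 + u) = 1
      have h4 : u ^ 4 = u := by
        linear_combination (norm := (ring_nf; try reduce_mod_char!)) (u ^ 2 + u) * h1
      have h3 : ∀ i, lcH K (S.v (i + 1 + 2)) = lcH K (S.v (i + 1)) := by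
        have h5 : ∀ i, lcH K (S.v (i + 1)) ^ 4 = lcH K (S.v (i + 1)) := by
          intro i
          induction i with
          | zero => rw [zero_add, hc1, h4]
          | succ i ih => rw [hv (i + 1), ← pow_mul, mul_comm 2 4, pow_mul, ih]
        intro i
        rw [show i + 1 + 2 = i + 1 + 1 + 1 by ring, hv (i + 1 + 1), hv (i + 1), ← pow_mul]
        exact h5 i
      have h5 : ∀ m, lcH K (S.v (2 * m + 2)) = lcH K (S.v 2) := by
        intro m
        induction m with
        | zero => rfl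
        | succ m ih => rw [← ih, ← h3 (2 * m + 1)]; congr 2
      have h6 := h5 (d / 2)
      have hv1 : lcH K (S.v 2) = lcH K (S.v 1) ^ 2 := hv 1
      rw [show 2 * (d / 2) + 2 = 1 + d by omega, S.vper, hv1, hc1] at h6
      rw [mul_add, mul_one, ← pow_two, ← h6] at h1
      rw [CharTwo.add_self_eq_zero] at h1
      exact zero_ne_one h1
  -- the relation r ^ 3 = t 1 ^ 2
  set r := tcH K (S.v 1) with hr
  have hnorm : ∏ j ∈ range d, S.t (j + 1) = 1 := by
    have h1 : (∏ j ∈ range d, S.t (j + 1)) ^ 2 = ∏ j ∈ range d, S.t (j + 1) := by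
      rw [← Finset.prod_pow]
      have h2 : ∀ j ∈ range d, S.t (j + 1) ^ 2 = S.t (j + 1 + 1) := fun j _ => S.ht2 _
      rw [Finset.prod_congr rfl h2]
      have h3 := Finset.prod_range_succ (fun j => S.t (j + 1)) d
      have h4 := Finset.prod_range_succ' (fun j => S.t (j + 1)) d
      have h5 : S.t (d + 1) = S.t (0 + 1) := by
        rw [show d + 1 = 1 + d by ring, S.tper]
      rw [h3, h5] at h4
      exact (mul_right_cancel₀ (ht0 _) h4).symm
    have h2 : ∏ j ∈ range d, S.t (j + 1) ≠ 0 := Finset.prod_ne_zero_iff.mpr fun _ _ => ht0 _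
    apply mul_right_cancel₀ h2
    linear_combination h1
  have hprod : ∀ e, S.t 1 * ∏ l ∈ range e, (S.t (2 * l + 2) * S.t (2 * l + 3)) =
      ∏ j ∈ range (e * 2 + 1), S.t (j + 1) := by
    intro e
    induction e with
    | zero => simp
    | succ e ih =>
      rw [Finset.prod_range_succ, show (e + 1) * 2 + 1 = e * 2 + 1 + 1 + 1 by ring,
        Finset.prod_range_succ, Finset.prod_range_succ, ← ih]
      rw [show e * 2 + 1 + 1 = 2 * e + 2 by ring, show 2 * e + 2 + 1 = 2 * e + 3 from rfl]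
      ring
  have hr3 : r ^ 3 = S.t 1 ^ 2 := by
    have h1 : r = S.t 1 * ∏ l ∈ range (d / 2), S.t (2 * l + 2) := by
      rw [hr1, hu1, one_mul, hPt]
    have h2 := hprod (d / 2)
    rw [hd2, hnorm] at h2
    have h3 : (∏ l ∈ range (d / 2), S.t (2 * l + 2)) ^ 3 =
        ∏ l ∈ range (d / 2), (S.t (2 * l + 2) * S.t (2 * l + 3)) := by
      rw [← Finset.prod_pow]
      refine Finset.prod_congr rfl fun l _ => ?_
      rw [← S.ht2 (2 * l + 2)]
      ring
    rw [h1, mul_pow, h3]
    calc S.t 1 ^ 3 * ∏ l ∈ range (d / 2), (S.t (2 * l + 2) * S.t (2 * l + 3))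
        = S.t 1 ^ 2 * (S.t 1 * ∏ l ∈ range (d / 2), (S.t (2 * l + 2) * S.t (2 * l + 3))) := by ring
      _ = S.t 1 ^ 2 := by rw [h2, mul_one]
  -- the relation at zero
  have hgt : tcH K (S.κ * S.v 0 ^ 2) = r := by
    rw [map_mul, map_pow, hκt, one_mul, ← hvt 0]
  have hrne : r ≠ 0 := tcH_ne (S.v_ne 1)
  have hβ0 := ht0 1
  have hβ1 : S.t 1 ≠ 1 := by
    intro h
    have h1 := S.t_ne 1 1 (by omega) (by omega)
    apply h1
    rw [← S.ht2 1, h]; ring
  have hrel := congrArg (tcH K) heq0
  rw [map_mul, tcH_C_sub_X hβ0, ← hr] at hrel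
  rcases tcH_one_add hgne with h | h | h | h
  · -- r = β
    rw [h, mul_one] at hrel
    rw [hrel] at hr3
    apply hβ1
    apply mul_left_cancel₀ (pow_ne_zero 2 hβ0)
    linear_combination hr3
  · -- r ^ 2 = β
    rw [h, hgt] at hrel
    have h1 : r ^ 3 * (r - 1) = 0 := by
      rw [← hrel] at hr3
      linear_combination -hr3
    have h2 : r = 1 := sub_eq_zero.mp ((mul_eq_zero.mp h1).resolve_left (pow_ne_zero _ hrne))
    apply hβ1
    rw [← hrel, h2]; ring
  · -- r = 1
    rw [hgt, hneg] at h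
    rw [h] at hr3
    apply hβ1
    have h1 : (S.t 1 - 1) ^ 2 = 0 := by
      linear_combination (norm := (ring_nf; try reduce_mod_char!)) hr3
    exact sub_eq_zero.mp (pow_eq_zero_iff (by norm_num) |>.mp h1)
  · -- r (1 + r) = β
    rw [h, hgt] at hrel
    have h1 : r ^ 2 * (r ^ 2 + r + 1) = 0 := by
      rw [← hrel] at hr3
      linear_combination (norm := (ring_nf; try reduce_mod_char!)) hr3
    have h2 := (mul_eq_zero.mp h1).resolve_left (pow_ne_zero _ hrne)
    apply hβ1
    rw [← hrel]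
    linear_combination (norm := (ring_nf; try reduce_mod_char!)) h2

end Sys

end Pool.Agent.DrY
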