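import Pool.Agent.Lib.MP_531408_nt.Core
import Pool.Agent.Lib.MP_531408_nt.Descent2

set_option autoImplicit false

namespace Pool.Agent.DrY

open Polynomial

section lift

variable {k K : Type*} [Field k] [Field K] (φ : k →+* K)

/-- the ring homomorphism of rational function fields given by a map of coefficients -/
noncomputable def liftRF : RatFunc k →+* RatFunc K :=
  RatFunc.mapRingHom (Polynomial.mapRingHom φ)
    (nonZeroDivisors_le_comap_nonZeroDivisors_of_injective _
      (Polynomial.map_injective φ φ.injective))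

lemma liftRF_algebraMap (P : k[X]) :
    liftRF φ (algebraMap k[X] (RatFunc k) P) = algebraMap K[X] (RatFunc K) (P.map φ) := by
  have h := RatFunc.map_apply_div (K := k) (R := K) (Polynomial.mapRingHom φ)
    (nonZeroDivisors_le_comap_nonZeroDivisors_of_injective _
      (Polynomial.map_injective φ φ.injective)) P 1
  simp only [map_one, div_one] at h
  exact h

lemma liftRF_C (a : k) : liftRF φ (RatFunc.C a) = RatFunc.C (φ a) := by
  rw [← RatFunc.algebraMap_C, liftRF_algebraMap, Polynomial.map_C, RatFunc.algebraMap_C]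

lemma liftRF_X : liftRF φ RatFunc.X = RatFunc.X := by
  rw [← RatFunc.algebraMap_X, liftRF_algebraMap, Polynomial.map_X, RatFunc.algebraMap_X]

lemma mapRF_liftRF (σ : K →+* K) (h : ∀ a, σ (φ a) = φ a) (f : RatFunc k) :
    mapRF σ (liftRF φ f) = liftRF φ f := by
  conv_lhs => rw [← f.num_div_denom]
  conv_rhs => rw [← f.num_div_denom]
  have h2 : ∀ P : k[X], (P.map φ).map σ = P.map φ := by
    intro P
    rw [Polynomial.map_map]
    congr 1
    ext a
    exact h a
  rw [map_div₀, map_div₀, liftRF_algebraMap, liftRF_algebraMap, mapRF_algebraMap,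
    mapRF_algebraMap, h2, h2]

end lift

/-- no periodic solutions of the linear recursion with one defect. -/
lemma no_lin (q : ℕ) (hq : 2 ≤ q) (d : ℕ) (hd : 3 ≤ d) (x δ : ℕ → ℤ) (c : ℤ)
    (hx : x d = x 0) (hδd : δ d = 1) (hδ : ∀ i, 0 < i → i < d → δ i = 0)
    (hrec : ∀ i, x (i + 1) + q * x i + c = δ (i + 1)) : False := by
  have hq' : (2 : ℤ) ≤ q := by exact_mod_cast hq
  have hd1 : d - 1 + 1 = d := by omega
  have hy : ∀ j, j < d → (q + 1) * x j + c = (-(q : ℤ)) ^ j * ((q + 1) * x 0 + c) := by
    intro j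
    induction j with
    | zero => intro _; simp
    | succ j ih =>
      intro hj
      have h1 := ih (by omega)
      have h2 := hrec j
      rw [hδ (j + 1) (by omega) hj] at h2
      have h3 : x (j + 1) = - q * x j - c := by linarith
      rw [h3, pow_succ]
      have : (q + 1) * (- q * x j - c) + c = (-(q : ℤ)) * ((q + 1) * x j + c) := by ring
      rw [this, h1]
      ring
  have h1 := hy (d - 1) (by omega)
  have h2 := hrec (d - 1)
  rw [hd1, hx, hδd] at h2
  set y := ((q : ℤ) + 1) * x 0 + c with hydef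
  have h3 : y * (1 - (-(q : ℤ)) ^ d) = q + 1 := by
    have h4 : (-(q : ℤ)) ^ d = (-(q : ℤ)) ^ (d - 1) * (-(q : ℤ)) := by
      rw [← pow_succ, hd1]
    rw [h4]
    have h5 : (-(q : ℤ)) ^ (d - 1) * y = (q + 1) * x (d - 1) + c := h1.symm
    calc y * (1 - (-(q : ℤ)) ^ (d - 1) * -(q : ℤ))
        = y + q * ((-(q : ℤ)) ^ (d - 1) * y) := by ring
      _ = y + q * ((q + 1) * x (d - 1) + c) := by rw [h5]
      _ = q + 1 := by rw [hydef]; linear_combination (q + 1) * h2
  have h4 : |y| * |1 - (-(q : ℤ)) ^ d| = q + 1 := by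
    rw [← abs_mul, h3, abs_of_pos (by positivity)]
  have h5 : 1 ≤ |y| := by
    have : y ≠ 0 := by
      intro h
      rw [h, zero_mul] at h3
      linarith
    exact Int.one_le_abs this
  have h6 : |1 - (-(q : ℤ)) ^ d| ≤ q + 1 := by
    have := abs_nonneg (1 - (-(q : ℤ)) ^ d)
    nlinarith
  have h7 : (q : ℤ) ^ d - 1 ≤ |1 - (-(q : ℤ)) ^ d| := by
    have h8 : |(-(q : ℤ)) ^ d| = (q : ℤ) ^ d := by rw [abs_pow, abs_neg, Nat.abs_cast]
    have h9 := abs_sub_abs_le_abs_sub ((-(q : ℤ)) ^ d) 1
    rw [h8, abs_one, abs_sub_comm] at h9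
    exact h9
  have h8 : (q : ℤ) ^ 3 ≤ (q : ℤ) ^ d := pow_le_pow_right₀ (by linarith) hd
  have h9 : 4 ≤ (q : ℤ) ^ 2 := by nlinarith
  have h10 : (q : ℤ) ^ 3 = q * (q : ℤ) ^ 2 := by ring
  have h11 : 4 * (q : ℤ) ≤ (q : ℤ) ^ 3 := by rw [h10]; nlinarith
  linarith

/-- The polynomial `Q` from the descent theorem cannot exist. -/
theorem no_Q {k : Type*} [Field k] [Fintype k] {p n : ℕ} [Fact p.Prime] [CharP k p]
    (hn : n ≠ 0) (hcard : Fintype.card k = p ^ n) (P : k[X]) (hirr : Irreducible P)
    (hd : 3 ≤ P.natDegree) (h33 : ¬ (p ^ n = 3 ∧ P.natDegree = 3))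
    (g Δ : RatFunc k) (hΔ : Δ ≠ 0) (Q : (RatFunc k)[X])
    (hdvd : P.map (algebraMap k (RatFunc k)) ∣ X - C RatFunc.X - C g * Q -
      C Δ * (Q.map (FiniteField.frobeniusAlgHom k (RatFunc k) : RatFunc k →+* RatFunc k)) * Q) :
    False := by
  classical
  set K := AlgebraicClosure k with hK
  have : CharP K p := charP_of_injective_algebraMap (algebraMap k K).injective p
  set d := P.natDegree with hddef
  obtain ⟨α, hα⟩ := IsAlgClosed.exists_aeval_eq_zero K P hirr.degree_pos.ne'
  have hncard : Nat.card k = p ^ n := by rw [Nat.card_eq_fintype_card, hcard]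
  let t : ℕ → K := fun i => α ^ ((p ^ n) ^ i)
  have ht : ∀ i, t (i + 1) = t i ^ (p ^ n) := fun i => by
    show α ^ ((p ^ n) ^ (i + 1)) = (α ^ ((p ^ n) ^ i)) ^ (p ^ n)
    rw [pow_succ (p ^ n) i, pow_mul]
  have hroot : ∀ i, aeval (t i) P = 0 := by
    intro i
    induction i with
    | zero => simpa [t] using hα
    | succ i ih =>
      rw [ht]
      have h1 := Polynomial.aeval_algHom_apply (FiniteField.frobeniusAlgHom k K) (t i) P
      rw [ih, map_zero] at h1
      have h2 : FiniteField.frobeniusAlgHom k K (t i) = t i ^ (p ^ n) := by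
        show t i ^ (Fintype.card k) = _
        rw [hcard]
      rwa [h2] at h1
  have hαd : α ^ ((p ^ n) ^ d) = α := by
    have h1 := (hirr.natDegree_dvd_iff_dvd_X_pow_card_pow_sub_X (n := d)).mp dvd_rfl
    obtain ⟨R, hR⟩ := h1
    have h2 := congrArg (aeval α) hR
    rw [map_mul, hα, zero_mul, map_sub, map_pow, aeval_X, hncard] at h2
    exact sub_eq_zero.mp h2
  have htper : ∀ i, t (i + d) = t i := by
    intro i
    show α ^ ((p ^ n) ^ (i + d)) = α ^ ((p ^ n) ^ i)
    rw [pow_add, mul_comm, pow_mul, hαd]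
  have hfrobinj : ∀ i : ℕ, Function.Injective fun x : K => x ^ ((p ^ n) ^ i) := by
    intro i
    have h1 := (iterateFrobenius K p (n * i)).injective
    intro x y hxy
    apply h1
    rw [iterateFrobenius_def, iterateFrobenius_def, pow_mul]
    exact hxy
  have htlt : ∀ i j, i < j → j < d → t i ≠ t j := by
    intro i j hij hjd h
    have h1 : (α ^ ((p ^ n) ^ (j - i))) ^ ((p ^ n) ^ i) = α ^ ((p ^ n) ^ i) := by
      rw [← pow_mul, ← pow_add, show j - i + i = j by omega]
      exact h.symm
    have h2 : α ^ ((p ^ n) ^ (j - i)) = α := hfrobinj i h1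
    have h3 : P ∣ X ^ (Nat.card k) ^ (j - i) - X := by
      rw [← hirr.dvd_iff_aeval_eq_zero hα, map_sub, map_pow, aeval_X, hncard, h2, sub_self]
    have h4 := hirr.natDegree_dvd_of_dvd_X_pow_card_pow_sub_X h3
    have h5 := Nat.le_of_dvd (by omega) h4
    omega
  have htinj : ∀ i j, i < d → j < d → t i = t j → i = j := by
    intro i j hi hj h
    rcases lt_trichotomy i j with h1 | h1 | h1
    · exact absurd h (htlt i j h1 hj)
    · exact h1
    · exact absurd h.symm (htlt j i h1 hi)
  -- embedding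
  let ι : RatFunc k →+* RatFunc K := liftRF (algebraMap k K)
  have hιinj : Function.Injective ι := ι.injective
  let σ : RatFunc K →+* RatFunc K := mapRF (iterateFrobenius K p n)
  have hσι : ∀ f, σ (ι f) = ι f := by
    intro f
    apply mapRF_liftRF
    intro a
    rw [iterateFrobenius_def, ← map_pow, ← hcard, FiniteField.pow_card]
  let e : ℕ → RatFunc K := fun i => Q.eval₂ ι (RatFunc.C (t i))
  have hσe : ∀ i, σ (e i) = e (i + 1) := by
    intro i
    show σ (Q.eval₂ ι (RatFunc.C (t i))) = Q.eval₂ ι (RatFunc.C (t (i + 1)))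
    rw [Polynomial.hom_eval₂]
    have h1 : σ.comp ι = ι := RingHom.ext hσι
    have h2 : σ (RatFunc.C (t i)) = RatFunc.C (t (i + 1)) := by
      show mapRF (iterateFrobenius K p n) (RatFunc.C (t i)) = _
      rw [mapRF_C, iterateFrobenius_def, ht]
    rw [h1, h2]
  have heper : ∀ i, e (i + d) = e i := fun i => by simp only [e, htper]
  have hmain : ∀ i, e (i + 1) * (ι g + ι Δ * e i ^ (p ^ n)) =
      RatFunc.C (t (i + 1)) - RatFunc.X := by
    intro i
    obtain ⟨R, hR⟩ := hdvd
    have h1 := congrArg (fun A : (RatFunc k)[X] => A.eval₂ ι (RatFunc.C (t (i + 1)))) hR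
    have h2 : (P.map (algebraMap k (RatFunc k))).eval₂ ι (RatFunc.C (t (i + 1))) = 0 := by
      rw [Polynomial.eval₂_map]
      have h3 : ι.comp (algebraMap k (RatFunc k)) =
          (RatFunc.C : K →+* RatFunc K).comp (algebraMap k K) := by
        ext a
        show ι (algebraMap k (RatFunc k) a) = _
        rw [RatFunc.algebraMap_eq_C]
        exact liftRF_C _ _
      rw [h3, ← Polynomial.hom_eval₂, ← Polynomial.aeval_def, hroot, map_zero]
    have h4 : (Q.map (FiniteField.frobeniusAlgHom k (RatFunc k) :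
        RatFunc k →+* RatFunc k)).eval₂ ι (RatFunc.C (t (i + 1))) = e i ^ (p ^ n) := by
      rw [Polynomial.eval₂_map]
      have h5 : ι.comp (FiniteField.frobeniusAlgHom k (RatFunc k) : RatFunc k →+* RatFunc k) =
          (iterateFrobenius (RatFunc K) p n).comp ι := by
        refine RingHom.ext fun f => ?_
        show ι (f ^ (Fintype.card k)) = iterateFrobenius (RatFunc K) p n (ι f)
        rw [iterateFrobenius_def, map_pow, hcard]
      have h6 : (RatFunc.C (t (i + 1)) : RatFunc K) =
          iterateFrobenius (RatFunc K) p n (RatFunc.C (t i)) := by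
        rw [iterateFrobenius_def, ← map_pow, ht]
      rw [h5, h6, ← Polynomial.hom_eval₂, iterateFrobenius_def]
    rw [Polynomial.eval₂_mul, h2, zero_mul, Polynomial.eval₂_sub, Polynomial.eval₂_sub,
      Polynomial.eval₂_sub, Polynomial.eval₂_mul, Polynomial.eval₂_mul, Polynomial.eval₂_mul,
      Polynomial.eval₂_X, Polynomial.eval₂_C, Polynomial.eval₂_C, Polynomial.eval₂_C, h4] at h1
    have h7 : ι RatFunc.X = RatFunc.X := liftRF_X _
    rw [h7] at h1
    show Q.eval₂ ι (RatFunc.C (t (i + 1))) * _ = _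
    linear_combination -h1
  have hιΔ : ι Δ ≠ 0 := (_root_.map_ne_zero ι).mpr hΔ
  have hene : ∀ i, e (i + 1) ≠ 0 := by
    intro i h
    have := hmain i
    rw [h, zero_mul] at this
    exact C_sub_X_ne _ this.symm
  have hene' : ∀ i, e i ≠ 0 := by
    intro i
    have := hene (i + d - 1)
    rwa [show i + d - 1 + 1 = i + d by omega, heper] at this
  by_cases hg : g = 0
  · -- case g = 0
    refine no_lin (p ^ n) ?_ d hd (fun i => (ordAt (t 0)).ord (e i))
      (fun i => if t i = t 0 then 1 else 0) ((ordAt (t 0)).ord (ι Δ)) ?_ ?_ ?_ ?_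
    · have := (Fact.out : p.Prime).two_le
      calc 2 ≤ p := this
        _ = p ^ 1 := (pow_one p).symm
        _ ≤ p ^ n := Nat.pow_le_pow_right (by omega) (Nat.one_le_iff_ne_zero.mpr hn)
    · have := heper 0
      rw [zero_add] at this
      show (ordAt (t 0)).ord (e d) = (ordAt (t 0)).ord (e 0)
      rw [this]
    · have := htper 0
      rw [zero_add] at this
      exact if_pos this
    · intro i hi hid
      exact if_neg fun h => htlt 0 i hi hid h.symm
    · intro i
      have h1 := hmain i
      rw [hg, map_zero, zero_add] at h1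
      have h2 := congrArg (ordAt (t 0)).ord h1
      rw [(ordAt _).ord_mul (hene i) (mul_ne_zero hιΔ (pow_ne_zero _ (hene' i))),
        (ordAt _).ord_mul hιΔ (pow_ne_zero _ (hene' i)), (ordAt _).ord_pow (hene' i),
        ordAt_C_sub_X] at h2
      show (ordAt (t 0)).ord (e (i + 1)) + _ + _ = if t (i + 1) = t 0 then (1 : ℤ) else 0
      rw [← h2]
      ring
  · have hιg : ι g ≠ 0 := (_root_.map_ne_zero ι).mpr hg
    let S : Sys K p n d :=
      { t := t
        v := fun i => ι g * e i
        κ := ι Δ / (ι g) ^ (p ^ n + 1)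
        hn := hn
        hd := hd
        ht := ht
        tper := htper
        tinj := htinj
        vper := fun i => by simp only [heper]
        vs := fun i => by
          show σ (ι g * e i) = ι g * e (i + 1)
          rw [map_mul, hσι, hσe]
        κs := by
          show σ (ι Δ / (ι g) ^ (p ^ n + 1)) = _
          rw [map_div₀, map_pow, hσι, hσι]
        κ0 := div_ne_zero hιΔ (pow_ne_zero _ hιg)
        heq := fun i => by
          rw [← hmain i, mul_pow, pow_succ]
          field_simp }
    exact S.core h33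

end Pool.Agent.DrY
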