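import Pool.Agent.Lib.MP_531408_nt.D4two

set_option autoImplicit false

namespace Pool.Agent.DrY

open Polynomial Finset

section

variable {K : Type*} [Field K]

lemma trailing_of {R : K[X]} {m : ℕ} (h : ∀ j < m, R.coeff j = 0) (h' : R.coeff m ≠ 0) :
    R.natTrailingDegree = m ∧ R.trailingCoeff = R.coeff m := by
  have hR : R ≠ 0 := by rintro rfl; simp at h'
  have h1 : R.natTrailingDegree = m :=
    le_antisymm (Polynomial.natTrailingDegree_le_of_ne_zero h')
      (Polynomial.le_natTrailingDegree hR h)
  exact ⟨h1, by rw [Polynomial.trailingCoeff, h1]⟩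

variable (K)

/-- trailing coefficient as a monoid homomorphism -/
noncomputable def tcM : K[X] →*₀ K where
  toFun P := P.trailingCoeff
  map_zero' := Polynomial.trailingCoeff_zero
  map_one' := by
    rw [Polynomial.trailingCoeff, Polynomial.natTrailingDegree_one, Polynomial.coeff_one_zero]
  map_mul' := Polynomial.trailingCoeff_mul

/-- leading coefficient as a monoid homomorphism -/
noncomputable def lcM : K[X] →*₀ K where
  toFun P := P.leadingCoeff
  map_zero' := Polynomial.leadingCoeff_zero
  map_one' := Polynomial.leadingCoeff_one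
  map_mul' := Polynomial.leadingCoeff_mul

/-- leading coefficient at `0` -/
noncomputable def tcH : RatFunc K →*₀ K :=
  RatFunc.liftMonoidWithZeroHom (tcM K) (by
    intro P hP
    have h0 : P ≠ 0 := nonZeroDivisors.ne_zero hP
    have h1 : P.trailingCoeff ≠ 0 := Polynomial.trailingCoeff_nonzero_iff_nonzero.mpr h0
    exact mem_nonZeroDivisors_of_ne_zero h1)

/-- leading coefficient at infinity -/
noncomputable def lcH : RatFunc K →*₀ K :=
  RatFunc.liftMonoidWithZeroHom (lcM K) (by
    intro P hP
    have h0 : P ≠ 0 := nonZeroDivisors.ne_zero hP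
    have h1 : P.leadingCoeff ≠ 0 := Polynomial.leadingCoeff_ne_zero.mpr h0
    exact mem_nonZeroDivisors_of_ne_zero h1)

variable {K}

lemma tcH_div (P Q : K[X]) : tcH K (algebraMap K[X] (RatFunc K) P / algebraMap _ _ Q) =
    P.trailingCoeff / Q.trailingCoeff :=
  RatFunc.liftMonoidWithZeroHom_apply_div _ _ _ _

lemma lcH_div (P Q : K[X]) : lcH K (algebraMap K[X] (RatFunc K) P / algebraMap _ _ Q) =
    P.leadingCoeff / Q.leadingCoeff :=
  RatFunc.liftMonoidWithZeroHom_apply_div _ _ _ _

lemma tcH_poly (P : K[X]) : tcH K (algebraMap K[X] (RatFunc K) P) = P.trailingCoeff := by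
  have := tcH_div P 1
  rw [map_one, div_one] at this
  rw [this]
  have h1 : (1 : K[X]).trailingCoeff = 1 := (tcM K).map_one
  rw [h1, div_one]

lemma lcH_poly (P : K[X]) : lcH K (algebraMap K[X] (RatFunc K) P) = P.leadingCoeff := by
  have := lcH_div P 1
  rw [map_one, div_one] at this
  rw [this, Polynomial.leadingCoeff_one, div_one]

lemma tcH_C (c : K) : tcH K (RatFunc.C c) = c := by
  rw [← RatFunc.algebraMap_C, tcH_poly, Polynomial.trailingCoeff, Polynomial.natTrailingDegree_C,
    Polynomial.coeff_C_zero]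

lemma lcH_C (c : K) : lcH K (RatFunc.C c) = c := by
  rw [← RatFunc.algebraMap_C, lcH_poly, Polynomial.leadingCoeff_C]

lemma tcH_X_sub_C {a : K} (ha : a ≠ 0) : tcH K (RatFunc.X - RatFunc.C a) = -a := by
  rw [← RatFunc.algebraMap_C, ← RatFunc.algebraMap_X, ← map_sub, tcH_poly,
    Polynomial.trailingCoeff_eq_coeff_zero]
  · simp
  · simpa using ha

lemma tcH_C_sub_X {a : K} (ha : a ≠ 0) : tcH K (RatFunc.C a - RatFunc.X) = a := by
  rw [← RatFunc.algebraMap_C, ← RatFunc.algebraMap_X, ← map_sub, tcH_poly,
    Polynomial.trailingCoeff_eq_coeff_zero]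
  · simp
  · simpa using ha

lemma lcH_X_sub_C (a : K) : lcH K (RatFunc.X - RatFunc.C a) = 1 := by
  rw [← RatFunc.algebraMap_C, ← RatFunc.algebraMap_X, ← map_sub, lcH_poly,
    Polynomial.leadingCoeff_X_sub_C]

lemma lcH_C_sub_X (a : K) : lcH K (RatFunc.C a - RatFunc.X) = -1 := by
  have : (RatFunc.C a - RatFunc.X : RatFunc K) = RatFunc.C (-1) * (RatFunc.X - RatFunc.C a) := by
    rw [map_neg, map_one]; ring
  rw [this, map_mul, lcH_C, lcH_X_sub_C, mul_one]

lemma tcH_ne {f : RatFunc K} (hf : f ≠ 0) : tcH K f ≠ 0 := (map_ne_zero (tcH K)).mpr hf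
lemma lcH_ne {f : RatFunc K} (hf : f ≠ 0) : lcH K f ≠ 0 := (map_ne_zero (lcH K)).mpr hf

lemma one_add_eq (g : RatFunc K) : 1 + g =
    algebraMap K[X] (RatFunc K) (g.denom + g.num) / algebraMap K[X] (RatFunc K) g.denom := by
  have h1 := RatFunc.algebraMap_ne_zero (K := K) g.denom_ne_zero
  rw [map_add, add_div, div_self h1, g.num_div_denom]

lemma ordAt_zero_eq (g : RatFunc K) : (ordAt (0 : K)).ord g =
    (g.num.natTrailingDegree : ℤ) - g.denom.natTrailingDegree := by
  show (g.num.rootMultiplicity 0 : ℤ) - g.denom.rootMultiplicity 0 = _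
  rw [Polynomial.rootMultiplicity_eq_natTrailingDegree',
    Polynomial.rootMultiplicity_eq_natTrailingDegree']

/-- behaviour of `1 + g` at `0` -/
lemma tcH_one_add {g : RatFunc K} (hg : g ≠ 0) :
    tcH K (1 + g) = 1 ∨ tcH K (1 + g) = tcH K g ∨ tcH K g = -1 ∨
      tcH K (1 + g) = 1 + tcH K g := by
  have hP : g.num ≠ 0 := RatFunc.num_ne_zero hg
  have hQ : g.denom ≠ 0 := g.denom_ne_zero
  have hPc : g.num.coeff g.num.natTrailingDegree ≠ 0 :=
    Polynomial.coeff_natTrailingDegree_ne_zero.mpr hP
  have hQc : g.denom.coeff g.denom.natTrailingDegree ≠ 0 :=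
    Polynomial.coeff_natTrailingDegree_ne_zero.mpr hQ
  have hQt : g.denom.trailingCoeff ≠ 0 := hQc
  have hg' : tcH K g = g.num.trailingCoeff / g.denom.trailingCoeff := by
    conv_lhs => rw [← g.num_div_denom]
    rw [tcH_div]
  rw [one_add_eq g, tcH_div, hg']
  rcases lt_trichotomy g.num.natTrailingDegree g.denom.natTrailingDegree with h | h | h
  · right; left
    have h1 := trailing_of (R := g.denom + g.num) (m := g.num.natTrailingDegree)
      (fun j hj => by
        rw [Polynomial.coeff_add, Polynomial.coeff_eq_zero_of_lt_natTrailingDegree (hj.trans h),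
          Polynomial.coeff_eq_zero_of_lt_natTrailingDegree hj, add_zero])
      (by rw [Polynomial.coeff_add, Polynomial.coeff_eq_zero_of_lt_natTrailingDegree h, zero_add]
          exact hPc)
    rw [h1.2, Polynomial.coeff_add, Polynomial.coeff_eq_zero_of_lt_natTrailingDegree h, zero_add]
    rfl
  · by_cases hs : g.denom.trailingCoeff + g.num.trailingCoeff = 0
    · right; right; left
      rw [div_eq_iff hQt]
      linear_combination hs
    · right; right; right
      have hcoeff : (g.denom + g.num).coeff g.denom.natTrailingDegree =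
          g.denom.trailingCoeff + g.num.trailingCoeff := by
        rw [Polynomial.coeff_add]
        conv_lhs => rw [← h]
        rw [Polynomial.trailingCoeff, Polynomial.trailingCoeff, ← h]
      have h1 := trailing_of (R := g.denom + g.num) (m := g.denom.natTrailingDegree)
        (fun j hj => by
          rw [Polynomial.coeff_add, Polynomial.coeff_eq_zero_of_lt_natTrailingDegree hj,
            Polynomial.coeff_eq_zero_of_lt_natTrailingDegree (h ▸ hj), add_zero])
        (by rw [hcoeff]; exact hs)
      rw [h1.2, hcoeff, add_div, div_self hQt]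
  · left
    have h1 := trailing_of (R := g.denom + g.num) (m := g.denom.natTrailingDegree)
      (fun j hj => by
        rw [Polynomial.coeff_add, Polynomial.coeff_eq_zero_of_lt_natTrailingDegree (hj.trans h),
          Polynomial.coeff_eq_zero_of_lt_natTrailingDegree hj, add_zero])
      (by rw [Polynomial.coeff_add, Polynomial.coeff_eq_zero_of_lt_natTrailingDegree h, add_zero]
          exact hQc)
    rw [h1.2, Polynomial.coeff_add, Polynomial.coeff_eq_zero_of_lt_natTrailingDegree h, add_zero]
    exact div_self hQt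

/-- behaviour of `1 + g` at infinity -/
lemma lcH_one_add {g : RatFunc K} (hg : g ≠ 0) :
    lcH K (1 + g) = 1 ∨ lcH K (1 + g) = lcH K g ∨ lcH K g = -1 ∨
      lcH K (1 + g) = 1 + lcH K g := by
  have hP : g.num ≠ 0 := RatFunc.num_ne_zero hg
  have hQ : g.denom ≠ 0 := g.denom_ne_zero
  have hQt : g.denom.leadingCoeff ≠ 0 := Polynomial.leadingCoeff_ne_zero.mpr hQ
  have hg' : lcH K g = g.num.leadingCoeff / g.denom.leadingCoeff := by
    conv_lhs => rw [← g.num_div_denom]
    rw [lcH_div]
  rw [one_add_eq g, lcH_div, hg']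
  rcases lt_trichotomy g.num.degree g.denom.degree with h | h | h
  · left
    rw [Polynomial.leadingCoeff_add_of_degree_lt' h, div_self hQt]
  · by_cases hs : g.denom.leadingCoeff + g.num.leadingCoeff = 0
    · right; right; left
      rw [div_eq_iff hQt]
      linear_combination hs
    · right; right; right
      rw [Polynomial.leadingCoeff_add_of_degree_eq h.symm hs, add_div, div_self hQt]
  · right; left
    rw [Polynomial.leadingCoeff_add_of_degree_lt h]

end

section sigma

variable {K : Type*} [Field K] (φ : K →+* K)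

lemma trailingCoeff_map_inj (P : K[X]) : (P.map φ).trailingCoeff = φ P.trailingCoeff := by
  by_cases hP : P = 0
  · subst hP; simp
  have h := trailing_of (R := P.map φ) (m := P.natTrailingDegree)
    (fun j hj => by
      rw [Polynomial.coeff_map, Polynomial.coeff_eq_zero_of_lt_natTrailingDegree hj, map_zero])
    (by
      rw [Polynomial.coeff_map]
      exact (map_ne_zero φ).mpr (Polynomial.coeff_natTrailingDegree_ne_zero.mpr hP))
  rw [h.2, Polynomial.coeff_map]
  rfl

lemma tcH_sigma (f : RatFunc K) : tcH K (mapRF φ f) = φ (tcH K f) := by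
  conv_rhs => rw [← f.num_div_denom]
  rw [mapRF_eq, tcH_div, tcH_div, trailingCoeff_map_inj, trailingCoeff_map_inj, map_div₀]

lemma lcH_sigma (f : RatFunc K) : lcH K (mapRF φ f) = φ (lcH K f) := by
  conv_rhs => rw [← f.num_div_denom]
  rw [mapRF_eq, lcH_div, lcH_div, Polynomial.leadingCoeff_map, Polynomial.leadingCoeff_map,
    map_div₀]

end sigma

end Pool.Agent.DrY
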