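import Mathlib

set_option autoImplicit false

namespace Pool.Agent.DrY

open Finset

lemma sum_shift_one (f : ℕ → ℤ) (d : ℕ) (hf : ∀ i, f (i + d) = f i) :
    ∑ i ∈ range d, f (i + 1) = ∑ i ∈ range d, f i := by
  have h1 := Finset.sum_range_succ f d
  have h2 := Finset.sum_range_succ' f d
  have h3 := hf 0
  rw [zero_add] at h3
  linarith

lemma sum_shift (f : ℕ → ℤ) (d : ℕ) (hf : ∀ i, f (i + d) = f i) (m : ℕ) :
    ∑ i ∈ range d, f (i + m) = ∑ i ∈ range d, f i := by
  induction m with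
  | zero => simp
  | succ m ih =>
    rw [← ih]
    have := sum_shift_one (fun i => f (i + m)) d (fun i => by
      show f (i + d + m) = f (i + m)
      rw [show i + d + m = i + m + d by ring]; exact hf _)
    rw [← this]
    refine Finset.sum_congr rfl fun i _ => ?_
    congr 1
    ring

lemma per_mul (f : ℕ → ℤ) (d : ℕ) (hf : ∀ i, f (i + d) = f i) (i m : ℕ) :
    f (i + m * d) = f i := by
  induction m with
  | zero => simp
  | succ m ih => rw [← ih, ← hf (i + m * d)]; congr 1; ring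

lemma sum_lower (f : ℕ → ℤ) (j0 d : ℕ) (h : j0 + 2 ≤ d) (B : ℤ)
    (hB : ∀ i, j0 ≤ i → i + 2 < d → B ≤ f i) :
    ∑ i ∈ range j0, f i + ((d : ℤ) - 2 - j0) * B + f (d - 2) + f (d - 1) ≤ ∑ i ∈ range d, f i := by
  obtain ⟨e, rfl⟩ := Nat.exists_eq_add_of_le h
  have h1 : ∀ e' ≤ e, ∑ i ∈ range j0, f i + (e' : ℤ) * B ≤ ∑ i ∈ range (j0 + e'), f i := by
    intro e' he'
    induction e' with
    | zero => simp
    | succ e' ih =>
      have := ih (by omega)
      rw [← add_assoc, Finset.sum_range_succ]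
      have := hB (j0 + e') (by omega) (by omega)
      push_cast
      linarith
  have h2 := h1 e le_rfl
  have h3 : j0 + 2 + e = (j0 + e) + 1 + 1 := by ring
  rw [h3, Finset.sum_range_succ, Finset.sum_range_succ]
  have h4 : j0 + e + 1 + 1 - 2 = j0 + e := by omega
  have h5 : j0 + e + 1 + 1 - 1 = j0 + e + 1 := by omega
  rw [h4, h5]
  push_cast
  nlinarith [h2]

/-- local recursion rules for the orders `x i = ord (v i)`, `k = ord κ` at a finite place;
`δ i = ord (t i - T)`. -/
structure Rules (q d : ℕ) (x δ : ℕ → ℤ) (k : ℤ) : Prop where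
  hq : 2 ≤ q
  hd : 3 ≤ d
  xper : ∀ i, x (i + d) = x i
  dper : ∀ i, δ (i + d) = δ i
  d01 : ∀ i, δ i = 0 ∨ δ i = 1
  r1 : ∀ i, 0 < k + q * x i → x (i + 1) = δ (i + 1)
  r2 : ∀ i, k + q * x i < 0 → x (i + 1) = δ (i + 1) - (k + q * x i)
  r3 : ∀ i, k + q * x i = 0 → x (i + 1) ≤ δ (i + 1)

section pos

variable {q d : ℕ} {x δ : ℕ → ℤ} {k : ℤ}

/-- for `k > 0` either all `x i = δ i` or all `k + q x i = 0`. -/
lemma Rules.pos_class (R : Rules q d x δ k) (hk : 0 < k) :
    (∀ i, x i = δ i) ∨ (∀ i, k + q * x i = 0) := by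
  have hq := R.hq
  have hq' : (2 : ℤ) ≤ q := by exact_mod_cast hq
  by_cases h : ∀ i, k + q * x i = 0
  · exact Or.inr h
  left
  push Not at h
  obtain ⟨i, hi⟩ := h
  -- find index with positive value
  have hdn : ∀ i, 0 ≤ δ i := fun i => by rcases R.d01 i with h | h <;> omega
  have hpos : ∃ j, 0 < k + q * x j := by
    rcases lt_or_gt_of_ne hi with h1 | h1
    · refine ⟨i + 1, ?_⟩
      have := R.r2 i h1
      have h2 := hdn (i + 1)
      have : 0 < x (i + 1) := by omega
      positivity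
    · exact ⟨i, h1⟩
  obtain ⟨j, hj⟩ := hpos
  have hall : ∀ m, x (j + 1 + m) = δ (j + 1 + m) := by
    intro m
    induction m with
    | zero => exact R.r1 j hj
    | succ m ih =>
      rw [← add_assoc]
      apply R.r1
      rw [ih]
      have := hdn (j + 1 + m)
      positivity
  intro i
  have h1 := per_mul x d R.xper i (j + 1)
  have h2 := per_mul δ d R.dper i (j + 1)
  have hle : j + 1 ≤ i + (j + 1) * d := by
    have := R.hd
    nlinarith
  obtain ⟨m, hm⟩ := Nat.exists_eq_add_of_le hle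
  rw [← h1, ← h2, hm]
  exact hall m

end pos

/-- Abstract hypotheses on the orders `o i` of the Wronskians and `r` of the logarithmic
derivative of κ -/
structure Wr (p s : ℕ) (x o : ℕ → ℤ) (k r : ℤ) : Prop where
  ho : ∀ i, x i + x (i + s) - 1 ≤ o i
  ho' : ∀ i, (p : ℤ) ∣ x i - x (i + s) → x i + x (i + s) ≤ o i
  hr : -1 ≤ r
  hr' : (p : ℤ) ∣ k → 0 ≤ r

section

variable {p q d s : ℕ} {x δ o : ℕ → ℤ} {k r : ℤ}

lemma bound_posA (R : Rules q d x δ k) (W : Wr p s x o k r) (hk : 0 < k)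
    (h : ∀ i, x i = δ i) :
    (2 - (q : ℤ)) * ∑ i ∈ range d, δ i ≤
      d * k + d * r + q * ∑ i ∈ range d, o i + (2 - (q : ℤ)) * ∑ i ∈ range d, x i := by
  have h1 : 0 ≤ ∑ i ∈ range d, o i := by
    apply Finset.sum_nonneg
    intro i _
    have a1 := W.ho i
    have a2 := W.ho' i
    rw [h i, h (i + s)] at a1 a2
    rcases R.d01 i with e1 | e1 <;> rcases R.d01 (i + s) with e2 | e2 <;>
      rw [e1, e2] at a1 a2 <;> simp at a1 a2 <;> omega
  have h2 : ∑ i ∈ range d, x i = ∑ i ∈ range d, δ i := Finset.sum_congr rfl fun i _ => h i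
  rw [h2]
  have h3 : 0 ≤ (d : ℤ) * (k + r) := mul_nonneg (by positivity) (by have := W.hr; omega)
  have h4 : 0 ≤ (q : ℤ) * ∑ i ∈ range d, o i := mul_nonneg (by positivity) h1
  nlinarith

/-- data for `k = 0` -/
lemma Rules.zero_class (R : Rules q d x δ k) (hk : k = 0) (i : ℕ) :
    x (i + 1) = q * max (- x i) 0 - max (- x (i + 1)) 0 +
      (x (i + 1) + max (- x (i + 1)) 0 - q * max (- x i) 0) ∧
    0 ≤ (x (i + 1) + max (- x (i + 1)) 0 - q * max (- x i) 0) ∧
    (x (i + 1) + max (- x (i + 1)) 0 - q * max (- x i) 0) ≤ δ (i + 1) := by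
  subst hk
  have hq' : (2 : ℤ) ≤ q := by exact_mod_cast R.hq
  refine ⟨by ring, ?_⟩
  rcases lt_trichotomy (x i) 0 with h | h | h
  · have h1 := R.r2 i (by nlinarith)
    have h2 : 0 ≤ δ (i + 1) := by rcases R.d01 (i + 1) with h | h <;> omega
    have h3 : max (- x i) 0 = - x i := by omega
    have h4 : 0 < x (i + 1) := by nlinarith
    have h5 : max (- x (i + 1)) 0 = 0 := by omega
    rw [h3, h5]
    constructor <;> linarith
  · have h1 := R.r3 i (by rw [h]; ring)
    have h3 : max (- x i) 0 = 0 := by omega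
    rw [h3]
    have h2 : 0 ≤ δ (i + 1) := by rcases R.d01 (i + 1) with h | h <;> omega
    constructor <;> omega
  · have h1 := R.r1 i (by nlinarith)
    have h3 : max (- x i) 0 = 0 := by omega
    have h2 : 0 ≤ δ (i + 1) := by rcases R.d01 (i + 1) with h | h <;> omega
    rw [h3]
    constructor <;> omega

lemma bound_zero (R : Rules q d x δ k) (W : Wr p s x o k r) (hpq : (p : ℤ) ∣ q) (hk : k = 0) :
    (2 - (q : ℤ)) * ∑ i ∈ range d, δ i ≤
      d * k + d * r + q * ∑ i ∈ range d, o i + (2 - (q : ℤ)) * ∑ i ∈ range d, x i := by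
  have hq' : (2 : ℤ) ≤ q := by exact_mod_cast R.hq
  have hr : 0 ≤ r := W.hr' (by rw [hk]; exact dvd_zero _)
  set n : ℕ → ℤ := fun i => max (- x i) 0 with hn
  have nper : ∀ i, n (i + d) = n i := fun i => by simp only [hn, R.xper]
  have nn : ∀ i, 0 ≤ n i := fun i => by simp [hn]
  set e : ℕ → ℤ := fun i => x i + n i - q * n (i + d - 1) with he
  have hd := R.hd
  have key : ∀ i, 0 ≤ e i ∧ e i ≤ δ i := by
    intro i
    have h1 := R.zero_class hk (i + d - 1)
    have h2 : i + d - 1 + 1 = i + d := by omega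
    rw [h2, R.xper, R.dper] at h1
    exact ⟨h1.2.1, h1.2.2⟩
  have eper : ∀ i, e (i + d) = e i := by
    intro i
    simp only [he]
    have h2 : i + d + d - 1 = (i + d - 1) + d := by omega
    rw [R.xper, nper, h2, nper]
  have xeq : ∀ i, x i = q * n (i + d - 1) - n i + e i := fun i => by simp only [he]; ring
  have sumx : ∑ i ∈ range d, x i = (q - 1) * ∑ i ∈ range d, n i + ∑ i ∈ range d, e i := by
    have h1 : ∑ i ∈ range d, n (i + (d - 1)) = ∑ i ∈ range d, n i := sum_shift n d nper (d - 1)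
    have h2 : ∑ i ∈ range d, x i = ∑ i ∈ range d, (q * n (i + (d - 1)) - n i + e i) := by
      refine Finset.sum_congr rfl fun i _ => ?_
      rw [xeq i]
      congr 4
      omega
    rw [h2, Finset.sum_add_distrib, Finset.sum_sub_distrib, ← Finset.mul_sum, h1]
    ring
  have hoi : ∀ i, x i + x (i + s) - n i - n (i + s) - e i - e (i + s) ≤ o i := by
    intro i
    have a1 := W.ho i
    have a2 := W.ho' i
    have b1 := nn i
    have b2 := nn (i + s)
    have b3 := (key i).1
    have b4 := (key (i + s)).1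
    by_cases hz : n i + n (i + s) + e i + e (i + s) = 0
    · have c1 : n i = 0 := by omega
      have c2 : n (i + s) = 0 := by omega
      have c3 : e i = 0 := by omega
      have c4 : e (i + s) = 0 := by omega
      have := a2 (by
        rw [xeq i, xeq (i + s), c1, c2, c3, c4]
        have : (q : ℤ) * n (i + d - 1) - 0 + 0 - (q * n (i + s + d - 1) - 0 + 0) =
          q * (n (i + d - 1) - n (i + s + d - 1)) := by ring
        rw [this]
        exact Dvd.dvd.mul_right hpq _)
      omega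
    · omega
  have sumo : 2 * ∑ i ∈ range d, x i - 2 * ∑ i ∈ range d, n i - 2 * ∑ i ∈ range d, e i ≤
      ∑ i ∈ range d, o i := by
    have h1 : ∑ i ∈ range d, (x i + x (i + s) - n i - n (i + s) - e i - e (i + s)) ≤
      ∑ i ∈ range d, o i := Finset.sum_le_sum fun i _ => hoi i
    simp only [Finset.sum_sub_distrib, Finset.sum_add_distrib] at h1
    rw [sum_shift x d R.xper s, sum_shift n d nper s, sum_shift e d eper s] at h1
    linarith
  have hN : 0 ≤ ∑ i ∈ range d, n i := Finset.sum_nonneg fun i _ => nn i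
  have hE : 0 ≤ ∑ i ∈ range d, e i := Finset.sum_nonneg fun i _ => (key i).1
  have hE' : ∑ i ∈ range d, e i ≤ ∑ i ∈ range d, δ i := Finset.sum_le_sum fun i _ => (key i).2
  set N := ∑ i ∈ range d, n i
  set E := ∑ i ∈ range d, e i
  set S := ∑ i ∈ range d, δ i
  rw [hk, sumx]
  rw [sumx] at sumo
  have h5 : 0 ≤ (d : ℤ) * r := mul_nonneg (by positivity) hr
  have h6 : (q : ℤ) * (2 * ((q - 1) * N + E) - 2 * N - 2 * E) ≤ q * ∑ i ∈ range d, o i :=
    mul_le_mul_of_nonneg_left sumo (by positivity)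
  -- remaining: (q^2-q-2) N + (2-q) E ≥ (2-q) S
  have h7 : 0 ≤ ((q : ℤ) - 2) * (q + 1) * N := by
    apply mul_nonneg (mul_nonneg (by linarith) (by linarith)) hN
  have h8 : 0 ≤ ((q : ℤ) - 2) * (S - E) := mul_nonneg (by linarith) (by linarith)
  nlinarith

end

end Pool.Agent.DrY
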