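import Pool.Agent.Lib.MP_531408_nt.Loc

set_option autoImplicit false

namespace Pool.Agent.DrY

open Finset

section neg

variable {p q d s : ℕ} {x δ o : ℕ → ℤ} {k K r : ℤ}

/-- off the places `T = t i`, with `k = -K < 0` -/
lemma Rules.neg_off_class (R : Rules q d x δ k) (hk : k = -K) (hK : 0 < K)
    (hδ : ∀ i, δ i = 0) :
    (∀ i, (q + 1) * x i = K) ∨ (∀ i, (x i = 0 ∧ x (i + 1) = K) ∨ (x i = K ∧ x (i + 1) = 0)) := by
  have hq' : (2 : ℤ) ≤ q := by exact_mod_cast R.hq
  have r1 : ∀ i, K < q * x i → x (i + 1) = 0 := fun i h => by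
    rw [R.r1 i (by rw [hk]; linarith), hδ]
  have r2 : ∀ i, q * x i < K → x (i + 1) = K - q * x i := fun i h => by
    rw [R.r2 i (by rw [hk]; linarith), hδ, hk]; ring
  have r3 : ∀ i, q * x i = K → x (i + 1) ≤ 0 := fun i h => by
    have := R.r3 i (by rw [hk]; linarith); rwa [hδ] at this
  have hqK : K < q * K := by nlinarith
  -- one zero gives alternation
  have alt : ∀ j, x j = 0 → ∀ m, (x (j + m) = 0 ∧ x (j + m + 1) = K) ∨
      (x (j + m) = K ∧ x (j + m + 1) = 0) := by
    intro j hj m
    induction m with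
    | zero =>
      left
      refine ⟨hj, ?_⟩
      have := r2 j (by rw [hj]; simpa using hK)
      rw [hj] at this
      simpa using this
    | succ m ih =>
      rcases ih with ⟨h1, h2⟩ | ⟨h1, h2⟩
      · right
        refine ⟨h2, ?_⟩
        exact r1 _ (by rw [show j + (m + 1) = j + m + 1 by ring, h2]; exact hqK)
      · left
        refine ⟨h2, ?_⟩
        have := r2 (j + m + 1) (by rw [h2]; simpa using hK)
        rw [h2] at this
        simp only [mul_zero, sub_zero] at this
        exact this
  have alt' : (∃ j, x j = 0) → ∀ i, (x i = 0 ∧ x (i + 1) = K) ∨ (x i = K ∧ x (i + 1) = 0) := by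
    rintro ⟨j, hj⟩ i
    have h1 := per_mul x d R.xper i j
    have h2 := per_mul x d R.xper (i + 1) j
    have hle : j ≤ i + j * d := by
      have := R.hd
      nlinarith
    obtain ⟨m, hm⟩ := Nat.exists_eq_add_of_le hle
    rw [← h1, ← h2]
    have h3 : i + 1 + j * d = j + m + 1 := by omega
    rw [h3, hm]
    exact alt j hj m
  by_cases hlin : ∀ i, q * x i < K
  · left
    intro i
    have h1 : ∀ m, (q + 1) * x (i + m) - K = (-(q : ℤ)) ^ m * ((q + 1) * x i - K) := by
      intro m
      induction m with
      | zero => simp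
      | succ m ih =>
        rw [← add_assoc, r2 (i + m) (hlin _), pow_succ]
        have : (q + 1) * (K - q * x (i + m)) - K = (-(q : ℤ)) * ((q + 1) * x (i + m) - K) := by
          ring
        rw [this, ih]
        ring
    have h2 := h1 d
    rw [R.xper] at h2
    set y := (q + 1) * x i - K with hy
    have h3 : |y| = |(-(q : ℤ)) ^ d| * |y| := by rw [← abs_mul, ← h2]
    have h4 : |(-(q : ℤ)) ^ d| = (q : ℤ) ^ d := by
      rw [abs_pow, abs_neg, Nat.abs_cast]
    rw [h4] at h3
    have h5 : (2 : ℤ) ≤ (q : ℤ) ^ d := by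
      calc (2 : ℤ) ≤ q := hq'
        _ = (q : ℤ) ^ 1 := (pow_one _).symm
        _ ≤ (q : ℤ) ^ d := pow_le_pow_right₀ (by linarith) (by have := R.hd; omega)
    have h6 : |y| = 0 := by
      have := abs_nonneg y
      nlinarith
    have h7 : y = 0 := abs_eq_zero.mp h6
    linarith
  · right
    push Not at hlin
    obtain ⟨i, hi⟩ := hlin
    apply alt'
    rcases hi.lt_or_eq with h | h
    · exact ⟨_, r1 i h⟩
    · have h1 := r3 i h.symm
      have h2 := r2 (i + 1) (by nlinarith)
      have h3 := r1 (i + 2) (by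
        rw [show i + 2 = i + 1 + 1 by ring, h2]
        have h4 : (q : ℤ) * (q * x (i + 1)) ≤ 0 :=
          mul_nonpos_of_nonneg_of_nonpos (by positivity)
            (mul_nonpos_of_nonneg_of_nonpos (by positivity) h1)
        nlinarith)
      exact ⟨_, h3⟩

/-- bound off `p` for `k < 0`, shift `2`. -/
lemma bound_neg_off (R : Rules q d x δ k) (W : Wr p 2 x o k r) (hk : k = -K) (hK : 0 < K)
    (hδ : ∀ i, δ i = 0) :
    0 ≤ d * k + d * r + q * ∑ i ∈ range d, o i + (2 - (q : ℤ)) * ∑ i ∈ range d, x i := by
  have hq' : (2 : ℤ) ≤ q := by exact_mod_cast R.hq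
  have hd' : (3 : ℤ) ≤ d := by exact_mod_cast R.hd
  have hx2 : ∀ i, x (i + 2) = x i := by
    rcases R.neg_off_class hk hK hδ with h | h
    · intro i
      have h1 := h i
      have h2 := h (i + 2)
      have : ((q : ℤ) + 1) * x (i + 2) = (q + 1) * x i := by rw [h1, h2]
      exact mul_left_cancel₀ (by positivity) this
    · intro i
      have h1 := h i
      have h2 := h (i + 1)
      rw [show i + 1 + 1 = i + 2 by ring] at h2
      rcases h1 with h1 | h1 <;> rcases h2 with h2 | h2
      · omega
      · omega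
      · omega
      · omega
  have ho : ∑ i ∈ range d, (2 * x i) ≤ ∑ i ∈ range d, o i := by
    apply Finset.sum_le_sum
    intro i _
    have := W.ho' i (by rw [hx2]; simp)
    rw [hx2] at this
    linarith
  rw [← Finset.mul_sum] at ho
  have hr := W.hr
  set X := ∑ i ∈ range d, x i with hX
  have h1 : (q : ℤ) * (2 * X) ≤ q * ∑ i ∈ range d, o i :=
    mul_le_mul_of_nonneg_left ho (by positivity)
  suffices h : 0 ≤ -(d : ℤ) * K + d * r + (q + 2) * X by
    rw [hk]; nlinarith
  rcases R.neg_off_class hk hK hδ with h | h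
  · have h2 : ((q : ℤ) + 1) * X = d * K := by
      rw [hX, Finset.mul_sum, Finset.sum_congr rfl (fun i _ => h i)]
      simp
    have h3 : ∀ i, 1 ≤ x i := by
      intro i
      have := h i
      by_contra hcon
      push Not at hcon
      have : x i ≤ 0 := by omega
      nlinarith
    have h4 : (d : ℤ) ≤ X := by
      calc (d : ℤ) = ∑ i ∈ range d, (1 : ℤ) := by simp
        _ ≤ X := Finset.sum_le_sum fun i _ => h3 i
    nlinarith
  · have h2 : 2 * X = d * K := by
      have h3 : ∑ i ∈ range d, (x i + x (i + 1)) = ∑ i ∈ range d, K := by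
        refine Finset.sum_congr rfl fun i _ => ?_
        rcases h i with h | h <;> rw [h.1, h.2] <;> ring
      rw [Finset.sum_add_distrib, sum_shift x d R.xper 1] at h3
      simp at h3
      linarith
    have h5 : 0 ≤ (d : ℤ) * (q * K + 2 * r) := by
      apply mul_nonneg (by positivity)
      nlinarith
    nlinarith

/-- bound off `p` for the second master function -/
lemma bound2_off (R : Rules q d x δ k) (hδ : ∀ i, δ i = 0) (hB : ¬ (0 < k ∧ ∀ i, k + q * x i = 0)) :
    0 ≤ d * k + (q + 1) * ∑ i ∈ range d, x i := by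
  have hq' : (2 : ℤ) ≤ q := by exact_mod_cast R.hq
  have hd' : (3 : ℤ) ≤ d := by exact_mod_cast R.hd
  rcases lt_trichotomy k 0 with hk | hk | hk
  · rcases R.neg_off_class (K := -k) (by ring) (by linarith) hδ with h | h
    · have h2 : ((q : ℤ) + 1) * ∑ i ∈ range d, x i = d * (-k) := by
        rw [Finset.mul_sum, Finset.sum_congr rfl (fun i _ => h i)]
        simp
      linarith
    · have h2 : 2 * ∑ i ∈ range d, x i = d * (-k) := by
        have h3 : ∑ i ∈ range d, (x i + x (i + 1)) = ∑ i ∈ range d, (-k) := by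
          refine Finset.sum_congr rfl fun i _ => ?_
          rcases h i with h | h <;> rw [h.1, h.2] <;> ring
        rw [Finset.sum_add_distrib, sum_shift x d R.xper 1] at h3
        simp at h3
        linarith
      have h4 : 0 ≤ ∑ i ∈ range d, x i := by nlinarith
      have h5 : 0 ≤ ((q : ℤ) - 1) * ∑ i ∈ range d, x i := mul_nonneg (by linarith) h4
      nlinarith
  · have h1 : 0 ≤ ∑ i ∈ range d, x i := by
      rw [← sum_shift x d R.xper 1]
      have h2 : ∑ i ∈ range d, (q * max (- x i) 0 - max (- x (i + 1)) 0) ≤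
          ∑ i ∈ range d, x (i + 1) := by
        refine Finset.sum_le_sum fun i _ => ?_
        have := R.zero_class hk i
        linarith [this.1, this.2.1]
      rw [Finset.sum_sub_distrib, ← Finset.mul_sum,
        sum_shift (fun i => max (- x i) 0) d (fun i => by simp only [R.xper]) 1] at h2
      have h3 : 0 ≤ ∑ i ∈ range d, max (- x i) 0 := Finset.sum_nonneg fun i _ => le_max_right _ _
      nlinarith
    rw [hk]
    nlinarith
  · rcases R.pos_class hk with h | h
    · have : ∑ i ∈ range d, x i = 0 := Finset.sum_eq_zero fun i _ => by rw [h, hδ]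
      rw [this]
      have : 0 ≤ (d : ℤ) * k := by positivity
      linarith
    · exact absurd ⟨hk, h⟩ hB

end neg

end Pool.Agent.DrY
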