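import Pool.Agent.Lib.MP_531408_nt.LocOff

set_option autoImplicit false

namespace Pool.Agent.DrY

open Finset

/-- the sequence alternates between `0` and `K` from index `j0` up to index `d - 1`. -/
def Tl (x : ℕ → ℤ) (K : ℤ) (d j0 : ℕ) : Prop :=
  ∀ j, j0 ≤ j → j < d → (x j = 0 ∧ (j + 1 < d → x (j + 1) = K)) ∨
    (x j = K ∧ (j + 1 < d → x (j + 1) = 0))

lemma Tl.sum {x : ℕ → ℤ} {K : ℤ} {d j0 : ℕ} (h : Tl x K d j0) {j : ℕ} (h1 : j0 ≤ j)
    (h2 : j + 1 < d) : x j + x (j + 1) = K := by
  rcases h j h1 (by omega) with ⟨a, b⟩ | ⟨a, b⟩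
  · rw [a, b h2]; ring
  · rw [a, b h2]; ring

lemma Tl.two {x : ℕ → ℤ} {K : ℤ} {d j0 : ℕ} (h : Tl x K d j0) {j : ℕ} (h1 : j0 ≤ j)
    (h2 : j + 2 < d) : x (j + 2) = x j := by
  have a := h.sum h1 (by omega)
  have b := h.sum (j := j + 1) (by omega) (by omega)
  rw [show j + 1 + 1 = j + 2 by ring] at b
  linarith

section P

variable {p q d s : ℕ} {x δ o : ℕ → ℤ} {k K r : ℤ}

/-- classification of the possible orders at the place `T = t 0` when `k = -K < 0` -/
theorem Rules.classP (R : Rules q d x δ k) (hk : k = -K) (hK : 0 < K) (hδ0 : δ 0 = 1)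
    (hδ : ∀ i, 0 < i → i < d → δ i = 0) :
    (x 0 = 1 + K ∧ x 1 = 0 ∧ Tl x K d 1 ∧ x (d - 1) = 0) ∨
    (x 0 = 1 ∧ K < q ∧ x 1 = 0 ∧ Tl x K d 1 ∧ x (d - 1) = K) ∨
    (∃ m : ℤ, 0 ≤ m ∧ x 0 = 1 ∧ K = q ∧ x 1 = -m ∧ x 2 = q + q * m ∧
      (d = 3 ∨ (5 ≤ d ∧ x 3 = 0 ∧ Tl x K d 3 ∧ x (d - 1) = K))) ∨
    (x 0 = 1 ∧ (q : ℤ) + 2 ≤ K ∧ x 1 = K - q ∧ x 2 = 0 ∧ 4 ≤ d ∧ Tl x K d 2 ∧
      x (d - 1) = K) ∨
    (∃ m : ℤ, 0 ≤ m ∧ q = 2 ∧ K = 4 ∧ x 0 = 1 ∧ x 1 = 2 ∧ x 2 = -m ∧ x 3 = 4 + 2 * m ∧
      (d = 4 ∨ (6 ≤ d ∧ x 4 = 0 ∧ Tl x K d 4 ∧ x (d - 1) = 4))) := by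
  have hq' : (2 : ℤ) ≤ q := by exact_mod_cast R.hq
  have hd := R.hd
  have r1 : ∀ i, i + 1 < d → K < q * x i → x (i + 1) = 0 := fun i hi h => by
    rw [R.r1 i (by rw [hk]; linarith), hδ _ (by omega) hi]
  have r2 : ∀ i, i + 1 < d → q * x i < K → x (i + 1) = K - q * x i := fun i hi h => by
    rw [R.r2 i (by rw [hk]; linarith), hδ _ (by omega) hi, hk]; ring
  have r3 : ∀ i, i + 1 < d → q * x i = K → x (i + 1) ≤ 0 := fun i hi h => by
    have := R.r3 i (by rw [hk]; linarith); rwa [hδ _ (by omega) hi] at this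
  have hxd : x d = x 0 := by have := R.xper 0; rwa [zero_add] at this
  have hdd : δ d = 1 := by have := R.dper 0; rw [zero_add] at this; rw [this, hδ0]
  have hd1 : d - 1 + 1 = d := by omega
  have e1 : K < q * x (d - 1) → x 0 = 1 := fun h => by
    have := R.r1 (d - 1) (by rw [hk]; linarith)
    rwa [hd1, hxd, hdd] at this
  have e2 : q * x (d - 1) < K → x 0 = 1 + K - q * x (d - 1) := fun h => by
    have := R.r2 (d - 1) (by rw [hk]; linarith)
    rw [hd1, hxd, hdd, hk] at this
    linarith
  have e3 : q * x (d - 1) = K → x 0 ≤ 1 := fun h => by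
    have := R.r3 (d - 1) (by rw [hk]; linarith)
    rwa [hd1, hxd, hdd] at this
  have hqK : K < q * K := by nlinarith
  -- a zero at index j gives a tail
  have tail : ∀ j0, x j0 = 0 → Tl x K d j0 := by
    intro j0 h0 j hj
    induction j, hj using Nat.le_induction with
    | base =>
      intro hjd
      left
      refine ⟨h0, fun h => ?_⟩
      have := r2 j0 h (by rw [h0]; simpa using hK)
      rw [h0] at this
      simpa using this
    | succ j hj ih =>
      intro hjd
      rcases ih (by omega) with ⟨h1, h2⟩ | ⟨h1, h2⟩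
      · right
        have h3 := h2 hjd
        refine ⟨h3, fun h => ?_⟩
        exact r1 _ h (by rw [h3]; exact hqK)
      · left
        have h3 := h2 hjd
        refine ⟨h3, fun h => ?_⟩
        have := r2 (j + 1) h (by rw [h3]; simpa using hK)
        rw [h3] at this
        simp only [mul_zero, sub_zero] at this
        exact this
  -- consequence at the end
  have tend : ∀ j0, j0 < d → x j0 = 0 → (x (d - 1) = 0 ∧ x 0 = 1 + K) ∨
      (x (d - 1) = K ∧ x 0 = 1) := by
    intro j0 hj0 h0
    rcases tail j0 h0 (d - 1) (by omega) (by omega) with ⟨h1, _⟩ | ⟨h1, _⟩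
    · left
      refine ⟨h1, ?_⟩
      have := e2 (by rw [h1]; simpa using hK)
      rw [h1] at this
      simpa using this
    · right
      exact ⟨h1, e1 (by rw [h1]; exact hqK)⟩
  -- big value at an index < d
  have big : ∀ j, j < d → K ≤ q * x j → x 0 ≤ 1 ∨ 1 + K ≤ x 0 := by
    intro j hj hb
    rcases hb.lt_or_eq with h | h
    · by_cases hj1 : j + 1 < d
      · rcases tend _ hj1 (r1 j hj1 h) with ⟨_, h2⟩ | ⟨_, h2⟩
        · right; omega
        · left; omega
      · have : j = d - 1 := by omega
        subst this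
        left
        rw [e1 h]
    · by_cases hj1 : j + 1 < d
      · have h1 := r3 j hj1 h.symm
        have h1' : (q : ℤ) * x (j + 1) ≤ 0 := mul_nonpos_of_nonneg_of_nonpos (by positivity) h1
        by_cases hj2 : j + 1 + 1 < d
        · have h2 := r2 (j + 1) hj2 (by linarith)
          have h3 : K < q * x (j + 1 + 1) := by
            rw [h2]
            have : (q : ℤ) * (q * x (j + 1)) ≤ 0 :=
              mul_nonpos_of_nonneg_of_nonpos (by positivity) h1'
            nlinarith
          by_cases hj3 : j + 1 + 1 + 1 < d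
          · rcases tend _ hj3 (r1 _ hj3 h3) with ⟨_, h2⟩ | ⟨_, h2⟩
            · right; omega
            · left; omega
          · have : j + 1 + 1 = d - 1 := by omega
            rw [this] at h3
            left
            rw [e1 h3]
        · have : j + 1 = d - 1 := by omega
          rw [this] at h1'
          right
          have := e2 (by linarith)
          linarith
      · have : j = d - 1 := by omega
        subst this
        left
        exact e3 h.symm
  rcases lt_trichotomy ((q : ℤ) * x 0) K with h0 | h0 | h0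
  · -- linear first step
    have hx1 := r2 0 (by omega) h0
    rw [zero_add] at hx1
    -- x 0 ≥ 1
    have hx0pos : 1 ≤ x 0 := by
      by_contra hcon
      push Not at hcon
      have hx0 : x 0 ≤ 0 := by omega
      have h1' : (q : ℤ) * x 0 ≤ 0 := mul_nonpos_of_nonneg_of_nonpos (by positivity) hx0
      have h1 : K < q * x 1 := by
        rw [hx1]
        have : (q : ℤ) * (q * x 0) ≤ 0 :=
          mul_nonpos_of_nonneg_of_nonpos (by positivity) h1'
        nlinarith
      have h2 := r1 1 (by omega) h1
      rcases tend _ (by omega) h2 with ⟨_, h3⟩ | ⟨_, h3⟩ <;> omega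
    -- x 0 = 1
    have hx0 : x 0 = 1 := by
      by_contra hne
      have hx2 : 2 ≤ x 0 := by omega
      have hlin : ∀ j, j < d → q * x j < K := by
        intro j hj
        by_contra hcon
        push Not at hcon
        rcases big j hj hcon with h | h
        · omega
        · nlinarith
      have hy : ∀ j, j < d → (q + 1) * x j - K = (-(q : ℤ)) ^ j * ((q + 1) * x 0 - K) := by
        intro j
        induction j with
        | zero => intro _; simp
        | succ j ih =>
          intro hj
          rw [r2 j hj (hlin j (by omega)), pow_succ]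
          have h1 := ih (by omega)
          have : (q + 1) * (K - q * x j) - K = (-(q : ℤ)) * ((q + 1) * x j - K) := by ring
          rw [this, h1]
          ring
      have h1 := hy (d - 1) (by omega)
      have h2 := e2 (hlin (d - 1) (by omega))
      set y := ((q : ℤ) + 1) * x 0 - K with hydef
      have h3 : y * (1 - (-(q : ℤ)) ^ d) = q + 1 := by
        have h4 : (-(q : ℤ)) ^ d = (-(q : ℤ)) ^ (d - 1) * (-(q : ℤ)) := by
          rw [← pow_succ, hd1]
        rw [h4]
        have h5 : (-(q : ℤ)) ^ (d - 1) * y = (q + 1) * x (d - 1) - K := h1.symm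
        calc y * (1 - (-(q : ℤ)) ^ (d - 1) * -(q : ℤ))
            = y + q * ((-(q : ℤ)) ^ (d - 1) * y) := by ring
          _ = y + q * ((q + 1) * x (d - 1) - K) := by rw [h5]
          _ = q + 1 := by rw [hydef]; rw [h2]; ring
      have h4 : |y| * |1 - (-(q : ℤ)) ^ d| = q + 1 := by
        rw [← abs_mul, h3, abs_of_pos (by positivity)]
      have h5 : 1 ≤ |y| := by
        have : y ≠ 0 := by
          intro h
          rw [h, zero_mul] at h3
          linarith
        exact Int.one_le_abs this
      have h6 : |1 - (-(q : ℤ)) ^ d| ≤ q + 1 := by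
        have := abs_nonneg (1 - (-(q : ℤ)) ^ d)
        nlinarith
      have h7 : (q : ℤ) ^ d - 1 ≤ |1 - (-(q : ℤ)) ^ d| := by
        have h8 : |(-(q : ℤ)) ^ d| = (q : ℤ) ^ d := by rw [abs_pow, abs_neg, Nat.abs_cast]
        have h9 := abs_sub_abs_le_abs_sub ((-(q : ℤ)) ^ d) 1
        rw [h8, abs_one, abs_sub_comm] at h9
        exact h9
      have h8 : (q : ℤ) ^ 3 ≤ (q : ℤ) ^ d := pow_le_pow_right₀ (by linarith) hd
      have h9 : 4 ≤ (q : ℤ) ^ 2 := by nlinarith
      have h10 : (q : ℤ) ^ 3 = q * (q : ℤ) ^ 2 := by ring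
      have h11 : 4 * (q : ℤ) ≤ (q : ℤ) ^ 3 := by rw [h10]; nlinarith
      linarith
    rw [hx0, mul_one] at hx1 h0
    have hKq : (q : ℤ) + 2 ≤ K := by
      by_contra hcon
      have hK1 : K = q + 1 := by omega
      have hone : ∀ j, j < d → x j = 1 := by
        intro j
        induction j with
        | zero => intro _; exact hx0
        | succ j ih =>
          intro hj
          have h1 := ih (by omega)
          rw [r2 j hj (by rw [h1]; linarith), h1]
          linarith
      have h1 := hone (d - 1) (by omega)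
      have h2 := e2 (by rw [h1]; linarith)
      rw [h1, hx0] at h2
      linarith
    have hx1K : K ≤ q * x 1 := by rw [hx1]; nlinarith
    rcases hx1K.lt_or_eq with h1 | h1
    · have hx2 := r1 1 (by omega) h1
      rw [show 1 + 1 = 2 from rfl] at hx2
      rcases tend 2 (by omega) hx2 with ⟨a, b⟩ | ⟨a, b⟩
      · omega
      · have hd4 : 4 ≤ d := by
          by_contra hcon
          have : d = 3 := by omega
          subst this
          rw [show 3 - 1 = 2 from rfl, hx2] at a
          omega
        right; right; right; left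
        exact ⟨hx0, hKq, hx1, hx2, hd4, tail 2 hx2, a⟩
    · -- equality case: q = 2, K = 4
      have hq2 : q = 2 := by
        have : (q : ℤ) ≤ 2 := by rw [hx1] at h1; nlinarith
        have h3 : q ≤ 2 := by exact_mod_cast this
        have := R.hq
        omega
      subst hq2
      have hK4 : K = 4 := by rw [hx1] at h1; push_cast at h1; linarith
      have hx2 := r3 1 (by omega) h1.symm
      rw [show 1 + 1 = 2 from rfl] at hx2
      have hd4 : 4 ≤ d := by
        by_contra hcon
        have : d = 3 := by omega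
        subst this
        have h3 := e2 (by rw [show 3 - 1 = 2 from rfl]; push_cast; linarith)
        rw [show 3 - 1 = 2 from rfl] at h3
        push_cast at h3
        linarith
      have hx3 := r2 2 (by omega) (by push_cast; linarith)
      rw [show 2 + 1 = 3 from rfl] at hx3
      right; right; right; right
      refine ⟨- x 2, by linarith, rfl, hK4, hx0, ?_, by ring, ?_, ?_⟩
      · rw [hx1, hK4]; norm_num
      · rw [hx3, hK4]; push_cast; ring
      · by_cases h4 : d = 4
        · exact Or.inl h4
        right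
        have hx4 := r1 3 (by omega) (by rw [hx3, hK4]; push_cast; linarith)
        rw [show 3 + 1 = 4 from rfl] at hx4
        rcases tend 4 (by omega) hx4 with ⟨a, b⟩ | ⟨a, b⟩
        · omega
        · refine ⟨?_, hx4, tail 4 hx4, by rw [a, hK4]⟩
          by_contra hcon
          have : d = 5 := by omega
          subst this
          rw [show 5 - 1 = 4 from rfl, hx4] at a
          omega
  · -- q x0 = K
    have h1 := r3 0 (by omega) h0
    rw [zero_add] at h1
    have h1' : (q : ℤ) * x 1 ≤ 0 := mul_nonpos_of_nonneg_of_nonpos (by positivity) h1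
    have h2 := r2 1 (by omega) (by linarith)
    rw [show 1 + 1 = 2 from rfl] at h2
    have h3 : K < q * x 2 := by
      rw [h2]
      have : (q : ℤ) * (q * x 1) ≤ 0 := mul_nonpos_of_nonneg_of_nonpos (by positivity) h1'
      nlinarith
    have hx0 : x 0 = 1 ∧ (d = 3 ∨ (5 ≤ d ∧ x 3 = 0 ∧ Tl x K d 3 ∧ x (d - 1) = K)) := by
      by_cases h4 : d = 3
      · subst h4
        exact ⟨e1 h3, Or.inl rfl⟩
      · have h5 := r1 2 (by omega) h3
        rw [show 2 + 1 = 3 from rfl] at h5
        rcases tend 3 (by omega) h5 with ⟨a, b⟩ | ⟨a, b⟩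
        · exfalso
          rw [b] at h0
          nlinarith
        · refine ⟨b, Or.inr ⟨?_, h5, tail 3 h5, a⟩⟩
          by_contra hcon
          have : d = 4 := by omega
          subst this
          rw [show 4 - 1 = 3 from rfl, h5] at a
          omega
    right; right; left
    refine ⟨- x 1, by linarith, hx0.1, ?_, by ring, ?_, hx0.2⟩
    · rw [← h0, hx0.1]; ring
    · rw [h2, ← h0, hx0.1]; ring
  · have h1 := r1 0 (by omega) h0
    rw [zero_add] at h1
    rcases tend 1 (by omega) h1 with ⟨a, b⟩ | ⟨a, b⟩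
    · left
      exact ⟨b, h1, tail 1 h1, a⟩
    · right; left
      rw [b, mul_one] at h0
      exact ⟨b, h0, h1, tail 1 h1, a⟩

end P

end Pool.Agent.DrY
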