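import Pool.Agent.Lib.MP_531408_nt.LocP

set_option autoImplicit false

namespace Pool.Agent.DrY

open Finset

section P2

variable {p q d s : ℕ} {x δ o : ℕ → ℤ} {k K r : ℤ}

lemma Wr.exists_w {s : ℕ} (W : Wr p s x o k r) :
    ∃ w : ℕ → ℤ, ∀ i, 0 ≤ w i ∧ w i ≤ 1 ∧ x i + x (i + s) - w i ≤ o i ∧
      ((p : ℤ) ∣ x i - x (i + s) → w i = 0) := by
  classical
  refine ⟨fun i => if (p : ℤ) ∣ x i - x (i + s) then 0 else 1, fun i => ?_⟩
  by_cases h : (p : ℤ) ∣ x i - x (i + s)
  · simp only [if_pos h]
    have := W.ho' i h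
    exact ⟨le_rfl, by norm_num, by linarith, fun _ => by trivial⟩
  · simp only [if_neg h]
    have := W.ho i
    exact ⟨by norm_num, le_rfl, by linarith, fun h' => absurd h' h⟩

lemma Tl.parity (hT : Tl x K d 1) (h1 : x 1 = 0) : ∀ i, 1 ≤ i → i < d →
    x i = if Even i then K else 0 := by
  intro i hi
  induction i, hi using Nat.le_induction with
  | base => intro _; rw [h1]; simp
  | succ i hi ih =>
    intro hid
    have h2 := hT.sum hi hid
    have h3 := ih (by omega)
    rcases Nat.even_or_odd i with h4 | h4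
    · rw [if_pos h4] at h3
      have h5 : ¬ Even (i + 1) := by rw [Nat.not_even_iff_odd]; exact h4.add_one
      rw [if_neg h5]
      omega
    · rw [if_neg (Nat.not_even_iff_odd.mpr h4)] at h3
      have h5 : Even (i + 1) := h4.add_one
      rw [if_pos h5]
      omega

/-- bound at `T = t 0` for `k < 0`, shift `2`. -/
theorem bound_neg_p (R : Rules q d x δ k) (W : Wr p 2 x o k r) (hp : p.Prime)
    (hpq : (p : ℤ) ∣ q) (hk : k = -K) (hK : 0 < K) (hδ0 : δ 0 = 1)
    (hδ : ∀ i, 0 < i → i < d → δ i = 0) (h33 : ¬ (q = 3 ∧ d = 3))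
    (h21 : ¬ (q = 2 ∧ K = 1 ∧ Odd d)) :
    2 - (q : ℤ) ≤
      d * k + d * r + q * ∑ i ∈ range d, o i + (2 - (q : ℤ)) * ∑ i ∈ range d, x i := by
  have hq' : (2 : ℤ) ≤ q := by exact_mod_cast R.hq
  have hd := R.hd
  have hd' : (3 : ℤ) ≤ d := by exact_mod_cast hd
  obtain ⟨w, hw⟩ := W.exists_w
  have hxd : x d = x 0 := by have := R.xper 0; rwa [zero_add] at this
  have hd1 : d - 1 + 1 = d := by omega
  have hr := W.hr
  have hr' : (p : ℤ) ∣ K → 0 ≤ r := fun h => W.hr' (by rw [hk]; exact (dvd_neg).mpr h)
  set h : ℕ → ℤ := fun i => -2 * K + 2 * r + (q + 2) * (x i + x (i + 1)) - 2 * q * w i with hdef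
  have main : ∑ i ∈ range d, h i ≤ 2 * (d * k + d * r + q * ∑ i ∈ range d, o i +
      (2 - (q : ℤ)) * ∑ i ∈ range d, x i) := by
    have h1 : ∑ i ∈ range d, (x i + x (i + 2) - w i) ≤ ∑ i ∈ range d, o i :=
      Finset.sum_le_sum fun i _ => (hw i).2.2.1
    rw [Finset.sum_sub_distrib, Finset.sum_add_distrib, sum_shift x d R.xper 2] at h1
    have h2 : ∑ i ∈ range d, h i = d * (-2 * K + 2 * r) +
        (q + 2) * (∑ i ∈ range d, x i + ∑ i ∈ range d, x (i + 1)) -
        2 * q * ∑ i ∈ range d, w i := by
      simp only [hdef, Finset.sum_sub_distrib, Finset.sum_add_distrib, ← Finset.mul_sum,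
        Finset.sum_const, Finset.card_range, nsmul_eq_mul]
      ring
    rw [h2, sum_shift x d R.xper 1, hk]
    have h3 : (q : ℤ) * (∑ i ∈ range d, x i + ∑ i ∈ range d, x i - ∑ i ∈ range d, w i) ≤
      q * ∑ i ∈ range d, o i := mul_le_mul_of_nonneg_left h1 (by positivity)
    nlinarith
  suffices hs : 2 * (2 - (q : ℤ)) ≤ ∑ i ∈ range d, h i by linarith
  have hB0 : 0 ≤ q * K + 2 * r := by nlinarith
  have hmid : ∀ j0, Tl x K d j0 → ∀ i, j0 ≤ i → i + 2 < d → q * K + 2 * r ≤ h i := by
    intro j0 hT i hi hi2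
    have h1 := hT.sum hi (by omega)
    have h2 := hT.two hi hi2
    have h3 := (hw i).2.2.2 (by rw [h2]; simp)
    simp only [hdef]
    rw [h1, h3]
    linarith
  have hwq : ∀ i, 2 * q * w i ≤ 2 * q := fun i => by
    have := (hw i).2.1
    nlinarith
  have hwK : ∀ i, 0 ≤ w i := fun i => (hw i).1
  rcases R.classP hk hK hδ0 hδ with ⟨a1, a2, a3, a4⟩ | ⟨a1, a2, a3, a4, a5⟩ |
    ⟨m, b0, b1, b2, b3, b4, b5⟩ | ⟨a1, a2, a3, a4, a5, a6, a7⟩ |
    ⟨m, b0, b1, b2, b3, b4, b5, b6, b7⟩
  · -- E1
    have hs := sum_lower h 1 d (by omega) _ (hmid 1 a3)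
    have hmulB : 0 ≤ ((d : ℤ) - 2 - 1) * (q * K + 2 * r) := mul_nonneg (by linarith) hB0
    have c0 : -2 * K + 2 * r + (q + 2) * (1 + K) - 2 * q ≤ h 0 := by
      simp only [hdef, zero_add]
      rw [a1, a2]
      have := hwq 0
      linarith
    have c1 : -2 * K + 2 * r + (q + 2) * K - 2 * q ≤ h (d - 2) := by
      have h1 := a3.sum (j := d - 2) (by omega) (by omega)
      simp only [hdef]
      rw [h1]
      have := hwq (d - 2)
      linarith
    have c2 : -2 * K + 2 * r + (q + 2) * (1 + K) ≤ h (d - 1) := by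
      have h1 : w (d - 1) = 0 := (hw (d - 1)).2.2.2 (by
        rw [show d - 1 + 2 = 1 + d by omega, R.xper, a4, a2]; simp)
      simp only [hdef]
      rw [hd1, hxd, a4, a1, h1]
      linarith
    rw [Finset.sum_range_one] at hs
    push_cast at hs
    nlinarith
  · -- O1
    have hs := sum_lower h 1 d (by omega) _ (hmid 1 a4)
    have hx2 : x 2 = K := by
      have := a4.sum (j := 1) (by omega) (by omega)
      rw [a3] at this
      simpa using this
    have c0 : -2 * K + 2 * r + (q + 2) - 2 * q * w 0 ≤ h 0 := by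
      simp only [hdef, zero_add]
      rw [a1, a3]
      linarith
    have c1 : -2 * K + 2 * r + (q + 2) * K - 2 * q ≤ h (d - 2) := by
      have h1 := a4.sum (j := d - 2) (by omega) (by omega)
      simp only [hdef]
      rw [h1]
      have := hwq (d - 2)
      linarith
    have c2 : -2 * K + 2 * r + (q + 2) * (K + 1) - 2 * q * w (d - 1) ≤ h (d - 1) := by
      simp only [hdef]
      rw [hd1, hxd, a5, a1]
    have hw0 : K = 1 → w 0 = 0 := fun h1 => (hw 0).2.2.2 (by
      rw [zero_add, a1, hx2, h1]; simp)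
    have hwd : (p : ℤ) ∣ K → w (d - 1) = 0 := fun h1 => (hw (d - 1)).2.2.2 (by
      rw [show d - 1 + 2 = 1 + d by omega, R.xper, a5, a3]; simpa using h1)
    rw [Finset.sum_range_one] at hs
    push_cast at hs
    have hwd1 := hwq (d - 1)
    have hw01 := hwq 0
    rcases (by omega : K = 1 ∨ K = 2 ∨ 3 ≤ K) with hK1 | hK2 | hK3
    · have h1 := hw0 hK1
      have hq3 : 3 ≤ q := by
        by_contra hcon
        refine h21 ⟨by have := R.hq; omega, hK1, ?_⟩
        by_contra hodd
        have heven : Even d := Nat.not_odd_iff_even.mp hodd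
        have hpar := a4.parity a3 (d - 1) (by omega) (by omega)
        have : ¬ Even (d - 1) := by
          rw [Nat.not_even_iff_odd]
          obtain ⟨e, he⟩ := heven
          exact ⟨e - 1, by omega⟩
        rw [if_neg this, a5] at hpar
        omega
      have hq3' : (3 : ℤ) ≤ q := by exact_mod_cast hq3
      have hB : (q : ℤ) - 2 ≤ q * K + 2 * r := by rw [hK1]; linarith
      have hdB : ((d : ℤ) - 2 - 1) * ((q : ℤ) - 2) ≤ ((d : ℤ) - 2 - 1) * (q * K + 2 * r) :=
        mul_le_mul_of_nonneg_left hB (by linarith)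
      rw [h1] at c0
      rw [hK1] at c0 c1 c2
      rcases (by omega : q = 3 ∨ 4 ≤ q) with hq3e | hq4
      · have hd5 : 5 ≤ d := by
          by_contra hcon
          have hd34 : d = 3 ∨ d = 4 := by omega
          rcases hd34 with h5 | h5
          · exact h33 ⟨hq3e, h5⟩
          · subst h5
            have := a4.sum (j := 2) (by omega) (by omega)
            rw [hx2, show 2 + 1 = 4 - 1 from rfl, a5] at this
            omega
        have hd5' : (5 : ℤ) ≤ d := by exact_mod_cast hd5
        subst hq3e
        push_cast at *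
        linarith
      · have hq4' : (4 : ℤ) ≤ q := by exact_mod_cast hq4
        have : 0 ≤ ((d : ℤ) - 2 - 1) * ((q : ℤ) - 2) := mul_nonneg (by linarith) (by linarith)
        linarith
    · by_cases hp2 : p = 2
      · have hpK : (p : ℤ) ∣ K := by rw [hp2, hK2]; norm_num
        have h1 := hr' hpK
        have h2 := hwd hpK
        rw [h2] at c2
        have hmulB : 0 ≤ ((d : ℤ) - 2 - 1) * (q * K + 2 * r) := mul_nonneg (by linarith) hB0
        subst hK2
        linarith
      · have hq2 : q ≠ 2 := by
          rintro rfl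
          have : p ∣ 2 := by exact_mod_cast hpq
          exact hp2 ((Nat.prime_dvd_prime_iff_eq hp Nat.prime_two).mp this)
        have hq4 : q ≠ 4 := by
          rintro rfl
          have : p ∣ 2 ^ 2 := by exact_mod_cast hpq
          have := hp.dvd_of_dvd_pow this
          exact hp2 ((Nat.prime_dvd_prime_iff_eq hp Nat.prime_two).mp this)
        have hB : 2 * (q : ℤ) - 2 ≤ q * K + 2 * r := by rw [hK2]; linarith
        have hdB : ((d : ℤ) - 2 - 1) * (2 * (q : ℤ) - 2) ≤
            ((d : ℤ) - 2 - 1) * (q * K + 2 * r) :=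
          mul_le_mul_of_nonneg_left hB (by linarith)
        rcases (by have := R.hq; omega : q = 3 ∨ 5 ≤ q) with hq3e | hq5
        · have hd4 : 4 ≤ d := by
            by_contra hcon
            exact h33 ⟨hq3e, by omega⟩
          have hd4' : (4 : ℤ) ≤ d := by exact_mod_cast hd4
          subst hq3e
          rw [hK2] at c0 c1 c2
          push_cast at *
          linarith
        · have hq5' : (5 : ℤ) ≤ q := by exact_mod_cast hq5
          have : 0 ≤ ((d : ℤ) - 2 - 1) * (2 * (q : ℤ) - 2) :=
            mul_nonneg (by linarith) (by linarith)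
          rw [hK2] at c0 c1 c2
          linarith
    · have hmulB : 0 ≤ ((d : ℤ) - 2 - 1) * (q * K + 2 * r) := mul_nonneg (by linarith) hB0
      have hq4' : (4 : ℤ) ≤ q := by linarith
      nlinarith
  · -- O2
    have hr0 : 0 ≤ r := hr' (by rw [b2]; exact hpq)
    have hw0 := hwq 0
    have hw1 := hwq 1
    have hw2 := hwq 2
    rcases b5 with hd3 | ⟨hd5, hx3, hT, hxl⟩
    · subst hd3
      simp only [Finset.sum_range_succ, Finset.sum_range_zero, hdef, zero_add]
      norm_num
      rw [hxd, b1, b3, b4, b2]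
      have n1 : 0 ≤ (q : ℤ) * (q - 2) := mul_nonneg (by linarith) (by linarith)
      have n2 : 0 ≤ m * (((q : ℤ) - 1) * (q + 2)) :=
        mul_nonneg b0 (mul_nonneg (by linarith) (by linarith))
      linarith
    · have hs := sum_lower h 3 d (by omega) _ (hmid 3 hT)
      have hmulB : 0 ≤ ((d : ℤ) - 2 - 3) * (q * K + 2 * r) := by
        have : (5 : ℤ) ≤ d := by exact_mod_cast hd5
        exact mul_nonneg (by linarith) hB0
      have hx4 : x 4 = K := by
        have := hT.sum (j := 3) le_rfl (by omega)
        rw [hx3] at this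
        simpa using this
      have hw2' : w 2 = 0 := (hw 2).2.2.2 (by
        rw [show 2 + 2 = 4 from rfl, b4, hx4, b2]
        have : (q : ℤ) + q * m - q = q * m := by ring
        rw [this]
        exact Dvd.dvd.mul_right hpq _)
      have c0 : -2 * K + 2 * r + (q + 2) * (1 - m) - 2 * q ≤ h 0 := by
        simp only [hdef, zero_add]
        rw [b1, b3]
        linarith
      have c1 : -2 * K + 2 * r + (q + 2) * (- m + (q + q * m)) - 2 * q * w 1 ≤ h 1 := by
        simp only [hdef]
        rw [show 1 + 1 = 2 from rfl, b3, b4]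
      have c2 : -2 * K + 2 * r + (q + 2) * (q + q * m) ≤ h 2 := by
        simp only [hdef]
        rw [show 2 + 1 = 3 from rfl, b4, hx3, hw2']
        linarith
      have c3 : -2 * K + 2 * r + (q + 2) * K - 2 * q ≤ h (d - 2) := by
        have h1 := hT.sum (j := d - 2) (by omega) (by omega)
        simp only [hdef]
        rw [h1]
        have := hwq (d - 2)
        linarith
      have c4 : -2 * K + 2 * r + (q + 2) * (K + 1) - 2 * q * w (d - 1) ≤ h (d - 1) := by
        simp only [hdef]
        rw [hd1, hxd, hxl, b1]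
      have hwd := hwq (d - 1)
      simp only [Finset.sum_range_succ, Finset.sum_range_zero] at hs
      push_cast at hs
      rw [b2] at c0 c1 c2 c3 c4 hmulB hs
      have n1 : 0 ≤ (q : ℤ) * (q - 2) := mul_nonneg (by linarith) (by linarith)
      rcases (by omega : m = 0 ∨ 1 ≤ m) with hm | hm
      · have e1 : w 1 = 0 := (hw 1).2.2.2 (by
          rw [show 1 + 2 = 3 from rfl, b3, hx3, hm]; simp)
        have e2 : w (d - 1) = 0 := (hw (d - 1)).2.2.2 (by
          rw [show d - 1 + 2 = 1 + d by omega, R.xper, hxl, b3, hm, b2]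
          simpa using hpq)
        rw [e1] at c1
        rw [e2] at c4
        rw [hm] at c0 c1 c2
        linarith
      · have n2 : 0 ≤ (m - 1) * (((q : ℤ) - 1) * (q + 2)) :=
          mul_nonneg (by linarith) (mul_nonneg (by linarith) (by linarith))
        linarith
  · -- E2
    have hs := sum_lower h 2 d (by omega) _ (hmid 2 a6)
    have hd4' : (4 : ℤ) ≤ d := by exact_mod_cast a5
    have hmulB : 0 ≤ ((d : ℤ) - 2 - 2) * (q * K + 2 * r) := mul_nonneg (by linarith) hB0
    have hx3 : x 3 = K := by
      have := a6.sum (j := 2) le_rfl (by omega)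
      rw [a4] at this
      simpa using this
    have hw0 := hwq 0
    have e1 : w 1 = 0 := (hw 1).2.2.2 (by
      rw [show 1 + 2 = 3 from rfl, a3, hx3]
      have : K - q - K = -(q : ℤ) := by ring
      rw [this]
      exact (dvd_neg).mpr hpq)
    have e2 : w (d - 1) = 0 := (hw (d - 1)).2.2.2 (by
      rw [show d - 1 + 2 = 1 + d by omega, R.xper, a7, a3]
      have : K - (K - q) = (q : ℤ) := by ring
      rw [this]
      exact hpq)
    have c0 : -2 * K + 2 * r + (q + 2) * (1 + (K - q)) - 2 * q ≤ h 0 := by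
      simp only [hdef, zero_add]
      rw [a1, a3]
      linarith
    have c1 : -2 * K + 2 * r + (q + 2) * (K - q) ≤ h 1 := by
      simp only [hdef]
      rw [show 1 + 1 = 2 from rfl, a3, a4, e1]
      linarith
    have c2 : -2 * K + 2 * r + (q + 2) * K - 2 * q ≤ h (d - 2) := by
      have h1 := a6.sum (j := d - 2) (by omega) (by omega)
      simp only [hdef]
      rw [h1]
      have := hwq (d - 2)
      linarith
    have c3 : -2 * K + 2 * r + (q + 2) * (K + 1) ≤ h (d - 1) := by
      simp only [hdef]
      rw [hd1, hxd, a7, a1, e2]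
      linarith
    simp only [Finset.sum_range_succ, Finset.sum_range_zero] at hs
    push_cast at hs
    nlinarith
  · -- E3
    subst b1
    have hr0 : 0 ≤ r := hr' (by
      rw [b2]
      have : (4 : ℤ) = (2 : ℕ) * 2 := by norm_num
      rw [this]
      exact Dvd.dvd.mul_right hpq _)
    have hp2 : p = 2 := by
      have : p ∣ 2 := by exact_mod_cast hpq
      exact (Nat.prime_dvd_prime_iff_eq hp Nat.prime_two).mp this
    subst hp2
    have hw0 := hwq 0
    have hw2 := hwq 2
    push_cast at hw0 hw2
    rcases b7 with hd4 | ⟨hd6, hx4, hT, hxl⟩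
    · subst hd4
      have e1 : w 1 = 0 := (hw 1).2.2.2 (by
        rw [show 1 + 2 = 3 from rfl, b4, b6]
        exact ⟨-1 - m, by push_cast; ring⟩)
      have e3 : w 3 = 0 := (hw 3).2.2.2 (by
        rw [show 3 + 2 = 1 + 4 from rfl, R.xper, b4, b6]
        exact ⟨1 + m, by push_cast; ring⟩)
      simp only [Finset.sum_range_succ, Finset.sum_range_zero, hdef, zero_add]
      norm_num
      rw [hxd, b3, b4, b5, b6, b2, e1, e3]
      linarith
    · have hs := sum_lower h 4 d (by omega) _ (hmid 4 hT)
      have hmulB : 0 ≤ ((d : ℤ) - 2 - 4) * (((2 : ℕ) : ℤ) * K + 2 * r) := by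
        have : (6 : ℤ) ≤ d := by exact_mod_cast hd6
        exact mul_nonneg (by linarith) hB0
      have hx5 : x 5 = 4 := by
        have := hT.sum (j := 4) le_rfl (by omega)
        rw [hx4, b2] at this
        simpa using this
      have e1 : w 1 = 0 := (hw 1).2.2.2 (by
        rw [show 1 + 2 = 3 from rfl, b4, b6]
        exact ⟨-1 - m, by push_cast; ring⟩)
      have e3 : w 3 = 0 := (hw 3).2.2.2 (by
        rw [show 3 + 2 = 5 from rfl, hx5, b6]
        exact ⟨m, by push_cast; ring⟩)
      have e4 : w (d - 1) = 0 := (hw (d - 1)).2.2.2 (by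
        rw [show d - 1 + 2 = 1 + d by omega, R.xper, hxl, b4]
        norm_num)
      have c0 : 0 ≤ h 0 := by
        simp only [hdef, zero_add]
        rw [b3, b4, b2]
        push_cast
        linarith
      have c1 : - 4 * m ≤ h 1 := by
        simp only [hdef]
        rw [show 1 + 1 = 2 from rfl, b4, b5, b2, e1]
        push_cast
        linarith
      have c2 : 4 + 4 * m ≤ h 2 := by
        simp only [hdef]
        rw [show 2 + 1 = 3 from rfl, b5, b6, b2]
        push_cast
        linarith
      have c3 : 8 + 8 * m ≤ h 3 := by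
        simp only [hdef]
        rw [show 3 + 1 = 4 from rfl, b6, hx4, b2, e3]
        push_cast
        linarith
      have c4 : 4 ≤ h (d - 2) := by
        have h1 := hT.sum (j := d - 2) (by omega) (by omega)
        simp only [hdef]
        rw [h1, b2]
        have := hwq (d - 2)
        push_cast at this ⊢
        linarith
      have c5 : 12 ≤ h (d - 1) := by
        simp only [hdef]
        rw [hd1, hxd, hxl, b3, b2, e4]
        push_cast
        linarith
      simp only [Finset.sum_range_succ, Finset.sum_range_zero] at hs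
      push_cast at hs hmulB ⊢
      linarith

end P2

end Pool.Agent.DrY
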