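import Pool.Agent.Lib.MP_531408_nt.LocP2

set_option autoImplicit false

namespace Pool.Agent.DrY

open Finset

section P3

variable {p q d s : ℕ} {x δ o : ℕ → ℤ} {k K r : ℤ}

lemma sum_delta (hd : 3 ≤ d) (hδ0 : δ 0 = 1) (hδ : ∀ i, 0 < i → i < d → δ i = 0) :
    ∑ i ∈ range d, δ i = 1 := by
  rw [Finset.sum_eq_single 0]
  · exact hδ0
  · intro b hb hb0
    exact hδ b (by omega) (Finset.mem_range.mp hb)
  · intro h
    exact absurd (Finset.mem_range.mpr (by omega)) h

/-- bound for the second master function at `T = t 0`, `k < 0` -/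
theorem bound2_neg_p (R : Rules q d x δ k) (hk : k = -K) (hK : 0 < K) (hδ0 : δ 0 = 1)
    (hδ : ∀ i, 0 < i → i < d → δ i = 0) :
    (q : ℤ) + 1 ≤ d * k + (q + 1) * ∑ i ∈ range d, x i := by
  have hq' : (2 : ℤ) ≤ q := by exact_mod_cast R.hq
  have hd := R.hd
  have hd' : (3 : ℤ) ≤ d := by exact_mod_cast hd
  have hxd : x d = x 0 := by have := R.xper 0; rwa [zero_add] at this
  have hd1 : d - 1 + 1 = d := by omega
  set h : ℕ → ℤ := fun i => -2 * K + (q + 1) * (x i + x (i + 1)) with hdef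
  have main : ∑ i ∈ range d, h i = 2 * (d * k + (q + 1) * ∑ i ∈ range d, x i) := by
    simp only [hdef, Finset.sum_add_distrib, ← Finset.mul_sum,
        Finset.sum_const, Finset.card_range, nsmul_eq_mul]
    rw [sum_shift x d R.xper 1, hk]
    ring
  suffices hs : 2 * ((q : ℤ) + 1) ≤ ∑ i ∈ range d, h i by linarith
  have hB0 : 0 ≤ (q - 1) * K := mul_nonneg (by linarith) hK.le
  have hmid : ∀ j0, Tl x K d j0 → ∀ i, j0 ≤ i → i + 2 < d → (q - 1) * K ≤ h i := by
    intro j0 hT i hi hi2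
    have h1 := hT.sum hi (by omega)
    simp only [hdef]
    rw [h1]
    linarith
  have n1 : 0 ≤ (q : ℤ) * (q - 2) := mul_nonneg (by linarith) (by linarith)
  rcases R.classP hk hK hδ0 hδ with ⟨a1, a2, a3, a4⟩ | ⟨a1, a2, a3, a4, a5⟩ |
    ⟨m, b0, b1, b2, b3, b4, b5⟩ | ⟨a1, a2, a3, a4, a5, a6, a7⟩ |
    ⟨m, b0, b1, b2, b3, b4, b5, b6, b7⟩
  · -- E1
    have hs := sum_lower h 1 d (by omega) _ (hmid 1 a3)
    have hmulB : 0 ≤ ((d : ℤ) - 2 - 1) * ((q - 1) * K) := mul_nonneg (by linarith) hB0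
    have c0 : -2 * K + (q + 1) * (1 + K) ≤ h 0 := by
      simp only [hdef, zero_add]
      rw [a1, a2]
      linarith
    have c1 : -2 * K + (q + 1) * K ≤ h (d - 2) := by
      have h1 := a3.sum (j := d - 2) (by omega) (by omega)
      simp only [hdef]
      rw [h1]
    have c2 : -2 * K + (q + 1) * (1 + K) ≤ h (d - 1) := by
      simp only [hdef]
      rw [hd1, hxd, a4, a1]
      linarith
    rw [Finset.sum_range_one] at hs
    push_cast at hs
    nlinarith
  · -- O1
    have hs := sum_lower h 1 d (by omega) _ (hmid 1 a4)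
    have hmulB : 0 ≤ ((d : ℤ) - 2 - 1) * ((q - 1) * K) := mul_nonneg (by linarith) hB0
    have c0 : -2 * K + (q + 1) ≤ h 0 := by
      simp only [hdef, zero_add]
      rw [a1, a3]
      linarith
    have c1 : -2 * K + (q + 1) * K ≤ h (d - 2) := by
      have h1 := a4.sum (j := d - 2) (by omega) (by omega)
      simp only [hdef]
      rw [h1]
    have c2 : -2 * K + (q + 1) * (K + 1) ≤ h (d - 1) := by
      simp only [hdef]
      rw [hd1, hxd, a5, a1]
    rw [Finset.sum_range_one] at hs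
    push_cast at hs
    nlinarith
  · -- O2
    rcases b5 with hd3 | ⟨hd5, hx3, hT, hxl⟩
    · subst hd3
      simp only [Finset.sum_range_succ, Finset.sum_range_zero, hdef, zero_add]
      norm_num
      rw [hxd, b1, b3, b4, b2]
      have n2 : 0 ≤ m * (((q : ℤ) - 1) * (q + 1)) :=
        mul_nonneg b0 (mul_nonneg (by linarith) (by linarith))
      linarith
    · have hs := sum_lower h 3 d (by omega) _ (hmid 3 hT)
      have hmulB : 0 ≤ ((d : ℤ) - 2 - 3) * ((q - 1) * K) := by
        have : (5 : ℤ) ≤ d := by exact_mod_cast hd5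
        exact mul_nonneg (by linarith) hB0
      have c0 : -2 * K + (q + 1) * (1 - m) ≤ h 0 := by
        simp only [hdef, zero_add]
        rw [b1, b3]
        linarith
      have c1 : -2 * K + (q + 1) * (- m + (q + q * m)) ≤ h 1 := by
        simp only [hdef]
        rw [show 1 + 1 = 2 from rfl, b3, b4]
      have c2 : -2 * K + (q + 1) * (q + q * m) ≤ h 2 := by
        simp only [hdef]
        rw [show 2 + 1 = 3 from rfl, b4, hx3]
        linarith
      have c3 : -2 * K + (q + 1) * K ≤ h (d - 2) := by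
        have h1 := hT.sum (j := d - 2) (by omega) (by omega)
        simp only [hdef]
        rw [h1]
      have c4 : -2 * K + (q + 1) * (K + 1) ≤ h (d - 1) := by
        simp only [hdef]
        rw [hd1, hxd, hxl, b1]
      simp only [Finset.sum_range_succ, Finset.sum_range_zero] at hs
      push_cast at hs
      rw [b2] at c0 c1 c2 c3 c4 hmulB hs
      have n2 : 0 ≤ m * (((q : ℤ) - 1) * (q + 1)) :=
        mul_nonneg b0 (mul_nonneg (by linarith) (by linarith))
      linarith
  · -- E2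
    have hs := sum_lower h 2 d (by omega) _ (hmid 2 a6)
    have hd4' : (4 : ℤ) ≤ d := by exact_mod_cast a5
    have hmulB : 0 ≤ ((d : ℤ) - 2 - 2) * ((q - 1) * K) := mul_nonneg (by linarith) hB0
    have c0 : -2 * K + (q + 1) * (1 + (K - q)) ≤ h 0 := by
      simp only [hdef, zero_add]
      rw [a1, a3]
    have c1 : -2 * K + (q + 1) * (K - q) ≤ h 1 := by
      simp only [hdef]
      rw [show 1 + 1 = 2 from rfl, a3, a4]
      linarith
    have c2 : -2 * K + (q + 1) * K ≤ h (d - 2) := by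
      have h1 := a6.sum (j := d - 2) (by omega) (by omega)
      simp only [hdef]
      rw [h1]
    have c3 : -2 * K + (q + 1) * (K + 1) ≤ h (d - 1) := by
      simp only [hdef]
      rw [hd1, hxd, a7, a1]
    simp only [Finset.sum_range_succ, Finset.sum_range_zero] at hs
    push_cast at hs
    nlinarith
  · -- E3
    subst b1
    rcases b7 with hd4 | ⟨hd6, hx4, hT, hxl⟩
    · subst hd4
      simp only [Finset.sum_range_succ, Finset.sum_range_zero, hdef, zero_add]
      norm_num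
      rw [hxd, b3, b4, b5, b6, b2]
      linarith
    · have hs := sum_lower h 4 d (by omega) _ (hmid 4 hT)
      have hmulB : 0 ≤ ((d : ℤ) - 2 - 4) * ((((2 : ℕ) : ℤ) - 1) * K) := by
        have : (6 : ℤ) ≤ d := by exact_mod_cast hd6
        exact mul_nonneg (by linarith) hB0
      have c0 : 1 ≤ h 0 := by
        simp only [hdef, zero_add]
        rw [b3, b4, b2]
        push_cast
      have c1 : - 2 - 3 * m ≤ h 1 := by
        simp only [hdef]
        rw [show 1 + 1 = 2 from rfl, b4, b5, b2]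
        push_cast
        linarith
      have c2 : 4 + 3 * m ≤ h 2 := by
        simp only [hdef]
        rw [show 2 + 1 = 3 from rfl, b5, b6, b2]
        push_cast
        linarith
      have c3 : 4 + 6 * m ≤ h 3 := by
        simp only [hdef]
        rw [show 3 + 1 = 4 from rfl, b6, hx4, b2]
        push_cast
        linarith
      have c4 : 4 ≤ h (d - 2) := by
        have h1 := hT.sum (j := d - 2) (by omega) (by omega)
        simp only [hdef]
        rw [h1, b2]
        push_cast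
      have c5 : 7 ≤ h (d - 1) := by
        simp only [hdef]
        rw [hd1, hxd, hxl, b3, b2]
        push_cast
      simp only [Finset.sum_range_succ, Finset.sum_range_zero] at hs
      push_cast at hs hmulB ⊢
      linarith

/-- bound for the second master function at `T = t 0` -/
theorem bound2_p (R : Rules q d x δ k) (hδ0 : δ 0 = 1)
    (hδ : ∀ i, 0 < i → i < d → δ i = 0) (hB : ¬ (0 < k ∧ ∀ i, k + q * x i = 0))
    (hx0 : x 0 ≠ 0) :
    (q : ℤ) + 1 ≤ d * k + (q + 1) * ∑ i ∈ range d, x i := by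
  have hq' : (2 : ℤ) ≤ q := by exact_mod_cast R.hq
  have hd' : (3 : ℤ) ≤ d := by exact_mod_cast R.hd
  have hd := R.hd
  rcases lt_trichotomy k 0 with hk | hk | hk
  · exact bound2_neg_p R (K := -k) (by ring) (by linarith) hδ0 hδ
  · have key : ∀ i, q * max (- x i) 0 - max (- x (i + 1)) 0 ≤ x (i + 1) := by
      intro i
      have := R.zero_class hk i
      linarith [this.1, this.2.1]
    have h2 : ∑ i ∈ range d, (q * max (- x i) 0 - max (- x (i + 1)) 0) ≤
        ∑ i ∈ range d, x (i + 1) := Finset.sum_le_sum fun i _ => key i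
    rw [Finset.sum_sub_distrib, ← Finset.mul_sum,
      sum_shift (fun i => max (- x i) 0) d (fun i => by simp only [R.xper]) 1,
      sum_shift x d R.xper 1] at h2
    have h3 : 0 ≤ ∑ i ∈ range d, max (- x i) 0 := Finset.sum_nonneg fun i _ => le_max_right _ _
    have h4 : 1 ≤ ∑ i ∈ range d, x i := by
      by_contra hcon
      push Not at hcon
      have h5 : ∑ i ∈ range d, max (- x i) 0 = 0 := by nlinarith
      have h6 : ∀ i ∈ range d, max (- x i) 0 = 0 :=
        (Finset.sum_eq_zero_iff_of_nonneg fun i _ => le_max_right _ _).mp h5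
      have h7 : ∀ i ∈ range d, 0 ≤ x i := fun i hi => by
        have := h6 i hi
        have := le_max_left (- x i) 0
        omega
      have h8 : ∑ i ∈ range d, x i = 0 := le_antisymm (by omega) (Finset.sum_nonneg h7)
      have h9 := (Finset.sum_eq_zero_iff_of_nonneg h7).mp h8 0 (Finset.mem_range.mpr (by omega))
      exact hx0 h9
    rw [hk]
    nlinarith
  · rcases R.pos_class hk with h | h
    · have h1 : ∑ i ∈ range d, x i = 1 := by
        rw [Finset.sum_congr rfl fun i _ => h i, sum_delta hd hδ0 hδ]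
      rw [h1]
      have : 0 ≤ (d : ℤ) * k := by positivity
      linarith
    · exact absurd ⟨hk, h⟩ hB

/-- shift 1, `d = 4`, `q ≥ 4` a power of two, off `p`. `hodd` excludes alternating orders with
odd `K`. -/
theorem bound_alt_off {x δ o : ℕ → ℤ} (R : Rules q 4 x δ k) (W : Wr 2 1 x o k r)
    (hk : k = -K) (hK : 0 < K)
    (hδ : ∀ i, δ i = 0)
    (hodd : ¬ (2 : ℤ) ∣ K → ¬ ((x 0 = 0 ∧ x 1 = K ∧ x 2 = 0 ∧ x 3 = K) ∨
      (x 0 = K ∧ x 1 = 0 ∧ x 2 = K ∧ x 3 = 0))) :
    0 ≤ (4 : ℕ) * k + (4 : ℕ) * r + q * ∑ i ∈ range 4, o i +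
      (2 - (q : ℤ)) * ∑ i ∈ range 4, x i := by
  have hq' : (2 : ℤ) ≤ q := by exact_mod_cast R.hq
  obtain ⟨w, hw⟩ := W.exists_w
  have hr := W.hr
  have h4 := R.xper 0
  rw [zero_add] at h4
  have hw0 := hw 0
  have hw1 := hw 1
  have hw2 := hw 2
  have hw3 := hw 3
  simp only [zero_add, show 1 + 1 = 2 from rfl, show 2 + 1 = 3 from rfl,
    show 3 + 1 = 4 from rfl, h4] at hw0 hw1 hw2 hw3
  simp only [Finset.sum_range_succ, Finset.sum_range_zero, zero_add]
  push_cast
  rcases R.neg_off_class hk hK hδ with h | h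
  · have e1 : x 1 = x 0 := mul_left_cancel₀ (by positivity : (q : ℤ) + 1 ≠ 0)
      (by rw [h 1, h 0])
    have e2 : x 2 = x 0 := mul_left_cancel₀ (by positivity : (q : ℤ) + 1 ≠ 0)
      (by rw [h 2, h 0])
    have e3 : x 3 = x 0 := mul_left_cancel₀ (by positivity : (q : ℤ) + 1 ≠ 0)
      (by rw [h 3, h 0])
    rw [e1] at hw0
    rw [e1, e2] at hw1
    rw [e2, e3] at hw2
    rw [e3] at hw3
    simp only [sub_self, dvd_zero, forall_const] at hw0 hw1 hw2 hw3
    rw [e1, e2, e3]
    have h0 := h 0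
    have hx : 1 ≤ x 0 := by
      by_contra hcon
      push Not at hcon
      have : x 0 ≤ 0 := by omega
      nlinarith
    have s : 8 * x 0 ≤ o 0 + o 1 + o 2 + o 3 := by linarith [hw0.2.2.1, hw1.2.2.1, hw2.2.2.1, hw3.2.2.1, hw0.2.2.2, hw1.2.2.2, hw2.2.2.2, hw3.2.2.2]
    have s2 : (q : ℤ) * (8 * x 0) ≤ q * (o 0 + o 1 + o 2 + o 3) :=
      mul_le_mul_of_nonneg_left s (by positivity)
    rw [hk, ← h0]
    nlinarith
  · have h0 := h 0
    have h1 := h 1
    have h2 := h 2
    simp only [zero_add, show 1 + 1 = 2 from rfl, show 2 + 1 = 3 from rfl] at h0 h1 h2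
    have hcase : (x 0 = 0 ∧ x 1 = K ∧ x 2 = 0 ∧ x 3 = K) ∨
      (x 0 = K ∧ x 1 = 0 ∧ x 2 = K ∧ x 3 = 0) := by
      rcases h0 with h0 | h0
      · left
        rcases h1 with h1 | h1
        · omega
        · rcases h2 with h2 | h2
          · omega
          · omega
      · right
        rcases h1 with h1 | h1
        · rcases h2 with h2 | h2
          · omega
          · omega
        · omega
    have hK2 : (2 : ℤ) ∣ K := by
      by_contra hcon
      exact hodd hcon hcase
    have hr0 : 0 ≤ r := W.hr' (by rw [hk]; exact (dvd_neg).mpr (by exact_mod_cast hK2))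
    have hsumx : x 0 + x 1 + x 2 + x 3 = 2 * K := by
      rcases hcase with h | h <;> omega
    have so : 4 * K ≤ o 0 + o 1 + o 2 + o 3 := by
      have hd0 : w 0 = 0 := hw0.2.2.2 (by
        rcases hcase with h | h <;> rw [h.1, h.2.1] <;> simpa using hK2)
      have hd1 : w 1 = 0 := hw1.2.2.2 (by
        rcases hcase with h | h <;> rw [h.2.1, h.2.2.1] <;> simpa using hK2)
      have hd2 : w 2 = 0 := hw2.2.2.2 (by
        rcases hcase with h | h <;> rw [h.2.2.1, h.2.2.2] <;> simpa using hK2)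
      have hd3 : w 3 = 0 := hw3.2.2.2 (by
        rcases hcase with h | h <;> rw [h.2.2.2, h.1] <;> simpa using hK2)
      linarith [hw0.2.2.1, hw1.2.2.1, hw2.2.2.1, hw3.2.2.1]
    rw [hsumx, hk]
    have s2 : (q : ℤ) * (4 * K) ≤ q * (o 0 + o 1 + o 2 + o 3) :=
      mul_le_mul_of_nonneg_left so (by positivity)
    nlinarith

/-- shift 1, `d = 4`, `q ≥ 4` a power of two, at `T = t 0`. -/
theorem bound_alt_p {x δ o : ℕ → ℤ} (R : Rules q 4 x δ k) (W : Wr 2 1 x o k r)
    (hq4 : 4 ≤ q) (h2q : (2 : ℤ) ∣ q)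
    (hk : k = -K) (hK : 0 < K) (hδ0 : δ 0 = 1)
    (hδ : ∀ i, 0 < i → i < 4 → δ i = 0)
    (hodd : ¬ (2 : ℤ) ∣ K → ¬ (x 0 = 1 + K ∧ x 1 = 0 ∧ x 2 = K ∧ x 3 = 0)) :
    2 - (q : ℤ) ≤ (4 : ℕ) * k + (4 : ℕ) * r + q * ∑ i ∈ range 4, o i +
      (2 - (q : ℤ)) * ∑ i ∈ range 4, x i := by
  have hq' : (4 : ℤ) ≤ q := by exact_mod_cast hq4
  obtain ⟨w, hw⟩ := W.exists_w
  have hr := W.hr
  have h4 := R.xper 0
  rw [zero_add] at h4
  have hw0 := hw 0
  have hw1 := hw 1
  have hw2 := hw 2
  have hw3 := hw 3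
  simp only [zero_add, show 1 + 1 = 2 from rfl, show 2 + 1 = 3 from rfl,
    show 3 + 1 = 4 from rfl, h4] at hw0 hw1 hw2 hw3
  simp only [Finset.sum_range_succ, Finset.sum_range_zero, zero_add]
  push_cast
  rcases R.classP hk hK hδ0 hδ with ⟨a1, a2, a3, a4⟩ | ⟨a1, a2, a3, a4, a5⟩ |
    ⟨m, b0, b1, b2, b3, b4, b5⟩ | ⟨a1, a2, a3, a4, a5, a6, a7⟩ |
    ⟨m, b0, b1, b2, b3, b4, b5, b6, b7⟩
  · -- E1
    have hx2 : x 2 = K := by
      have := a3.sum (j := 1) (by omega) (by omega)
      rw [a2] at this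
      simpa using this
    rw [show 4 - 1 = 3 from rfl] at a4
    have hK2 : (2 : ℤ) ∣ K := by
      by_contra hcon
      exact hodd hcon ⟨a1, a2, hx2, a4⟩
    have hr0 : 0 ≤ r := W.hr' (by rw [hk]; exact (dvd_neg).mpr (by exact_mod_cast hK2))
    have hd1 : w 1 = 0 := hw1.2.2.2 (by rw [a2, hx2]; simpa using hK2)
    have hd2 : w 2 = 0 := hw2.2.2.2 (by rw [hx2, a4]; simpa using hK2)
    have so : 4 * K ≤ o 0 + o 1 + o 2 + o 3 := by
      linarith [hw0.2.2.1, hw1.2.2.1, hw2.2.2.1, hw3.2.2.1, hw0.2.1, hw3.2.1]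
    rw [a1, a2, hx2, a4, hk]
    have s2 : (q : ℤ) * (4 * K) ≤ q * (o 0 + o 1 + o 2 + o 3) :=
      mul_le_mul_of_nonneg_left so (by positivity)
    nlinarith
  · -- O1 impossible
    exfalso
    have hx2 : x 2 = K := by
      have := a4.sum (j := 1) (by omega) (by omega)
      rw [a3] at this
      simpa using this
    have := a4.sum (j := 2) (by omega) (by omega)
    rw [hx2, show 2 + 1 = 4 - 1 from rfl, a5] at this
    omega
  · exfalso
    omega
  · -- E2
    rw [show 4 - 1 = 3 from rfl] at a7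
    have hx2q : ∀ a b : ℤ, (2 : ℤ) ∣ a - b → (2 : ℤ) ∣ a → (2 : ℤ) ∣ b := fun a b h1 h2 => by
      omega
    by_cases hK2 : (2 : ℤ) ∣ K
    · have hr0 : 0 ≤ r := W.hr' (by rw [hk]; exact (dvd_neg).mpr (by exact_mod_cast hK2))
      have hd1 : w 1 = 0 := hw1.2.2.2 (by
        rw [a3, a4]; push_cast; omega)
      have hd2 : w 2 = 0 := hw2.2.2.2 (by rw [a4, a7]; push_cast; omega)
      have so : 4 * K - 2 * q ≤ o 0 + o 1 + o 2 + o 3 := by
        linarith [hw0.2.2.1, hw1.2.2.1, hw2.2.2.1, hw3.2.2.1, hw0.2.1, hw3.2.1]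
      have s2 : (q : ℤ) * (4 * K - 2 * q) ≤ q * (o 0 + o 1 + o 2 + o 3) :=
        mul_le_mul_of_nonneg_left so (by positivity)
      rw [a1, a3, a4, a7, hk]
      nlinarith
    · have hK3 : (q : ℤ) + 3 ≤ K := by omega
      have hd0 : w 0 = 0 := hw0.2.2.2 (by
        rw [a1, a3]; push_cast; omega)
      have hd3 : w 3 = 0 := hw3.2.2.2 (by rw [a7, a1]; push_cast; omega)
      have so : 4 * K - 2 * q ≤ o 0 + o 1 + o 2 + o 3 := by
        linarith [hw0.2.2.1, hw1.2.2.1, hw2.2.2.1, hw3.2.2.1, hw1.2.1, hw2.2.1]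
      have s2 : (q : ℤ) * (4 * K - 2 * q) ≤ q * (o 0 + o 1 + o 2 + o 3) :=
        mul_le_mul_of_nonneg_left so (by positivity)
      rw [a1, a3, a4, a7, hk]
      nlinarith
  · exfalso
    omega

end P3

end Pool.Agent.DrY
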