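import Pool.Agent.Lib.MP_531408_nt.TypeB

set_option autoImplicit false

namespace Pool.Agent.DrY

open Polynomial Finset

namespace Sys

variable {K : Type*} [Field K] {p n d : ℕ} [Fact p.Prime] [CharP K p] (S : Sys K p n d)

/-- the total order of the master function with respect to an order function -/
noncomputable def tot (w : OrdFn (RatFunc K)) (s : ℕ) : ℤ :=
  d * w.ord S.κ + d * w.ord S.ρ + ((p ^ n : ℕ) : ℤ) * ∑ i ∈ range d, w.ord (S.W i (i + s)) +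
    (2 - ((p ^ n : ℕ) : ℤ)) * ∑ i ∈ range d, w.ord (S.v i)

/-- the master function -/
noncomputable def F0 (s : ℕ) : RatFunc K :=
  S.κ ^ d * S.ρ ^ d * (∏ i ∈ range d, S.W i (i + s)) ^ (p ^ n) *
    (∏ i ∈ range d, S.v i) ^ (2 - ((p ^ n : ℕ) : ℤ))

lemma F0_ne (s : ℕ) (hW : ∀ i, S.W i (i + s) ≠ 0) (hρ : S.ρ ≠ 0) : S.F0 s ≠ 0 := by
  unfold F0
  refine mul_ne_zero (mul_ne_zero (mul_ne_zero (pow_ne_zero _ S.κ0) (pow_ne_zero _ hρ))
    (pow_ne_zero _ (Finset.prod_ne_zero_iff.mpr fun i _ => hW i))) (zpow_ne_zero _ ?_)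
  exact Finset.prod_ne_zero_iff.mpr fun i _ => S.v_ne i

lemma ord_F0 (w : OrdFn (RatFunc K)) (s : ℕ) (hW : ∀ i, S.W i (i + s) ≠ 0) (hρ : S.ρ ≠ 0) :
    w.ord (S.F0 s) = S.tot w s := by
  have h1 : ∏ i ∈ range d, S.W i (i + s) ≠ 0 := Finset.prod_ne_zero_iff.mpr fun i _ => hW i
  have h2 : ∏ i ∈ range d, S.v i ≠ 0 := Finset.prod_ne_zero_iff.mpr fun i _ => S.v_ne i
  unfold F0 tot
  rw [w.ord_mul (mul_ne_zero (mul_ne_zero (pow_ne_zero _ S.κ0) (pow_ne_zero _ hρ))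
    (pow_ne_zero _ h1)) (zpow_ne_zero _ h2),
    w.ord_mul (mul_ne_zero (pow_ne_zero _ S.κ0) (pow_ne_zero _ hρ)) (pow_ne_zero _ h1),
    w.ord_mul (pow_ne_zero _ S.κ0) (pow_ne_zero _ hρ), w.ord_pow S.κ0, w.ord_pow hρ,
    w.ord_pow h1, w.ord_zpow h2, w.ord_prod _ _ fun i _ => hW i,
    w.ord_prod _ _ fun i _ => S.v_ne i]

section inf

lemma inf_v (i : ℕ) : ordInf.ord (S.v i) = ordInf.ord (S.v 0) := by
  induction i with
  | zero => rfl
  | succ i ih => rw [← ih, ← S.vs, ordInf_ord, ordInf_ord, mapRF_intDegree]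

lemma inf_vsub (s i : ℕ) : ordInf.ord (S.v i - S.v (i + s)) = ordInf.ord (S.v 0 - S.v s) := by
  induction i with
  | zero => rw [zero_add]
  | succ i ih =>
    rw [← ih, show i + 1 + s = i + s + 1 by ring, ← S.vs, ← S.vs (i + s), ← map_sub, ordInf_ord,
      ordInf_ord, mapRF_intDegree]

lemma inf_rho : ordInf.O (- ordInf.ord (S.v 0)) S.ρ := by
  have h1 : ordInf.O 0 (S.ρ * S.v 0) := by
    have h2 := S.theta_eq 0
    have h3 : S.ρ * S.v 0 = 1 - S.ρ * (RatFunc.X - RatFunc.C (S.t 0)) -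
      (RatFunc.X - RatFunc.C (S.t 0)) * S.θ 0 := by linear_combination h2
    have h4 : ordInf.O (-1) (RatFunc.X - RatFunc.C (S.t 0)) :=
      OrdFn.O_of_le (by rw [ordInf_X_sub_C])
    rw [h3]
    exact (OrdFn.O_one.sub ((ld_inf S.κ0).mul' h4 (by norm_num))).sub
      (h4.mul' (ld_inf (S.v_ne 0)) (by norm_num))
  have h2 := h1.mul (OrdFn.O.inv_self (w := ordInf) (f := S.v 0))
  rw [mul_assoc, mul_inv_cancel₀ (S.v_ne 0), mul_one, zero_add] at h2
  exact h2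

lemma inf_kappa (s : ℕ) (h0 : 0 < s) (hs : s < d) :
    -1 - ordInf.ord (S.v 0) - ((p ^ n : ℕ) : ℤ) * ordInf.ord (S.v 0 - S.v s) ≤
      ordInf.ord S.κ := by
  have hne := S.t_ne 0 s h0 hs
  rw [zero_add] at hne
  have h1 := S.N_eq 0 s
  have h2 := congrArg ordInf.ord h1
  rw [ordInf.ord_mul (mul_ne_zero S.κ0 (pow_ne_zero _ (S.v_sub_ne hne)))
      (mul_ne_zero (S.v_ne _) (S.v_ne _)),
      ordInf.ord_mul S.κ0 (pow_ne_zero _ (S.v_sub_ne hne)), ordInf.ord_pow (S.v_sub_ne hne),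
      ordInf.ord_mul (S.v_ne _) (S.v_ne _), S.inf_v (0 + 1), S.inf_v (s + 1)] at h2
  have h3 : ordInf.O (ordInf.ord (S.v 0) - 1) (S.N (0 + 1) (s + 1)) := by
    rw [N]
    have hX : ∀ b : K, ordInf.O (-1) (RatFunc.X - RatFunc.C b) := fun b =>
      OrdFn.O_of_le (by rw [ordInf_X_sub_C])
    have hv : ∀ i, ordInf.O (ordInf.ord (S.v 0)) (S.v i) := fun i =>
      OrdFn.O_of_le (by rw [S.inf_v i])
    exact ((hv _).mul' (hX _) (by linarith)).sub ((hv _).mul' (hX _) (by linarith))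
  have h4 := h3.le (S.N_ne hne)
  linarith

lemma inf_W (s i : ℕ) :
    ordInf.O (ordInf.ord (S.v 0) + ordInf.ord (S.v 0 - S.v s) + 1) (S.W i (i + s)) := by
  have h1 : S.W i (i + s) = der K (S.v i - S.v (i + s)) * S.v (i + s) -
      (S.v i - S.v (i + s)) * der K (S.v (i + s)) := by
    rw [W, der_sub]; ring
  have hv : ∀ i, ordInf.O (ordInf.ord (S.v 0)) (S.v i) := fun i =>
    OrdFn.O_of_le (by rw [S.inf_v i])
  have h2 : ordInf.O (ordInf.ord (S.v 0 - S.v s)) (S.v i - S.v (i + s)) :=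
    OrdFn.O_of_le (by rw [S.inf_vsub])
  rw [h1]
  exact ((der_inf h2).mul' (hv _) (by linarith)).sub (h2.mul' (der_inf (hv _)) (by linarith))

lemma tot_inf (s : ℕ) (h0 : 0 < s) (hs : s < d) (hW : ∀ i, S.W i (i + s) ≠ 0) (hρ : S.ρ ≠ 0) :
    (d : ℤ) * (((p ^ n : ℕ) : ℤ) - 1) ≤ S.tot ordInf s := by
  have hq : (2 : ℤ) ≤ ((p ^ n : ℕ) : ℤ) := by exact_mod_cast S.q_ge
  have h1 := S.inf_kappa s h0 hs
  have h2 := S.inf_rho.le hρ
  have h3 : ∑ i ∈ range d, (ordInf.ord (S.v 0) + ordInf.ord (S.v 0 - S.v s) + 1) ≤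
      ∑ i ∈ range d, ordInf.ord (S.W i (i + s)) :=
    Finset.sum_le_sum fun i _ => (S.inf_W s i).le (hW i)
  have h4 : ∑ i ∈ range d, ordInf.ord (S.v i) = d * ordInf.ord (S.v 0) := by
    rw [Finset.sum_congr rfl fun i _ => S.inf_v i]; simp
  simp only [Finset.sum_const, Finset.card_range, nsmul_eq_mul] at h3
  unfold tot
  rw [h4]
  set q : ℤ := ((p ^ n : ℕ) : ℤ)
  set V := ordInf.ord (S.v 0)
  set e := ordInf.ord (S.v 0 - S.v s)
  have hd : (0 : ℤ) ≤ d := by positivity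
  have g1 := mul_le_mul_of_nonneg_left h1 hd
  have g2 := mul_le_mul_of_nonneg_left h2 hd
  have g3 := mul_le_mul_of_nonneg_left h3 (by linarith : (0 : ℤ) ≤ q)
  nlinarith

end inf

/-- if the local bounds hold everywhere we get a contradiction -/
theorem master [DecidableEq K] [IsAlgClosed K] (s : ℕ) (h0 : 0 < s) (hs : s < d)
    (hW : ∀ i, S.W i (i + s) ≠ 0) (hρ : S.ρ ≠ 0)
    (hloc : ∀ a : K, (2 - ((p ^ n : ℕ) : ℤ)) * ∑ i ∈ range d, (if S.t i = a then (1 : ℤ) else 0) ≤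
      S.tot (ordAt a) s) : False := by
  have hq : (2 : ℤ) ≤ ((p ^ n : ℕ) : ℤ) := by exact_mod_cast S.q_ge
  have hq2 : 2 ≤ p ^ n := S.q_ge
  set G : RatFunc K := S.F0 s * (∏ i ∈ range d, (RatFunc.C (S.t i) - RatFunc.X)) ^ (p ^ n - 2)
    with hG
  have hP : ∏ i ∈ range d, (RatFunc.C (S.t i) - RatFunc.X : RatFunc K) ≠ 0 :=
    Finset.prod_ne_zero_iff.mpr fun i _ => C_sub_X_ne _
  have hF := S.F0_ne s hW hρ
  have hordG : ∀ w : OrdFn (RatFunc K), w.ord G = S.tot w s +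
      (((p ^ n : ℕ) : ℤ) - 2) * ∑ i ∈ range d, w.ord (RatFunc.C (S.t i) - RatFunc.X) := by
    intro w
    rw [hG, w.ord_mul hF (pow_ne_zero _ hP), S.ord_F0 w s hW hρ, w.ord_pow hP,
      w.ord_prod _ _ fun i _ => C_sub_X_ne _, Nat.cast_sub hq2]
    push_cast
    ring
  have h1 : ∀ a : K, 0 ≤ (ordAt a).ord G := by
    intro a
    rw [hordG]
    have h2 := hloc a
    have h3 : ∑ i ∈ range d, (ordAt a).ord (RatFunc.C (S.t i) - RatFunc.X) =
        ∑ i ∈ range d, (if S.t i = a then (1 : ℤ) else 0) :=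
      Finset.sum_congr rfl fun i _ => ordAt_C_sub_X a (S.t i)
    rw [h3]
    linarith
  have h2 := intDegree_nonneg h1
  have h3 := hordG ordInf
  rw [ordInf_ord] at h3
  have h4 : ∑ i ∈ range d, ordInf.ord (RatFunc.C (S.t i) - RatFunc.X) = -(d : ℤ) := by
    rw [Finset.sum_congr rfl fun i _ => ordInf_C_sub_X (S.t i)]; simp
  rw [h4] at h3
  have h5 := S.tot_inf s h0 hs hW hρ
  have hd : (3 : ℤ) ≤ d := by exact_mod_cast S.hd
  nlinarith

/-! ### local bounds -/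

section loc

variable (a : K)

lemma tot_shift (s m : ℕ) : (S.shift m).tot (ordAt a) s = S.tot (ordAt a) s := by
  have h1 : ∑ i ∈ range d, (ordAt a).ord ((S.shift m).v i) =
      ∑ i ∈ range d, (ordAt a).ord (S.v i) :=
    sum_shift (fun i => (ordAt a).ord (S.v i)) d (fun i => by simp only [S.vper]) m
  have h2 : ∑ i ∈ range d, (ordAt a).ord ((S.shift m).W i (i + s)) =
      ∑ i ∈ range d, (ordAt a).ord (S.W i (i + s)) := by
    have h3 := sum_shift (fun i => (ordAt a).ord (S.W i (i + s))) d (fun i => by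
      simp only [W, S.vper, show i + d + s = i + s + d by ring]) m
    rw [← h3]
    refine Finset.sum_congr rfl fun i _ => ?_
    show (ordAt a).ord (S.W (i + m) (i + s + m)) = (ordAt a).ord (S.W (i + m) (i + m + s))
    rw [show i + s + m = i + m + s by ring]
  unfold tot
  rw [h1, h2]
  rfl

/-- type B place from `k + q x i = 0` for all `i` -/
lemma exists_isB (hk : 0 < (ordAt a).ord S.κ)
    (h : ∀ i, (ordAt a).ord S.κ + ((p ^ n : ℕ) : ℤ) * (ordAt a).ord (S.v i) = 0) :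
    ∃ L γ, IsB S a L γ := by
  have hq : (2 : ℤ) ≤ ((p ^ n : ℕ) : ℤ) := by exact_mod_cast S.q_ge
  have hd := S.hd
  set L := - (ordAt a).ord (S.v 0) with hL
  have hx : ∀ i, (ordAt a).ord (S.v i) = -L := by
    intro i
    have h1 := h i
    have h2 := h 0
    have h3 : ((p ^ n : ℕ) : ℤ) * (ordAt a).ord (S.v i) =
      ((p ^ n : ℕ) : ℤ) * (ordAt a).ord (S.v 0) := by linarith
    have h4 := mul_left_cancel₀ (by linarith : ((p ^ n : ℕ) : ℤ) ≠ 0) h3
    rw [h4, hL, neg_neg]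
  have hkL : (ordAt a).ord S.κ = ((p ^ n : ℕ) : ℤ) * L := by
    have := h 0
    rw [hx 0] at this
    linarith
  have hLpos : 0 < L := by
    by_contra hcon
    push Not at hcon
    nlinarith
  have hne := S.t_ne 0 1 (by omega) (by omega)
  exact ⟨L, _, hLpos, hx, hkL, S.B_w hLpos hx hkL hne⟩

lemma local_B (s : ℕ) (h0 : 0 < s) (hs : s < d) (hW : ∀ i, S.W i (i + s) ≠ 0) (hρ : S.ρ ≠ 0)
    {L γ : ℤ} (H : IsB S a L γ) : 0 ≤ S.tot (ordAt a) s := by
  have hq : (2 : ℤ) ≤ ((p ^ n : ℕ) : ℤ) := by exact_mod_cast S.q_ge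
  have h1 : ∑ i ∈ range d, (-2 * L + γ) ≤ ∑ i ∈ range d, (ordAt a).ord (S.W i (i + s)) :=
    Finset.sum_le_sum fun i _ => (H.W_O (S.t_ne i s h0 hs)).le (hW i)
  have h2 := H.rho_O.le hρ
  have h3 : ∑ i ∈ range d, (ordAt a).ord (S.v i) = d * (-L) := by
    rw [Finset.sum_congr rfl fun i _ => H.hx i]; simp
  simp only [Finset.sum_const, Finset.card_range, nsmul_eq_mul] at h1
  unfold tot
  rw [h3, H.hk]
  have hγ := H.hγ
  set q : ℤ := ((p ^ n : ℕ) : ℤ)
  have hd : (0 : ℤ) ≤ d := by positivity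
  have g2 := mul_le_mul_of_nonneg_left h2 hd
  have g3 := mul_le_mul_of_nonneg_left h1 (by linarith : (0 : ℤ) ≤ q)
  have g4 : (d : ℤ) * (q * γ) = d * L := by rw [hγ]
  nlinarith

lemma local_nonneg [DecidableEq K] (s : ℕ) (h0 : 0 < s) (hs : s < d)
    (hW : ∀ i, S.W i (i + s) ≠ 0) (hρ : S.ρ ≠ 0) (hk : 0 ≤ (ordAt a).ord S.κ) :
    (2 - ((p ^ n : ℕ) : ℤ)) * ∑ i ∈ range d, (if S.t i = a then (1 : ℤ) else 0) ≤
      S.tot (ordAt a) s := by
  have hq : (2 : ℤ) ≤ ((p ^ n : ℕ) : ℤ) := by exact_mod_cast S.q_ge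
  have R := S.rules a
  have Wr1 := S.wr a s hW hρ
  rcases hk.lt_or_eq with hk | hk
  · rcases R.pos_class hk with h | h
    · have := bound_posA R Wr1 hk h
      unfold tot
      exact this
    · obtain ⟨L, γ, H⟩ := S.exists_isB a hk h
      have h1 := S.local_B a s h0 hs hW hρ H
      have h2 : 0 ≤ ∑ i ∈ range d, (if S.t i = a then (1 : ℤ) else 0) :=
        Finset.sum_nonneg fun i _ => by split_ifs <;> norm_num
      nlinarith
  · have := bound_zero R Wr1 (by exact_mod_cast S.p_dvd_q) hk.symm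
    unfold tot
    exact this

end loc

/-- local bounds for shift 2 -/
lemma local_two [DecidableEq K] (a : K) (hW : ∀ i, S.W i (i + 2) ≠ 0) (hρ : S.ρ ≠ 0)
    (h33 : ¬ (p ^ n = 3 ∧ d = 3))
    (h21 : ¬ (p ^ n = 2 ∧ Odd d ∧ (∃ m, S.t m = a) ∧ (ordAt a).ord S.κ = -1)) :
    (2 - ((p ^ n : ℕ) : ℤ)) * ∑ i ∈ range d, (if S.t i = a then (1 : ℤ) else 0) ≤
      S.tot (ordAt a) 2 := by
  have hd := S.hd
  rcases le_or_gt 0 ((ordAt a).ord S.κ) with hk | hk
  · exact S.local_nonneg a 2 (by omega) (by omega) hW hρ hk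
  by_cases ha : ∃ m, S.t m = a
  · obtain ⟨m, hm⟩ := ha
    rw [← S.tot_shift a 2 m]
    have R := (S.shift m).rules a
    have hW' : ∀ i, (S.shift m).W i (i + 2) ≠ 0 := fun i => by
      show S.W (i + m) (i + 2 + m) ≠ 0
      rw [show i + 2 + m = i + m + 2 by ring]
      exact hW _
    have Wr1 := (S.shift m).wr a 2 hW' hρ
    have h0 : (S.shift m).t 0 = a := by
      show S.t (0 + m) = a
      rw [zero_add, hm]
    have hδ0 : (if (S.shift m).t 0 = a then (1 : ℤ) else 0) = 1 := if_pos h0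
    have hδ : ∀ i, 0 < i → i < d → (if (S.shift m).t i = a then (1 : ℤ) else 0) = 0 := by
      intro i hi hid
      rw [if_neg]
      intro h
      have := (S.shift m).t_ne 0 i hi hid
      rw [zero_add, h0, h] at this
      exact this rfl
    have hsum : ∑ i ∈ range d, (if S.t i = a then (1 : ℤ) else 0) = 1 := by
      have h1 := sum_shift (fun i => if S.t i = a then (1 : ℤ) else 0) d
        (fun i => by simp only [S.tper]) m
      rw [← h1]
      exact sum_delta hd hδ0 hδ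
    rw [hsum, mul_one]
    have := bound_neg_p (K := -(ordAt a).ord S.κ) R Wr1 Fact.out
      (by exact_mod_cast S.p_dvd_q) (by show (ordAt a).ord S.κ = _; ring) (by linarith) hδ0 hδ h33
      (fun h => h21 ⟨h.1, h.2.2, ⟨m, hm⟩, by omega⟩)
    exact this
  · have R := S.rules a
    have Wr1 := S.wr a 2 hW hρ
    have hδ : ∀ i, (if S.t i = a then (1 : ℤ) else 0) = 0 := fun i =>
      if_neg fun h => ha ⟨i, h⟩
    rw [Finset.sum_eq_zero fun i _ => hδ i, mul_zero]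
    exact bound_neg_off (K := -(ordAt a).ord S.κ) R Wr1 (by ring) (by linarith) hδ

/-- the generic case -/
theorem generic [IsAlgClosed K] (hW : S.W 0 2 ≠ 0) (hρ : S.ρ ≠ 0)
    (h33 : ¬ (p ^ n = 3 ∧ d = 3))
    (h21 : ¬ (p ^ n = 2 ∧ Odd d ∧ ∃ m, (ordAt (S.t m)).ord S.κ = -1)) : False := by
  classical
  have hd := S.hd
  have hW' := S.W_all 2 hW
  refine S.master 2 (by omega) (by omega) hW' hρ fun a => S.local_two a hW' hρ h33 ?_
  rintro ⟨h1, h3, ⟨m, hm⟩, h2⟩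
  exact h21 ⟨h1, h3, m, by rw [hm]; exact h2⟩

end Sys

end Pool.Agent.DrY
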