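import Mathlib

set_option autoImplicit false

namespace Pool.Agent.DrY

/-- An order function (additive valuation, only meaningful on nonzero elements) on a field. -/
structure OrdFn (L : Type*) [Field L] where
  ord : L → ℤ
  map_mul : ∀ f g : L, f ≠ 0 → g ≠ 0 → ord (f * g) = ord f + ord g
  map_add : ∀ f g : L, f ≠ 0 → g ≠ 0 → f + g ≠ 0 → min (ord f) (ord g) ≤ ord (f + g)

namespace OrdFn

variable {L : Type*} [Field L] (w : OrdFn L)

/-- `w.O n f`: the element `f` is zero or has order at least `n`. -/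
def O (n : ℤ) (f : L) : Prop := f = 0 ∨ n ≤ w.ord f

lemma ord_one : w.ord 1 = 0 := by
  have h := w.map_mul 1 1 one_ne_zero one_ne_zero
  rw [mul_one] at h
  omega

lemma ord_neg_one : w.ord (-1) = 0 := by
  have h := w.map_mul (-1) (-1) (neg_ne_zero.mpr one_ne_zero) (neg_ne_zero.mpr one_ne_zero)
  rw [neg_one_mul, neg_neg, w.ord_one] at h
  omega

lemma ord_neg {f : L} (hf : f ≠ 0) : w.ord (-f) = w.ord f := by
  have h := w.map_mul (-1) f (neg_ne_zero.mpr one_ne_zero) hf
  rw [neg_one_mul, w.ord_neg_one, zero_add] at h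
  exact h

lemma ord_inv {f : L} (hf : f ≠ 0) : w.ord f⁻¹ = - w.ord f := by
  have h := w.map_mul f f⁻¹ hf (inv_ne_zero hf)
  rw [mul_inv_cancel₀ hf, w.ord_one] at h
  omega

lemma ord_mul {f g : L} (hf : f ≠ 0) (hg : g ≠ 0) : w.ord (f * g) = w.ord f + w.ord g :=
  w.map_mul f g hf hg

lemma ord_div {f g : L} (hf : f ≠ 0) (hg : g ≠ 0) : w.ord (f / g) = w.ord f - w.ord g := by
  rw [div_eq_mul_inv, w.map_mul f _ hf (inv_ne_zero hg), w.ord_inv hg]
  ring

lemma ord_pow {f : L} (hf : f ≠ 0) (n : ℕ) : w.ord (f ^ n) = n * w.ord f := by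
  induction n with
  | zero => simp [w.ord_one]
  | succ n ih =>
    rw [pow_succ, w.map_mul _ _ (pow_ne_zero n hf) hf, ih]
    push_cast
    ring

lemma ord_zpow {f : L} (hf : f ≠ 0) (n : ℤ) : w.ord (f ^ n) = n * w.ord f := by
  obtain ⟨m, rfl | rfl⟩ := n.eq_nat_or_neg
  · rw [zpow_natCast, w.ord_pow hf]
  · rw [zpow_neg, zpow_natCast, w.ord_inv (pow_ne_zero m hf), w.ord_pow hf]
    ring

lemma ord_prod {ι : Type*} (s : Finset ι) (f : ι → L) (h : ∀ i ∈ s, f i ≠ 0) :
    w.ord (∏ i ∈ s, f i) = ∑ i ∈ s, w.ord (f i) := by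
  classical
  induction s using Finset.induction_on with
  | empty => simp [w.ord_one]
  | insert a s ha ih =>
    rw [Finset.prod_insert ha, Finset.sum_insert ha,
      w.map_mul _ _ (h a (Finset.mem_insert_self a s))
        (Finset.prod_ne_zero_iff.mpr fun i hi => h i (Finset.mem_insert_of_mem hi)),
      ih fun i hi => h i (Finset.mem_insert_of_mem hi)]

variable {w}

lemma O_zero (n : ℤ) : w.O n 0 := Or.inl rfl

lemma O_of_le {n : ℤ} {f : L} (h : n ≤ w.ord f) : w.O n f := Or.inr h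

lemma O_self (f : L) : w.O (w.ord f) f := Or.inr le_rfl

lemma O.le {n : ℤ} {f : L} (h : w.O n f) (hf : f ≠ 0) : n ≤ w.ord f := h.resolve_left hf

lemma O.mono {m n : ℤ} {f : L} (h : w.O n f) (hmn : m ≤ n) : w.O m f := by
  rcases h with h | h
  · exact Or.inl h
  · exact Or.inr (hmn.trans h)

lemma O_iff_of_ne {n : ℤ} {f : L} (hf : f ≠ 0) : w.O n f ↔ n ≤ w.ord f :=
  ⟨fun h => h.le hf, O_of_le⟩

lemma O_one : w.O 0 1 := O_of_le (by rw [w.ord_one])

lemma O.neg {n : ℤ} {f : L} (h : w.O n f) : w.O n (-f) := by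
  by_cases hf : f = 0
  · subst hf; simpa using h
  · exact O_of_le (by rw [w.ord_neg hf]; exact h.le hf)

lemma O.add {n : ℤ} {f g : L} (hf : w.O n f) (hg : w.O n g) : w.O n (f + g) := by
  by_cases f0 : f = 0
  · subst f0; simpa using hg
  by_cases g0 : g = 0
  · subst g0; simpa using hf
  by_cases s0 : f + g = 0
  · exact Or.inl s0
  · exact O_of_le (le_trans (le_min (hf.le f0) (hg.le g0)) (w.map_add f g f0 g0 s0))

lemma O.sub {n : ℤ} {f g : L} (hf : w.O n f) (hg : w.O n g) : w.O n (f - g) := by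
  rw [sub_eq_add_neg]; exact hf.add hg.neg

lemma O.mul {m n : ℤ} {f g : L} (hf : w.O m f) (hg : w.O n g) : w.O (m + n) (f * g) := by
  by_cases f0 : f = 0
  · subst f0; left; simp
  by_cases g0 : g = 0
  · subst g0; left; simp
  · exact O_of_le (by rw [w.map_mul f g f0 g0]; exact add_le_add (hf.le f0) (hg.le g0))

lemma O.mul' {m n k : ℤ} {f g : L} (hf : w.O m f) (hg : w.O n g) (h : k ≤ m + n) :
    w.O k (f * g) := (hf.mul hg).mono h

lemma O.inv_self {f : L} : w.O (- w.ord f) f⁻¹ := by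
  by_cases f0 : f = 0
  · subst f0; left; simp
  · exact O_of_le (by rw [w.ord_inv f0])

lemma O.pow {n : ℤ} {f : L} (hf : w.O n f) (m : ℕ) : w.O (m * n) (f ^ m) := by
  induction m with
  | zero => simpa using O_one
  | succ m ih =>
    rw [pow_succ]
    exact (ih.mul hf).mono (by push_cast; linarith)

/-- strict triangle equality -/
lemma add_eq_left {f g : L} (hf : f ≠ 0) (hg : w.O (w.ord f + 1) g) :
    f + g ≠ 0 ∧ w.ord (f + g) = w.ord f := by
  have hne : f + g ≠ 0 := by
    intro h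
    have : g = -f := by linear_combination h
    rw [this] at hg
    have := hg.le (neg_ne_zero.mpr hf)
    rw [w.ord_neg hf] at this
    omega
  refine ⟨hne, le_antisymm ?_ ?_⟩
  · by_contra hcon
    push Not at hcon
    have h1 : w.O (w.ord f + 1) (f + g) := O_of_le (by omega)
    have h2 : w.O (w.ord f + 1) ((f + g) - g) := h1.sub hg
    rw [add_sub_cancel_right] at h2
    have := h2.le hf
    omega
  · exact ((O_self f).add (hg.mono (by omega))).le hne

lemma add_eq_right {f g : L} (hg : g ≠ 0) (hf : w.O (w.ord g + 1) f) :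
    f + g ≠ 0 ∧ w.ord (f + g) = w.ord g := by
  rw [add_comm]; exact add_eq_left hg hf

end OrdFn

end Pool.Agent.DrY
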