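import Pool.Agent.Lib.MP_531408_nt.Ord
import Pool.Agent.Lib.MP_531408_nt.Der

set_option autoImplicit false

namespace Pool.Agent.DrY

open Polynomial

section

variable {K : Type*} [Field K]

/-- order at the finite place `X = a`. -/
noncomputable def ordAt (a : K) : OrdFn (RatFunc K) where
  ord f := (f.num.rootMultiplicity a : ℤ) - f.denom.rootMultiplicity a
  map_mul f g hf hg := by
    have h := RatFunc.num_denom_mul f g
    have h1 : f.num ≠ 0 := RatFunc.num_ne_zero hf
    have h2 : g.num ≠ 0 := RatFunc.num_ne_zero hg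
    have h3 : (f * g).num ≠ 0 := RatFunc.num_ne_zero (mul_ne_zero hf hg)
    have d1 := f.denom_ne_zero
    have d2 := g.denom_ne_zero
    have d3 := (f * g).denom_ne_zero
    have e := congrArg (Polynomial.rootMultiplicity a) h
    rw [Polynomial.rootMultiplicity_mul (mul_ne_zero h3 (mul_ne_zero d1 d2)),
      Polynomial.rootMultiplicity_mul (mul_ne_zero d1 d2),
      Polynomial.rootMultiplicity_mul (mul_ne_zero (mul_ne_zero h1 h2) d3),
      Polynomial.rootMultiplicity_mul (mul_ne_zero h1 h2)] at e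
    omega
  map_add f g hf hg hfg := by
    have h := RatFunc.num_denom_add f g
    have h1 : f.num ≠ 0 := RatFunc.num_ne_zero hf
    have h2 : g.num ≠ 0 := RatFunc.num_ne_zero hg
    have h3 : (f + g).num ≠ 0 := RatFunc.num_ne_zero hfg
    have d1 := f.denom_ne_zero
    have d2 := g.denom_ne_zero
    have d3 := (f + g).denom_ne_zero
    have h4 : f.num * g.denom + f.denom * g.num ≠ 0 := by
      intro h0
      rw [h0, zero_mul] at h
      exact (mul_ne_zero h3 (mul_ne_zero d1 d2)) h
    have e := congrArg (Polynomial.rootMultiplicity a) h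
    rw [Polynomial.rootMultiplicity_mul (mul_ne_zero h3 (mul_ne_zero d1 d2)),
      Polynomial.rootMultiplicity_mul (mul_ne_zero d1 d2),
      Polynomial.rootMultiplicity_mul (mul_ne_zero h4 d3)] at e
    have h5 := Polynomial.rootMultiplicity_add a h4
    rw [Polynomial.rootMultiplicity_mul (mul_ne_zero h1 d2),
      Polynomial.rootMultiplicity_mul (mul_ne_zero d1 h2)] at h5
    omega

/-- minus the degree, the order at infinity -/
noncomputable def ordInf : OrdFn (RatFunc K) where
  ord f := - f.intDegree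
  map_mul f g hf hg := by rw [RatFunc.intDegree_mul hf hg]; ring
  map_add f g _ hg hfg := by
    have := RatFunc.intDegree_add_le hg hfg
    omega

lemma ordInf_ord (f : RatFunc K) : ordInf.ord f = - f.intDegree := rfl

lemma ordAt_algebraMap (a : K) (P : K[X]) :
    (ordAt a).ord (algebraMap K[X] (RatFunc K) P) = P.rootMultiplicity a := by
  show ((algebraMap K[X] (RatFunc K) P).num.rootMultiplicity a : ℤ) -
    (algebraMap K[X] (RatFunc K) P).denom.rootMultiplicity a = _
  rw [RatFunc.num_algebraMap, RatFunc.denom_algebraMap, ← map_one Polynomial.C,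
    Polynomial.rootMultiplicity_C]
  simp

lemma ordAt_C (a b : K) : (ordAt a).ord (RatFunc.C b) = 0 := by
  rw [← RatFunc.algebraMap_C, ordAt_algebraMap, Polynomial.rootMultiplicity_C]; rfl

lemma ordAt_O_C (a b : K) : (ordAt a).O 0 (RatFunc.C b) := OrdFn.O_of_le (by rw [ordAt_C])

lemma ordAt_O_poly (a : K) (P : K[X]) : (ordAt a).O 0 (algebraMap K[X] (RatFunc K) P) :=
  OrdFn.O_of_le (by rw [ordAt_algebraMap]; positivity)

lemma X_sub_C_ne (b : K) : (RatFunc.X - RatFunc.C b : RatFunc K) ≠ 0 := by
  rw [← RatFunc.algebraMap_X, ← RatFunc.algebraMap_C, ← map_sub]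
  exact RatFunc.algebraMap_ne_zero (Polynomial.X_sub_C_ne_zero b)

lemma C_sub_X_ne (b : K) : (RatFunc.C b - RatFunc.X : RatFunc K) ≠ 0 := by
  intro h
  apply X_sub_C_ne b
  linear_combination -h

lemma ordAt_X_sub_C [DecidableEq K] (a b : K) :
    (ordAt a).ord (RatFunc.X - RatFunc.C b) = if b = a then 1 else 0 := by
  rw [← RatFunc.algebraMap_X, ← RatFunc.algebraMap_C, ← map_sub, ordAt_algebraMap,
    Polynomial.rootMultiplicity_X_sub_C]
  by_cases h : a = b
  · subst h; simp
  · rw [if_neg h, if_neg (fun h' => h h'.symm)]; rfl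

lemma ordAt_C_sub_X [DecidableEq K] (a b : K) :
    (ordAt a).ord (RatFunc.C b - RatFunc.X) = if b = a then 1 else 0 := by
  rw [← ordAt_X_sub_C, ← (ordAt a).ord_neg (X_sub_C_ne b)]
  congr 1; ring

lemma ordAt_O_X_sub_C (a b : K) : (ordAt a).O 0 (RatFunc.X - RatFunc.C b) := by
  classical
  apply OrdFn.O_of_le
  rw [ordAt_X_sub_C]
  split_ifs <;> norm_num

lemma ordAt_O_C_sub_X (a b : K) : (ordAt a).O 0 (RatFunc.C b - RatFunc.X) := by
  classical
  apply OrdFn.O_of_le
  rw [ordAt_C_sub_X]
  split_ifs <;> norm_num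

lemma ld_X_sub_C (a : K) :
    ld (RatFunc.X - RatFunc.C a : RatFunc K) = 1 / (RatFunc.X - RatFunc.C a) := by
  unfold ld
  rw [der_sub, der_X, der_C, sub_zero]

/-- the logarithmic derivative at a finite place, polynomial case -/
lemma ld_at_poly (a : K) {P : K[X]} (hP : P ≠ 0) :
    (ordAt a).O 0 (ld (algebraMap K[X] (RatFunc K) P) -
      ((P.rootMultiplicity a : ℕ) : RatFunc K) / (RatFunc.X - RatFunc.C a)) := by
  obtain ⟨Q, hQ, hQa⟩ := Polynomial.exists_eq_pow_rootMultiplicity_mul_and_not_dvd P hP a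
  set m := P.rootMultiplicity a with hm
  have hQ0 : Q ≠ 0 := by rintro rfl; simp at hQa
  have hX := X_sub_C_ne (K := K) a
  have h1 : algebraMap K[X] (RatFunc K) P =
      (RatFunc.X - RatFunc.C a) ^ m * algebraMap K[X] (RatFunc K) Q := by
    conv_lhs => rw [hQ]
    rw [map_mul, map_pow, map_sub, RatFunc.algebraMap_X, RatFunc.algebraMap_C]
  have hQ1 := RatFunc.algebraMap_ne_zero hQ0
  rw [h1, ld_mul (pow_ne_zero m hX) hQ1, ld_pow hX, ld_X_sub_C]
  have h2 : ((m : ℕ) : RatFunc K) * (1 / (RatFunc.X - RatFunc.C a)) + ld (algebraMap K[X] (RatFunc K) Q) -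
      ((m : ℕ) : RatFunc K) / (RatFunc.X - RatFunc.C a) =
      algebraMap K[X] (RatFunc K) (derivative Q) * (algebraMap K[X] (RatFunc K) Q)⁻¹ := by
    unfold ld
    rw [der_algebraMap]
    ring
  rw [h2]
  have h3 : (ordAt a).O 0 (algebraMap K[X] (RatFunc K) Q)⁻¹ := by
    apply OrdFn.O_of_le
    rw [(ordAt a).ord_inv hQ1, ordAt_algebraMap]
    have : Q.rootMultiplicity a = 0 := by
      rw [Polynomial.rootMultiplicity_eq_zero_iff]
      intro h
      exact absurd (Polynomial.dvd_iff_isRoot.mpr h) hQa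
    rw [this]; norm_num
  simpa using (ordAt_O_poly a (derivative Q)).mul h3

/-- the logarithmic derivative at a finite place: `f'/f = ord f/(X-a) + O(0)`. -/
lemma ld_at (a : K) {f : RatFunc K} (hf : f ≠ 0) :
    (ordAt a).O 0 (ld f - (((ordAt a).ord f : ℤ) : RatFunc K) / (RatFunc.X - RatFunc.C a)) := by
  have h1 := ld_at_poly a (RatFunc.num_ne_zero hf)
  have h2 := ld_at_poly a f.denom_ne_zero
  have h3 := h1.sub h2
  have h4 : ld f = ld (algebraMap K[X] (RatFunc K) f.num) -
      ld (algebraMap K[X] (RatFunc K) f.denom) := by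
    conv_lhs => rw [← f.num_div_denom]
    exact ld_div (RatFunc.algebraMap_ne_zero (RatFunc.num_ne_zero hf))
      (RatFunc.algebraMap_ne_zero f.denom_ne_zero)
  have h5 : (((ordAt a).ord f : ℤ) : RatFunc K) =
      ((f.num.rootMultiplicity a : ℕ) : RatFunc K) - ((f.denom.rootMultiplicity a : ℕ)) := by
    show (((f.num.rootMultiplicity a : ℤ) - f.denom.rootMultiplicity a : ℤ) : RatFunc K) = _
    push_cast; ring
  rw [h4, h5]
  convert h3 using 1
  ring

lemma ld_O_neg_one (a : K) {f : RatFunc K} (hf : f ≠ 0) : (ordAt a).O (-1) (ld f) := by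
  classical
  have h1 := ld_at a hf
  have hX : (ordAt a).O (-1) (1 / (RatFunc.X - RatFunc.C a) : RatFunc K) := by
    apply OrdFn.O_of_le
    rw [(ordAt a).ord_div one_ne_zero (X_sub_C_ne a), (ordAt a).ord_one, ordAt_X_sub_C, if_pos rfl]
    norm_num
  have h2 : (ordAt a).O (-1)
      ((((ordAt a).ord f : ℤ) : RatFunc K) / (RatFunc.X - RatFunc.C a)) := by
    have h3 := (ordAt_O_C a (((ordAt a).ord f : ℤ) : K)).mul hX
    rw [map_intCast, zero_add] at h3
    convert h3 using 1
    ring
  have h3 := (h1.mono (by norm_num : (-1 : ℤ) ≤ 0)).add h2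
  convert h3 using 1
  ring

/-- if the characteristic divides the order then the logarithmic derivative is regular. -/
lemma ld_O_zero (a : K) {f : RatFunc K} (hf : f ≠ 0)
    (h0 : (((ordAt a).ord f : ℤ) : K) = 0) : (ordAt a).O 0 (ld f) := by
  have h1 := ld_at a hf
  have h2 : (((ordAt a).ord f : ℤ) : RatFunc K) = 0 := by
    rw [← map_intCast (RatFunc.C : K →+* RatFunc K), h0, map_zero]
  rw [h2] at h1
  simpa using h1

lemma der_O (a : K) {f : RatFunc K} {n : ℤ} (hf : (ordAt a).O n f) :
    (ordAt a).O (n - 1) (der K f) := by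
  by_cases h0 : f = 0
  · subst h0; left; simp
  rw [der_eq_mul_ld h0]
  exact (hf.mul (ld_O_neg_one a h0)).mono (by linarith)

/-- degree of the logarithmic derivative -/
lemma ld_inf {f : RatFunc K} (hf : f ≠ 0) : ordInf.O 1 (ld f) := by
  have hpoly : ∀ P : K[X], P ≠ 0 → ordInf.O 1 (ld (algebraMap K[X] (RatFunc K) P)) := by
    intro P hP
    by_cases hd : derivative P = 0
    · left
      unfold ld
      rw [der_algebraMap, hd]
      simp
    · apply OrdFn.O_of_le
      unfold ld
      rw [der_algebraMap, ordInf_ord, RatFunc.intDegree_div (RatFunc.algebraMap_ne_zero hd)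
        (RatFunc.algebraMap_ne_zero hP), RatFunc.intDegree_polynomial,
        RatFunc.intDegree_polynomial]
      have h1 : P.natDegree ≠ 0 := by
        intro h
        apply hd
        rw [Polynomial.eq_C_of_natDegree_eq_zero h]
        simp
      have h2 := Polynomial.natDegree_derivative_lt h1
      omega
  have h4 : ld f = ld (algebraMap K[X] (RatFunc K) f.num) -
      ld (algebraMap K[X] (RatFunc K) f.denom) := by
    conv_lhs => rw [← f.num_div_denom]
    exact ld_div (RatFunc.algebraMap_ne_zero (RatFunc.num_ne_zero hf))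
      (RatFunc.algebraMap_ne_zero f.denom_ne_zero)
  rw [h4]
  exact (hpoly _ (RatFunc.num_ne_zero hf)).sub (hpoly _ f.denom_ne_zero)

lemma der_inf {f : RatFunc K} {n : ℤ} (hf : ordInf.O n f) : ordInf.O (n + 1) (der K f) := by
  by_cases h0 : f = 0
  · subst h0; left; simp
  rw [der_eq_mul_ld h0]
  exact hf.mul (ld_inf h0)

lemma ordInf_C (b : K) : ordInf.ord (RatFunc.C b) = 0 := by
  rw [ordInf_ord, RatFunc.intDegree_C]; rfl

lemma ordInf_O_C (b : K) : ordInf.O 0 (RatFunc.C b) := OrdFn.O_of_le (by rw [ordInf_C])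

lemma ordInf_X_sub_C (b : K) : ordInf.ord (RatFunc.X - RatFunc.C b) = -1 := by
  rw [ordInf_ord, ← RatFunc.algebraMap_X, ← RatFunc.algebraMap_C, ← map_sub,
    RatFunc.intDegree_polynomial, Polynomial.natDegree_X_sub_C]; rfl

lemma ordInf_C_sub_X (b : K) : ordInf.ord (RatFunc.C b - RatFunc.X) = -1 := by
  rw [← ordInf_X_sub_C b, ← ordInf.ord_neg (X_sub_C_ne b)]
  congr 1; ring

/-- if all finite orders are nonnegative then the degree is nonnegative. -/
lemma intDegree_nonneg [IsAlgClosed K] {f : RatFunc K}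
    (h : ∀ a : K, 0 ≤ (ordAt a).ord f) : 0 ≤ f.intDegree := by
  have hden : f.denom.natDegree = 0 := by
    by_contra hcon
    have hdeg : f.denom.degree ≠ 0 := by
      intro h0
      exact hcon (Polynomial.natDegree_eq_of_degree_eq_some h0)
    obtain ⟨a, ha⟩ := IsAlgClosed.exists_root f.denom hdeg
    have h1 := h a
    have h2 : 0 < f.denom.rootMultiplicity a :=
      (Polynomial.rootMultiplicity_pos f.denom_ne_zero).mpr ha
    have h3 : f.num.rootMultiplicity a = 0 := by
      rw [Polynomial.rootMultiplicity_eq_zero_iff]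
      intro hr
      exfalso
      obtain ⟨u, v, huv⟩ := f.isCoprime_num_denom
      have := congrArg (Polynomial.eval a) huv
      rw [Polynomial.eval_add, Polynomial.eval_mul, Polynomial.eval_mul,
        Polynomial.IsRoot.def.mp hr, Polynomial.IsRoot.def.mp ha] at this
      simp at this
    have h4 : (ordAt a).ord f = (f.num.rootMultiplicity a : ℤ) - f.denom.rootMultiplicity a := rfl
    omega
  rw [RatFunc.intDegree, hden]
  simp

end

section sigma

variable {K : Type*} [Field K]

/-- the ring endomorphism of `K(X)` given by a ring endomorphism of the coefficients. -/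
noncomputable def mapRF (φ : K →+* K) : RatFunc K →+* RatFunc K :=
  RatFunc.mapRingHom (Polynomial.mapRingHom φ)
    (nonZeroDivisors_le_comap_nonZeroDivisors_of_injective _
      (Polynomial.map_injective φ φ.injective))

variable (φ : K →+* K)

lemma mapRF_algebraMap (P : K[X]) :
    mapRF φ (algebraMap K[X] (RatFunc K) P) = algebraMap K[X] (RatFunc K) (P.map φ) := by
  have h := RatFunc.map_apply_div (K := K) (R := K) (Polynomial.mapRingHom φ)
    (nonZeroDivisors_le_comap_nonZeroDivisors_of_injective _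
      (Polynomial.map_injective φ φ.injective)) P 1
  simp only [map_one, div_one] at h
  exact h

lemma mapRF_C (a : K) : mapRF φ (RatFunc.C a) = RatFunc.C (φ a) := by
  rw [← RatFunc.algebraMap_C, mapRF_algebraMap, Polynomial.map_C, RatFunc.algebraMap_C]

lemma mapRF_X : mapRF φ RatFunc.X = RatFunc.X := by
  rw [← RatFunc.algebraMap_X, mapRF_algebraMap, Polynomial.map_X]

lemma mapRF_eq (f : RatFunc K) : mapRF φ f =
    algebraMap K[X] (RatFunc K) (f.num.map φ) / algebraMap K[X] (RatFunc K) (f.denom.map φ) := by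
  conv_lhs => rw [← f.num_div_denom]
  rw [map_div₀, mapRF_algebraMap, mapRF_algebraMap]

lemma mapRF_der (f : RatFunc K) : der K (mapRF φ f) = mapRF φ (der K f) := by
  have h1 : f.denom.map φ ≠ 0 := (Polynomial.map_ne_zero_iff φ.injective).mpr f.denom_ne_zero
  have h2 := RatFunc.algebraMap_ne_zero (K := K) h1
  have h3 := RatFunc.algebraMap_ne_zero (K := K) f.denom_ne_zero
  conv_rhs => rw [← f.num_div_denom]
  rw [mapRF_eq, der_div h2, der_div h3]
  simp only [der_algebraMap, map_div₀, map_sub, map_mul, map_pow, mapRF_algebraMap,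
    Polynomial.derivative_map]

lemma mapRF_intDegree (f : RatFunc K) : (mapRF φ f).intDegree = f.intDegree := by
  by_cases hf : f = 0
  · subst hf; simp
  have h1 : f.denom.map φ ≠ 0 := (Polynomial.map_ne_zero_iff φ.injective).mpr f.denom_ne_zero
  have h4 : f.num.map φ ≠ 0 :=
    (Polynomial.map_ne_zero_iff φ.injective).mpr (RatFunc.num_ne_zero hf)
  rw [mapRF_eq, RatFunc.intDegree_div (RatFunc.algebraMap_ne_zero h4)
    (RatFunc.algebraMap_ne_zero h1), RatFunc.intDegree_polynomial, RatFunc.intDegree_polynomial,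
    Polynomial.natDegree_map_eq_of_injective φ.injective,
    Polynomial.natDegree_map_eq_of_injective φ.injective]
  rfl

lemma mapRF_ordAt (a : K) (f : RatFunc K) :
    (ordAt (φ a)).ord (mapRF φ f) = (ordAt a).ord f := by
  by_cases hf : f = 0
  · subst hf
    rw [map_zero]
    show ((0 : RatFunc K).num.rootMultiplicity _ : ℤ) - (0 : RatFunc K).denom.rootMultiplicity _ =
      ((0 : RatFunc K).num.rootMultiplicity _ : ℤ) - (0 : RatFunc K).denom.rootMultiplicity _
    rw [RatFunc.num_zero, RatFunc.denom_zero, ← map_one Polynomial.C,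
      Polynomial.rootMultiplicity_C, Polynomial.rootMultiplicity_C]
    simp
  have h1 : f.denom.map φ ≠ 0 := (Polynomial.map_ne_zero_iff φ.injective).mpr f.denom_ne_zero
  have h4 : f.num.map φ ≠ 0 :=
    (Polynomial.map_ne_zero_iff φ.injective).mpr (RatFunc.num_ne_zero hf)
  rw [mapRF_eq, (ordAt _).ord_div (RatFunc.algebraMap_ne_zero h4)
    (RatFunc.algebraMap_ne_zero h1), ordAt_algebraMap, ordAt_algebraMap,
    ← Polynomial.eq_rootMultiplicity_map φ.injective,
    ← Polynomial.eq_rootMultiplicity_map φ.injective]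
  rfl

end sigma

end Pool.Agent.DrY
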