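import Pool.Agent.Lib.MP_531408_nt.Master

set_option autoImplicit false

namespace Pool.Agent.DrY

open Polynomial Finset

namespace Sys

variable {K : Type*} [Field K] {p n d : ℕ} [Fact p.Prime] [CharP K p] (S : Sys K p n d)

lemma theta_rho0 (hρ : S.ρ = 0) (i : ℕ) : S.θ i = (RatFunc.X - RatFunc.C (S.t i))⁻¹ := by
  have h := S.theta_eq i
  rw [hρ] at h
  exact eq_inv_of_mul_eq_one_right (by linear_combination h)

lemma theta_sub_rho0 (hρ : S.ρ = 0) (i j : ℕ) : S.θ i - S.θ j =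
    RatFunc.C (S.t i - S.t j) *
      ((RatFunc.X - RatFunc.C (S.t i))⁻¹ * (RatFunc.X - RatFunc.C (S.t j))⁻¹) := by
  rw [S.theta_rho0 hρ, S.theta_rho0 hρ]
  have h1 := X_sub_C_ne (K := K) (S.t i)
  have h2 := X_sub_C_ne (K := K) (S.t j)
  rw [map_sub]
  field_simp
  ring

/-- no place of type B when `ρ = 0` -/
lemma rho0_not_B (hρ : S.ρ = 0) {a : K} {L γ : ℤ} (H : IsB S a L γ) : False := by
  classical
  have hd := S.hd
  have hne := S.t_ne 0 1 (by omega) (by omega)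
  rw [zero_add] at hne
  have h1 := H.W_O hne
  have hγ := H.γpos
  have hC : (RatFunc.C (S.t 0 - S.t 1) : RatFunc K) ≠ 0 :=
    (_root_.map_ne_zero _).mpr (sub_ne_zero.mpr hne)
  have hX0 := X_sub_C_ne (K := K) (S.t 0)
  have hX1 := X_sub_C_ne (K := K) (S.t 1)
  have hθ : S.θ 0 - S.θ 1 ≠ 0 := by
    rw [S.theta_sub_rho0 hρ]
    exact mul_ne_zero hC (mul_ne_zero (inv_ne_zero hX0) (inv_ne_zero hX1))
  rw [W_eq] at h1
  have h2 := h1.le (mul_ne_zero (mul_ne_zero (S.v_ne _) (S.v_ne _)) hθ)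
  rw [(ordAt a).ord_mul (mul_ne_zero (S.v_ne _) (S.v_ne _)) hθ,
    (ordAt a).ord_mul (S.v_ne _) (S.v_ne _), H.hx, H.hx, S.theta_sub_rho0 hρ,
    (ordAt a).ord_mul hC (mul_ne_zero (inv_ne_zero hX0) (inv_ne_zero hX1)), ordAt_C,
    (ordAt a).ord_mul (inv_ne_zero hX0) (inv_ne_zero hX1), (ordAt a).ord_inv hX0,
    (ordAt a).ord_inv hX1, ordAt_X_sub_C, ordAt_X_sub_C] at h2
  split_ifs at h2 <;> omega

/-- second master function -/
noncomputable def F2 : RatFunc K := S.κ ^ d * (∏ i ∈ range d, S.v i) ^ (p ^ n + 1)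

lemma F2_ne : S.F2 ≠ 0 :=
  mul_ne_zero (pow_ne_zero _ S.κ0) (pow_ne_zero _
    (Finset.prod_ne_zero_iff.mpr fun i _ => S.v_ne i))

lemma ord_F2 (w : OrdFn (RatFunc K)) : w.ord S.F2 =
    d * w.ord S.κ + (((p ^ n : ℕ) : ℤ) + 1) * ∑ i ∈ range d, w.ord (S.v i) := by
  have h2 : ∏ i ∈ range d, S.v i ≠ 0 := Finset.prod_ne_zero_iff.mpr fun i _ => S.v_ne i
  unfold F2
  rw [w.ord_mul (pow_ne_zero _ S.κ0) (pow_ne_zero _ h2), w.ord_pow S.κ0, w.ord_pow h2,
    w.ord_prod _ _ fun i _ => S.v_ne i]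
  push_cast
  ring

/-- degree estimate for the second master function -/
lemma F2_inf (hρ : S.ρ = 0) : -((d : ℤ) * ((p ^ n : ℕ) : ℤ)) ≤ ordInf.ord S.F2 := by
  have hq : (2 : ℤ) ≤ ((p ^ n : ℕ) : ℤ) := by exact_mod_cast S.q_ge
  have hd := S.hd
  have hne := S.t_ne 0 1 (by omega) (by omega)
  rw [zero_add] at hne
  set q : ℤ := ((p ^ n : ℕ) : ℤ) with hqdef
  set V := ordInf.ord (S.v 0) with hV
  set e := ordInf.ord (S.v 0 - S.v 1) with he
  -- W has order exactly 2 V + 2 at infinity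
  have hX0 := X_sub_C_ne (K := K) (S.t 0)
  have hX1 := X_sub_C_ne (K := K) (S.t 1)
  have hC : (RatFunc.C (S.t 0 - S.t 1) : RatFunc K) ≠ 0 :=
    (_root_.map_ne_zero _).mpr (sub_ne_zero.mpr hne)
  have hθ : S.θ 0 - S.θ 1 ≠ 0 := by
    rw [S.theta_sub_rho0 hρ]
    exact mul_ne_zero hC (mul_ne_zero (inv_ne_zero hX0) (inv_ne_zero hX1))
  have hW : ordInf.ord (S.W 0 1) = 2 * V + 2 := by
    rw [W_eq, ordInf.ord_mul (mul_ne_zero (S.v_ne _) (S.v_ne _)) hθ,
      ordInf.ord_mul (S.v_ne _) (S.v_ne _), S.inf_v 1, S.theta_sub_rho0 hρ,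
      ordInf.ord_mul hC (mul_ne_zero (inv_ne_zero hX0) (inv_ne_zero hX1)), ordInf_C,
      ordInf.ord_mul (inv_ne_zero hX0) (inv_ne_zero hX1), ordInf.ord_inv hX0,
      ordInf.ord_inv hX1, ordInf_X_sub_C, ordInf_X_sub_C]
    ring
  have hW0 : S.W 0 1 ≠ 0 := by
    intro h
    exact hθ (sub_eq_zero.mpr ((S.W_ne_iff 0 1).mp h))
  have h1 := (S.inf_W 1 0).le (by simpa using hW0)
  rw [zero_add, hW] at h1
  have h2 : e ≤ V + 1 := by linarith
  -- κ
  have h3 := S.inf_kappa 1 (by omega) (by omega)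
  have hN := S.N_eq 0 1
  have hN2 := congrArg ordInf.ord hN
  rw [ordInf.ord_mul (mul_ne_zero S.κ0 (pow_ne_zero _ (S.v_sub_ne hne)))
      (mul_ne_zero (S.v_ne _) (S.v_ne _)),
      ordInf.ord_mul S.κ0 (pow_ne_zero _ (S.v_sub_ne hne)), ordInf.ord_pow (S.v_sub_ne hne),
      ordInf.ord_mul (S.v_ne _) (S.v_ne _), S.inf_v (0 + 1), S.inf_v (1 + 1)] at hN2
  -- N has order at least min (e - 1) V
  have hNO : ordInf.O (min (e - 1) V) (S.N (0 + 1) (1 + 1)) := by
    have h4 : S.N (0 + 1) (1 + 1) = (S.v (0 + 1) - S.v (1 + 1)) *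
        (RatFunc.X - RatFunc.C (S.t (1 + 1))) +
        S.v (1 + 1) * (RatFunc.C (S.t (0 + 1)) - RatFunc.C (S.t (1 + 1))) := by
      rw [N]; ring
    rw [h4]
    refine OrdFn.O.add ?_ ?_
    · refine OrdFn.O.mul' (m := e) (n := -1) ?_ ?_ (by omega)
      · have := S.inf_vsub 1 1
        exact OrdFn.O_of_le (by rw [zero_add, this])
      · exact OrdFn.O_of_le (by rw [ordInf_X_sub_C])
    · refine OrdFn.O.mul' (m := V) (n := 0) ?_ ?_ (by omega)
      · exact OrdFn.O_of_le (by rw [S.inf_v])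
      · rw [← map_sub]; exact ordInf_O_C _
  have h5 := hNO.le (S.N_ne hne)
  rw [ord_F2]
  have h4 : ∑ i ∈ range d, ordInf.ord (S.v i) = d * V := by
    rw [Finset.sum_congr rfl fun i _ => S.inf_v i, Finset.sum_const, Finset.card_range,
      nsmul_eq_mul]
  rw [h4]
  -- ord κ = ord N - q e - 2 V
  have h6 : ordInf.ord S.κ = ordInf.ord (S.N (0 + 1) (1 + 1)) - q * e - 2 * V := by
    linarith
  rw [h6]
  have hd0 : (0 : ℤ) ≤ d := by positivity
  have h7 : -q ≤ ordInf.ord (S.N (0 + 1) (1 + 1)) - q * e - 2 * V + (q + 1) * V := by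
    have h8 : q * e ≤ q * (V + 1) := mul_le_mul_of_nonneg_left h2 (by linarith)
    rcases (by omega : e = V + 1 ∨ e ≤ V) with h9 | h9
    · rw [h9] at h5 ⊢
      have : V ≤ ordInf.ord (S.N (0 + 1) (1 + 1)) := by omega
      linarith
    · have h10 : e - 1 ≤ ordInf.ord (S.N (0 + 1) (1 + 1)) := by omega
      have h11 : (q - 1) * e ≤ (q - 1) * V := mul_le_mul_of_nonneg_left h9 (by linarith)
      linarith
  nlinarith [mul_le_mul_of_nonneg_left h7 hd0]

lemma ordF2_shift (a : K) (m : ℕ) : (ordAt a).ord (S.shift m).F2 = (ordAt a).ord S.F2 := by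
  have h1 : ∑ i ∈ range d, (ordAt a).ord ((S.shift m).v i) =
      ∑ i ∈ range d, (ordAt a).ord (S.v i) :=
    sum_shift (fun i => (ordAt a).ord (S.v i)) d (fun i => by simp only [S.vper]) m
  rw [ord_F2, ord_F2, h1]
  rfl

/-- the orders of `v i` at `a = t i` are not zero when `ρ = 0`. -/
lemma rho0_ord_ne (hρ : S.ρ = 0) (i : ℕ) : (ordAt (S.t i)).ord (S.v i) ≠ 0 := by
  classical
  intro h0
  have h1 : (ordAt (S.t i)).O 0 (S.θ i) := ld_O_zero _ (S.v_ne i) (by rw [h0]; simp)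
  rw [S.theta_rho0 hρ] at h1
  have hX := X_sub_C_ne (K := K) (S.t i)
  have h2 := h1.le (inv_ne_zero hX)
  rw [(ordAt _).ord_inv hX, ordAt_X_sub_C, if_pos rfl] at h2
  omega

/-- the case `ρ = 0` -/
theorem rho_ne_zero [IsAlgClosed K] : S.ρ ≠ 0 := by
  classical
  intro hρ
  have hq : (2 : ℤ) ≤ ((p ^ n : ℕ) : ℤ) := by exact_mod_cast S.q_ge
  have hd := S.hd
  set G : RatFunc K := S.F2 * ((∏ i ∈ range d, (RatFunc.C (S.t i) - RatFunc.X)) ^ (p ^ n + 1))⁻¹
    with hG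
  have hP : ∏ i ∈ range d, (RatFunc.C (S.t i) - RatFunc.X : RatFunc K) ≠ 0 :=
    Finset.prod_ne_zero_iff.mpr fun i _ => C_sub_X_ne _
  have hordG : ∀ w : OrdFn (RatFunc K), w.ord G = w.ord S.F2 -
      (((p ^ n : ℕ) : ℤ) + 1) * ∑ i ∈ range d, w.ord (RatFunc.C (S.t i) - RatFunc.X) := by
    intro w
    rw [hG, w.ord_mul S.F2_ne (inv_ne_zero (pow_ne_zero _ hP)), w.ord_inv (pow_ne_zero _ hP),
      w.ord_pow hP, w.ord_prod _ _ fun i _ => C_sub_X_ne _]
    push_cast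
    ring
  have hloc : ∀ a : K, (((p ^ n : ℕ) : ℤ) + 1) * ∑ i ∈ range d, (if S.t i = a then (1 : ℤ) else 0) ≤
      (ordAt a).ord S.F2 := by
    intro a
    by_cases ha : ∃ m, S.t m = a
    · obtain ⟨m, hm⟩ := ha
      rw [← S.ordF2_shift a m]
      have R := (S.shift m).rules a
      have h0 : (S.shift m).t 0 = a := by
        show S.t (0 + m) = a
        rw [zero_add, hm]
      have hδ0 : (if (S.shift m).t 0 = a then (1 : ℤ) else 0) = 1 := if_pos h0
      have hδ : ∀ i, 0 < i → i < d → (if (S.shift m).t i = a then (1 : ℤ) else 0) = 0 := by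
        intro i hi hid
        rw [if_neg]
        intro h
        have := (S.shift m).t_ne 0 i hi hid
        rw [zero_add, h0, h] at this
        exact this rfl
      have hsum : ∑ i ∈ range d, (if S.t i = a then (1 : ℤ) else 0) = 1 := by
        have h1 := sum_shift (fun i => if S.t i = a then (1 : ℤ) else 0) d
          (fun i => by simp only [S.tper]) m
        rw [← h1]
        exact sum_delta hd hδ0 hδ
      rw [hsum, mul_one, ord_F2]
      refine bound2_p R hδ0 hδ ?_ ?_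
      · rintro ⟨hk, h⟩
        obtain ⟨L, γ, H⟩ := (S.shift m).exists_isB a hk h
        exact (S.shift m).rho0_not_B hρ H
      · have := (S.shift m).rho0_ord_ne hρ 0
        rwa [h0] at this
    · have R := S.rules a
      have hδ : ∀ i, (if S.t i = a then (1 : ℤ) else 0) = 0 := fun i =>
        if_neg fun h => ha ⟨i, h⟩
      rw [Finset.sum_eq_zero fun i _ => hδ i, mul_zero, ord_F2]
      refine bound2_off R hδ ?_
      rintro ⟨hk, h⟩
      obtain ⟨L, γ, H⟩ := S.exists_isB a hk h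
      exact S.rho0_not_B hρ H
  have h1 : ∀ a : K, 0 ≤ (ordAt a).ord G := by
    intro a
    rw [hordG]
    have h2 := hloc a
    have h3 : ∑ i ∈ range d, (ordAt a).ord (RatFunc.C (S.t i) - RatFunc.X) =
        ∑ i ∈ range d, (if S.t i = a then (1 : ℤ) else 0) :=
      Finset.sum_congr rfl fun i _ => ordAt_C_sub_X a (S.t i)
    rw [h3]
    linarith
  have h2 := intDegree_nonneg h1
  have h3 := hordG ordInf
  rw [ordInf_ord] at h3
  have h4 : ∑ i ∈ range d, ordInf.ord (RatFunc.C (S.t i) - RatFunc.X) = -(d : ℤ) := by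
    rw [Finset.sum_congr rfl fun i _ => ordInf_C_sub_X (S.t i)]; simp
  rw [h4] at h3
  have h5 := S.F2_inf hρ
  have hd' : (3 : ℤ) ≤ d := by exact_mod_cast hd
  linarith

end Sys

end Pool.Agent.DrY
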