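import Pool.Agent.Lib.MP_531408_nt.Final

set_option autoImplicit false

namespace Pool.Agent.DrY

open Polynomial

section general

variable {k F L : Type*} [Field k] [Fintype k] [Field F] [Algebra k F] [Field L] [Algebra F L]
  [Algebra k L] [IsScalarTower k F L]

/-- the action of the variable on a field containing the base. -/
noncomputable def PhiL (k : Type*) {F : Type*} (L : Type*) [Field k] [Fintype k] [Field F]
    [Algebra k F] [Field L] [Algebra F L] [Algebra k L] [IsScalarTower k F L]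
    (T g Δ : F) : L →ₗ[k] L :=
  LinearMap.mulLeft k (algebraMap F L T) +
  (LinearMap.mulLeft k (algebraMap F L g)) ∘ₗ (FiniteField.frobeniusAlgHom k L).toLinearMap +
  (LinearMap.mulLeft k (algebraMap F L Δ)) ∘ₗ
    (((FiniteField.frobeniusAlgHom k L).comp (FiniteField.frobeniusAlgHom k L)).toLinearMap)

lemma PhiL_apply (T g Δ : F) (y : L) : PhiL k L T g Δ y = algebraMap F L T * y +
    algebraMap F L g * y ^ (Fintype.card k) + algebraMap F L Δ * y ^ ((Fintype.card k) ^ 2) := by
  show algebraMap F L T * y + algebraMap F L g * y ^ (Fintype.card k) +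
    algebraMap F L Δ * (y ^ (Fintype.card k)) ^ (Fintype.card k) = _
  rw [← pow_mul, ← pow_two]

omit [Fintype k] in
lemma aeval_intertwine {V W : Type*} [AddCommGroup V] [Module k V] [AddCommGroup W] [Module k W]
    (f : V →ₗ[k] V) (h : W →ₗ[k] W) (j : V →ₗ[k] W) (hj : ∀ v, j (f v) = h (j v)) (a : k[X])
    (v : V) : j (aeval f a v) = aeval h a (j v) := by
  have hpow : ∀ n : ℕ, ∀ v, j ((f ^ n) v) = (h ^ n) (j v) := by
    intro n
    induction n with
    | zero => intro v; rfl
    | succ n ih =>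
      intro v
      rw [pow_succ, pow_succ, Module.End.mul_apply, Module.End.mul_apply, ih, hj]
  rw [aeval_endomorphism, aeval_endomorphism, Polynomial.sum, Polynomial.sum, map_sum]
  refine Finset.sum_congr rfl fun n _ => ?_
  rw [map_smul, hpow]

lemma exists_poly (hcard : ((Fintype.card k : ℕ) : F) = 0) (T g Δ : F) (a : k[X]) :
    ∃ G : F[X], (∀ y : L, aeval y G = aeval (PhiL k L T g Δ) a y) ∧
      derivative G = C (aeval T a) := by
  have hcard1 : 1 < Fintype.card k := Fintype.one_lt_card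
  induction a using Polynomial.induction_on with
  | C c =>
    refine ⟨C (algebraMap k F c) * X, ?_, ?_⟩
    · intro y
      rw [map_mul, aeval_X, aeval_C, aeval_C, ← IsScalarTower.algebraMap_apply k F L,
        Module.algebraMap_end_apply, Algebra.smul_def]
    · rw [derivative_C_mul, derivative_X, mul_one, aeval_C]
  | add a b ha hb =>
    obtain ⟨G, hG1, hG2⟩ := ha
    obtain ⟨H, hH1, hH2⟩ := hb
    refine ⟨G + H, ?_, ?_⟩
    · intro y
      rw [map_add, hG1, hH1, map_add, LinearMap.add_apply]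
    · rw [derivative_add, hG2, hH2, map_add, map_add]
  | monomial n c ih =>
    obtain ⟨G, hG1, hG2⟩ := ih
    refine ⟨C T * G + C g * G ^ (Fintype.card k) + C Δ * G ^ ((Fintype.card k) ^ 2), ?_, ?_⟩
    · intro y
      have h1 : (C c * X ^ (n + 1) : k[X]) = X * (C c * X ^ n) := by rw [pow_succ]; ring
      rw [h1, map_mul, aeval_X, Module.End.mul_apply, ← hG1, PhiL_apply]
      simp only [map_add, map_mul, map_pow, aeval_C]
    · have h1 : (C c * X ^ (n + 1) : k[X]) = X * (C c * X ^ n) := by rw [pow_succ]; ring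
      rw [h1, map_mul (aeval T), aeval_X, derivative_add, derivative_add, derivative_C_mul,
        derivative_C_mul, derivative_C_mul, derivative_pow, derivative_pow, hG2, Nat.cast_pow,
        hcard]
      simp

lemma sep_of_root (hcard : ((Fintype.card k : ℕ) : F) = 0) (T g Δ : F) (a : k[X])
    (ha : aeval T a ≠ 0) (y : L) (hy : aeval (PhiL k L T g Δ) a y = 0) : IsSeparable F y := by
  obtain ⟨G, hG1, hG2⟩ := exists_poly (L := L) hcard T g Δ a
  have hsep : G.Separable := by
    rw [Polynomial.Separable, hG2]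
    refine ⟨0, C (aeval T a)⁻¹, ?_⟩
    rw [zero_mul, zero_add, ← C_mul, inv_mul_cancel₀ ha, C_1]
  exact hsep.of_dvd (minpoly.dvd F y (by rw [hG1, hy]))


theorem descent_S [Normal F L] {p n : ℕ} [Fact p.Prime] [CharP F p]
    (hn : n ≠ 0) (hcard : Fintype.card k = p ^ n) (P : k[X])
    (hirr : Irreducible (P.map (algebraMap k F)))
    (T g Δ : F) (hPT : aeval T P ≠ 0) (S : Set L)
    (hfin : S.Finite) (hncard : S.ncard = (p ^ n) ^ P.natDegree)
    (h0 : (0 : L) ∈ S)
    (hadd : ∀ x ∈ S, ∀ y ∈ S, x + y ∈ S)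
    (hsmul : ∀ c : k, ∀ x ∈ S, c • x ∈ S)
    (hstab : ∀ x ∈ S, PhiL k L T g Δ x ∈ S)
    (htor : ∀ x ∈ S, aeval (PhiL k L T g Δ) P x = 0)
    (hgal : ∀ σ : L ≃ₐ[F] L, ∀ x ∈ S, σ x ∈ S) :
    ∃ Q : F[X], P.map (algebraMap k F) ∣ X - C T - C g * Q -
      C Δ * (Q.map (FiniteField.frobeniusAlgHom k F : F →+* F)) * Q := by
  classical
  have hcard0 : ((Fintype.card k : ℕ) : F) = 0 := by
    rw [hcard, Nat.cast_pow, CharP.cast_eq_zero, zero_pow hn]
  have hsep : ∀ x ∈ S, IsSeparable F x := fun x hx =>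
    sep_of_root hcard0 _ _ _ P hPT x (htor x hx)
  let E : IntermediateField F L := separableClosure F L
  have hSE : ∀ x ∈ S, x ∈ E := fun x hx => mem_separableClosure_iff.mpr (hsep x hx)
  have : IsGalois F E := separableClosure.isGalois F L
  let V : Submodule k E :=
    { carrier := {x | (x : L) ∈ S}
      add_mem' := fun {a b} ha hb => hadd _ ha _ hb
      zero_mem' := h0
      smul_mem' := fun c x hx => hsmul c _ hx }
  have hVmem : ∀ x : E, x ∈ V ↔ (x : L) ∈ S := fun x => Iff.rfl
  let eq : V ≃ S :=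
    { toFun := fun v => ⟨((v : E) : L), v.2⟩
      invFun := fun s => ⟨⟨(s : L), hSE _ s.2⟩, s.2⟩
      left_inv := fun v => rfl
      right_inv := fun s => rfl }
  have : Finite S := hfin
  have : Finite V := Finite.of_equiv _ eq.symm
  have hcardV : Nat.card V = (p ^ n) ^ P.natDegree := by
    rw [Nat.card_congr eq, ← hncard]
    rfl
  have hfr : Module.finrank k V = P.natDegree := by
    have h1 := Module.natCard_eq_pow_finrank (K := k) (V := V)
    rw [hcardV, Nat.card_eq_fintype_card, hcard] at h1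
    have h2 : 2 ≤ p ^ n := by
      calc 2 ≤ p := (Fact.out : p.Prime).two_le
        _ = p ^ 1 := (pow_one p).symm
        _ ≤ p ^ n := Nat.pow_le_pow_right (Fact.out : p.Prime).pos (Nat.one_le_iff_ne_zero.mpr hn)
    exact (Nat.pow_right_injective h2 h1).symm
  have hcompat : ∀ x : E, ((PhiL k E T g Δ x : E) : L) = PhiL k L T g Δ (x : L) := by
    intro x
    rw [PhiL_apply, PhiL_apply]
    rfl
  let φV : V →ₗ[k] V := (PhiL k E T g Δ).restrict (fun x hx => by
    rw [hVmem, hcompat]
    exact hstab _ hx)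
  have hφ : ∀ s : V, ((φV s : V) : E) = algebraMap F E T * s +
      algebraMap F E g * (s : E) ^ (Fintype.card k) +
      algebraMap F E Δ * (s : E) ^ ((Fintype.card k) ^ 2) := by
    intro s
    rw [← PhiL_apply]
    rfl
  have hPV : aeval φV P = 0 := by
    refine LinearMap.ext fun v => ?_
    let j : V →ₗ[k] L :=
      { toFun := fun v => ((v : E) : L)
        map_add' := fun _ _ => rfl
        map_smul' := fun _ _ => rfl }
    have hj : ∀ v, j (φV v) = PhiL k L T g Δ (j v) := by
      intro v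
      exact hcompat v
    have h1 := aeval_intertwine φV (PhiL k L T g Δ) j hj P v
    rw [show j v = ((v : E) : L) from rfl, htor _ v.2] at h1
    apply Subtype.ext
    apply Subtype.ext
    exact h1
  have hσ : ∀ σ : E ≃ₐ[F] E, ∀ s : E, s ∈ V → σ s ∈ V := by
    intro σ s hs
    have h1 := AlgEquiv.liftNormal_commutes σ L s
    rw [hVmem]
    have h2 := hgal (σ.liftNormal L) _ hs
    have h3 : ((σ s : E) : L) = σ.liftNormal L (s : L) := h1.symm
    rw [h3]
    exact h2
  exact descent T g Δ V φV hφ hσ P hirr hPV hfr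

end general

lemma irr_map {k : Type*} [Field k] (P : k[X]) (hm : P.Monic) (hirr : Irreducible P) :
    Irreducible (P.map (algebraMap k (RatFunc k))) := by
  have h1 : Irreducible (P.map (C : k →+* k[X])) := by
    apply Polynomial.Monic.irreducible_of_irreducible_map (evalRingHom (0 : k)) _ (hm.map _)
    rw [Polynomial.map_map]
    have : (evalRingHom (0 : k)).comp (C : k →+* k[X]) = RingHom.id k := by
      ext a
      simp
    rw [this, Polynomial.map_id]
    exact hirr
  have h2 := ((hm.map (C : k →+* k[X])).irreducible_iff_irreducible_map_fraction_map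
    (K := RatFunc k)).mp h1
  rw [Polynomial.map_map] at h2
  exact h2

theorem no_S {k : Type*} [Field k] [Fintype k] {p n : ℕ} [Fact p.Prime] [CharP k p]
    (hn : n ≠ 0) (hcard : Fintype.card k = p ^ n) (P : k[X]) (hm : P.Monic) (hirr : Irreducible P)
    (hd : 3 ≤ P.natDegree) (h33 : ¬ (p ^ n = 3 ∧ P.natDegree = 3))
    (g Δ : RatFunc k) (hΔ : Δ ≠ 0) (L : Type*) [Field L] [Algebra (RatFunc k) L] [Algebra k L]
    [IsScalarTower k (RatFunc k) L] [Normal (RatFunc k) L] (S : Set L)
    (hfin : S.Finite) (hncard : S.ncard = (p ^ n) ^ P.natDegree)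
    (h0 : (0 : L) ∈ S)
    (hadd : ∀ x ∈ S, ∀ y ∈ S, x + y ∈ S)
    (hsmul : ∀ c : k, ∀ x ∈ S, c • x ∈ S)
    (hstab : ∀ x ∈ S, PhiL k L RatFunc.X g Δ x ∈ S)
    (htor : ∀ x ∈ S, aeval (PhiL k L RatFunc.X g Δ) P x = 0)
    (hgal : ∀ σ : L ≃ₐ[RatFunc k] L, ∀ x ∈ S, σ x ∈ S) : False := by
  have : CharP (RatFunc k) p :=
    charP_of_injective_algebraMap (algebraMap k (RatFunc k)).injective p
  have hPT : aeval (RatFunc.X : RatFunc k) P ≠ 0 := by
    rw [← RatFunc.algebraMap_X, Polynomial.aeval_algebraMap_apply, Polynomial.aeval_X_left_apply]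
    exact (map_ne_zero_iff _ (IsFractionRing.injective k[X] (RatFunc k))).mpr hirr.ne_zero
  obtain ⟨Q, hQ⟩ := descent_S (L := L) hn hcard P (irr_map P hm hirr) RatFunc.X g Δ hPT S hfin
    hncard h0 hadd hsmul hstab htor hgal
  exact no_Q hn hcard P hirr hd h33 g Δ hΔ Q hQ

end Pool.Agent.DrY
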