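import Pool.Agent.Lib.MP_531408_nt.RF
import Pool.Agent.Lib.MP_531408_nt.LocP3

set_option autoImplicit false

namespace Pool.Agent.DrY

open Polynomial

/-- The system of equations attached to an isogeny of degree `𝔭`: `t i` are the roots of `𝔭`,
`v (i+1) * (1 + κ * v i ^ q) = t (i+1) - X` in `K(X)`, where `q = p ^ n`. -/
structure Sys (K : Type*) [Field K] (p n d : ℕ) [Fact p.Prime] [CharP K p] where
  t : ℕ → K
  v : ℕ → RatFunc K
  κ : RatFunc K
  hn : n ≠ 0
  hd : 3 ≤ d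
  ht : ∀ i, t (i + 1) = t i ^ (p ^ n)
  tper : ∀ i, t (i + d) = t i
  tinj : ∀ i j, i < d → j < d → t i = t j → i = j
  vper : ∀ i, v (i + d) = v i
  vs : ∀ i, mapRF (iterateFrobenius K p n) (v i) = v (i + 1)
  κs : mapRF (iterateFrobenius K p n) κ = κ
  κ0 : κ ≠ 0
  heq : ∀ i, v (i + 1) * (1 + κ * v i ^ (p ^ n)) = RatFunc.C (t (i + 1)) - RatFunc.X

namespace Sys

variable {K : Type*} [Field K] {p n d : ℕ} [Fact p.Prime] [CharP K p] (S : Sys K p n d)

/-- shift of the indices -/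
def shift (m : ℕ) : Sys K p n d where
  t i := S.t (i + m)
  v i := S.v (i + m)
  κ := S.κ
  hn := S.hn
  hd := S.hd
  ht i := by rw [show i + 1 + m = i + m + 1 by ring]; exact S.ht _
  tper i := by rw [show i + d + m = i + m + d by ring]; exact S.tper _
  tinj i j hi hj h := by
    have hd := S.hd
    have hper : ∀ i m, S.t (i + m * d) = S.t i := by
      intro i m
      induction m with
      | zero => simp
      | succ m ih => rw [← ih, ← S.tper (i + m * d)]; congr 1; ring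
    have hmod : ∀ i, S.t (i % d) = S.t i := by
      intro i
      conv_rhs => rw [← Nat.mod_add_div i d, mul_comm d, hper]
    have h1 : S.t ((i + m) % d) = S.t ((j + m) % d) := by rw [hmod, hmod]; exact h
    have h2 := S.tinj _ _ (Nat.mod_lt _ (by omega)) (Nat.mod_lt _ (by omega)) h1
    have h3 : i ≡ j [MOD d] := Nat.ModEq.add_right_cancel' m h2
    exact Nat.ModEq.eq_of_lt_of_lt h3 hi hj
  vper i := by rw [show i + d + m = i + m + d by ring]; exact S.vper _
  vs i := by rw [show i + 1 + m = i + m + 1 by ring]; exact S.vs _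
  κs := S.κs
  κ0 := S.κ0
  heq i := by rw [show i + 1 + m = i + m + 1 by ring]; exact S.heq _

lemma p_prime : p.Prime := Fact.out

lemma q_ge (S : Sys K p n d) : 2 ≤ p ^ n := by
  have := (p_prime (p := p)).two_le
  calc 2 ≤ p := this
    _ = p ^ 1 := (pow_one p).symm
    _ ≤ p ^ n := Nat.pow_le_pow_right (by omega) (Nat.one_le_iff_ne_zero.mpr S.hn)

lemma p_dvd_q (S : Sys K p n d) : p ∣ p ^ n := dvd_pow_self p S.hn

lemma q_cast (S : Sys K p n d) : ((p ^ n : ℕ) : K) = 0 :=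
  (CharP.cast_eq_zero_iff K p _).mpr S.p_dvd_q

lemma tper_mul (i m : ℕ) : S.t (i + m * d) = S.t i := by
  induction m with
  | zero => simp
  | succ m ih => rw [← ih, ← S.tper (i + m * d)]; congr 1; ring

lemma t_mod (i : ℕ) : S.t (i % d) = S.t i := by
  conv_rhs => rw [← Nat.mod_add_div i d, mul_comm d, S.tper_mul]

lemma t_eq_iff (i j : ℕ) : S.t i = S.t j ↔ i ≡ j [MOD d] := by
  have hd := S.hd
  constructor
  · intro h
    have h1 : S.t (i % d) = S.t (j % d) := by rw [S.t_mod, S.t_mod]; exact h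
    exact S.tinj _ _ (Nat.mod_lt _ (by omega)) (Nat.mod_lt _ (by omega)) h1
  · intro h
    rw [← S.t_mod i, ← S.t_mod j, h]

lemma t_ne (i j : ℕ) (h : 0 < j) (hj : j < d) : S.t i ≠ S.t (i + j) := by
  intro he
  rw [S.t_eq_iff] at he
  have h1 : i + 0 ≡ i + j [MOD d] := he
  have h2 : 0 ≡ j [MOD d] := Nat.ModEq.add_left_cancel' i h1
  have h3 := Nat.ModEq.eq_of_lt_of_lt h2 (by have := S.hd; omega) hj
  omega

lemma v_ne (i : ℕ) : S.v i ≠ 0 := by
  have h1 : S.v (i + d - 1 + 1) ≠ 0 := by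
    intro h
    have := S.heq (i + d - 1)
    rw [h, zero_mul] at this
    exact C_sub_X_ne _ this.symm
  have hd := S.hd
  rw [show i + d - 1 + 1 = i + d by omega, S.vper] at h1
  exact h1

lemma heq' (i : ℕ) : S.v i * (1 + S.κ * S.v (i + d - 1) ^ (p ^ n)) =
    RatFunc.C (S.t i) - RatFunc.X := by
  have := S.heq (i + d - 1)
  have hd := S.hd
  rwa [show i + d - 1 + 1 = i + d by omega, S.vper, S.tper] at this

instance : CharP (RatFunc K) p :=
  charP_of_injective_algebraMap (algebraMap K (RatFunc K)).injective p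

lemma z_ne (i : ℕ) : 1 + S.κ * S.v i ^ (p ^ n) ≠ 0 := by
  intro h
  have := S.heq i
  rw [h, mul_zero] at this
  exact C_sub_X_ne _ this.symm

lemma z_sub (i j : ℕ) : (1 + S.κ * S.v i ^ (p ^ n)) - (1 + S.κ * S.v j ^ (p ^ n)) =
    S.κ * (S.v i - S.v j) ^ (p ^ n) := by
  rw [sub_pow_char_pow]
  ring

/-- the quantity `N` -/
noncomputable def N (i j : ℕ) : RatFunc K :=
  S.v i * (RatFunc.X - RatFunc.C (S.t j)) - S.v j * (RatFunc.X - RatFunc.C (S.t i))

lemma N_eq (i j : ℕ) : S.κ * (S.v i - S.v j) ^ (p ^ n) * (S.v (i + 1) * S.v (j + 1)) =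
    S.N (i + 1) (j + 1) := by
  rw [← S.z_sub i j, N]
  linear_combination S.v (j + 1) * S.heq i - S.v (i + 1) * S.heq j

lemma v_sub_ne {i j : ℕ} (h : S.t i ≠ S.t j) : S.v i - S.v j ≠ 0 := by
  intro h0
  have h1 : S.v i = S.v j := sub_eq_zero.mp h0
  have h2 : S.v (i + 1) = S.v (j + 1) := by rw [← S.vs, ← S.vs, h1]
  have h3 := S.heq i
  rw [h2, h1, S.heq j] at h3
  have h4 : RatFunc.C (S.t (j + 1)) = RatFunc.C (S.t (i + 1)) := by linear_combination h3
  have h5 := RatFunc.C_injective h4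
  rw [S.ht, S.ht] at h5
  have h6 : iterateFrobenius K p n (S.t j) = iterateFrobenius K p n (S.t i) := h5
  exact h ((iterateFrobenius K p n).injective h6).symm

lemma N_ne {i j : ℕ} (h : S.t i ≠ S.t j) : S.N (i + 1) (j + 1) ≠ 0 := by
  rw [← S.N_eq]
  exact mul_ne_zero (mul_ne_zero S.κ0 (pow_ne_zero _ (S.v_sub_ne h)))
    (mul_ne_zero (S.v_ne _) (S.v_ne _))

/-- logarithmic derivative of κ -/
noncomputable def ρ : RatFunc K := ld S.κ

/-- logarithmic derivative of `v i` -/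
noncomputable def θ (i : ℕ) : RatFunc K := ld (S.v i)

lemma theta_eq (i : ℕ) : (RatFunc.X - RatFunc.C (S.t i)) * S.θ i =
    1 - S.ρ * (RatFunc.X - RatFunc.C (S.t i)) - S.ρ * S.v i := by
  have h1 := S.heq' i
  have h2 := congrArg (der K) h1
  rw [der_mul, der_add, der_one, der_mul, der_pow_char _ S.q_cast, der_sub, der_C, der_X,
    der_eq_mul_ld (S.v_ne i), der_eq_mul_ld S.κ0] at h2
  change _ * (0 + (_ + _ * (S.κ * S.ρ))) + _ * (S.v i * S.θ i) = _ at h2
  set w := S.v (i + d - 1) ^ (p ^ n) with hw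
  linear_combination -h2 + (S.θ i + S.ρ) * h1

/-- the Wronskian of `v i`, `v j` -/
noncomputable def W (i j : ℕ) : RatFunc K := der K (S.v i) * S.v j - S.v i * der K (S.v j)

lemma W_eq (i j : ℕ) : S.W i j = S.v i * S.v j * (S.θ i - S.θ j) := by
  rw [W, der_eq_mul_ld (S.v_ne i), der_eq_mul_ld (S.v_ne j), θ, θ]
  ring

lemma theta_sub (i j : ℕ) :
    (RatFunc.X - RatFunc.C (S.t i)) * (RatFunc.X - RatFunc.C (S.t j)) * (S.θ i - S.θ j) =
      (RatFunc.C (S.t i) - RatFunc.C (S.t j)) - S.ρ * S.N i j := by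
  rw [N]
  linear_combination (RatFunc.X - RatFunc.C (S.t j)) * S.theta_eq i -
    (RatFunc.X - RatFunc.C (S.t i)) * S.theta_eq j

lemma W_ne_iff (i j : ℕ) : S.W i j = 0 ↔ S.θ i = S.θ j := by
  rw [W_eq]
  constructor
  · intro h
    rcases mul_eq_zero.mp h with h | h
    · exact absurd h (mul_ne_zero (S.v_ne i) (S.v_ne j))
    · exact sub_eq_zero.mp h
  · intro h
    rw [h]; ring

lemma sigma_W (i j : ℕ) : mapRF (iterateFrobenius K p n) (S.W i j) = S.W (i + 1) (j + 1) := by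
  rw [W, W, map_sub, map_mul, map_mul, ← mapRF_der, ← mapRF_der, S.vs, S.vs]

lemma W_succ_eq_zero_iff (i j : ℕ) : S.W (i + 1) (j + 1) = 0 ↔ S.W i j = 0 := by
  rw [← S.sigma_W]
  exact map_eq_zero _

lemma W_all (s : ℕ) (h : S.W 0 s ≠ 0) (i : ℕ) : S.W i (i + s) ≠ 0 := by
  induction i with
  | zero => simpa using h
  | succ i ih =>
    rw [show i + 1 + s = i + s + 1 by ring]
    exact fun h' => ih ((S.W_succ_eq_zero_iff _ _).mp h')

lemma W_all_zero (s : ℕ) (h : S.W 0 s = 0) (i : ℕ) : S.W i (i + s) = 0 := by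
  induction i with
  | zero => simpa using h
  | succ i ih =>
    rw [show i + 1 + s = i + s + 1 by ring]
    exact (S.W_succ_eq_zero_iff _ _).mpr ih

section local_

variable (a : K)

lemma rules [DecidableEq K] : Rules (p ^ n) d (fun i => (ordAt a).ord (S.v i))
    (fun i => if S.t i = a then 1 else 0) ((ordAt a).ord S.κ) := by
  have key : ∀ i, (ordAt a).ord (S.v (i + 1)) + (ordAt a).ord (1 + S.κ * S.v i ^ (p ^ n)) =
      if S.t (i + 1) = a then 1 else 0 := by
    intro i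
    rw [← ordAt_C_sub_X a (S.t (i + 1)), ← S.heq i, (ordAt a).ord_mul (S.v_ne _) (S.z_ne _)]
  have hc : ∀ i, (ordAt a).ord (S.κ * S.v i ^ (p ^ n)) =
      (ordAt a).ord S.κ + ((p ^ n : ℕ) : ℤ) * (ordAt a).ord (S.v i) := by
    intro i
    rw [(ordAt a).ord_mul S.κ0 (pow_ne_zero _ (S.v_ne i)), (ordAt a).ord_pow (S.v_ne i)]
  have hne : ∀ i, S.κ * S.v i ^ (p ^ n) ≠ 0 := fun i =>
    mul_ne_zero S.κ0 (pow_ne_zero _ (S.v_ne i))
  refine ⟨S.q_ge, S.hd, fun i => by simp only [S.vper], fun i => by simp only [S.tper],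
    fun i => by split_ifs <;> simp, ?_, ?_, ?_⟩
  · intro i h
    have h1 := OrdFn.add_eq_left (w := ordAt a) (f := 1) (g := S.κ * S.v i ^ (p ^ n)) one_ne_zero
      (OrdFn.O_of_le (by rw [(ordAt a).ord_one, hc]; omega))
    have h2 := key i
    rw [h1.2, (ordAt a).ord_one] at h2
    omega
  · intro i h
    have h1 := OrdFn.add_eq_right (w := ordAt a) (f := 1) (g := S.κ * S.v i ^ (p ^ n)) (hne i)
      (OrdFn.O_of_le (by rw [(ordAt a).ord_one, hc]; omega))
    have h2 := key i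
    rw [h1.2, hc] at h2
    omega
  · intro i h
    have h1 : (ordAt a).O 0 (1 + S.κ * S.v i ^ (p ^ n)) :=
      OrdFn.O_one.add (OrdFn.O_of_le (by rw [hc]; omega))
    have h2 := h1.le (S.z_ne i)
    have h3 := key i
    omega

omit [Fact p.Prime] in
lemma cast_dvd {m : ℤ} (h : (p : ℤ) ∣ m) : ((m : ℤ) : K) = 0 :=
  (CharP.intCast_eq_zero_iff K p m).mpr h

lemma wr (s : ℕ) (hW : ∀ i, S.W i (i + s) ≠ 0) (hρ : S.ρ ≠ 0) :
    Wr p s (fun i => (ordAt a).ord (S.v i)) (fun i => (ordAt a).ord (S.W i (i + s)))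
      ((ordAt a).ord S.κ) ((ordAt a).ord S.ρ) := by
  have hθ : ∀ i, S.θ i - S.θ (i + s) ≠ 0 := by
    intro i h
    exact hW i ((S.W_ne_iff _ _).mpr (sub_eq_zero.mp h))
  have ho : ∀ i, (ordAt a).ord (S.W i (i + s)) = (ordAt a).ord (S.v i) +
      (ordAt a).ord (S.v (i + s)) + (ordAt a).ord (S.θ i - S.θ (i + s)) := by
    intro i
    rw [S.W_eq, (ordAt a).ord_mul (mul_ne_zero (S.v_ne _) (S.v_ne _)) (hθ i),
      (ordAt a).ord_mul (S.v_ne _) (S.v_ne _)]
  refine ⟨?_, ?_, ?_, ?_⟩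
  · intro i
    have h1 : (ordAt a).O (-1) (S.θ i - S.θ (i + s)) :=
      (ld_O_neg_one a (S.v_ne i)).sub (ld_O_neg_one a (S.v_ne _))
    have h2 := h1.le (hθ i)
    have h3 := ho i
    omega
  · intro i hdiv
    have h1 := (ld_at a (S.v_ne i)).sub (ld_at a (S.v_ne (i + s)))
    have h0 : (((ordAt a).ord (S.v i) : ℤ) : RatFunc K) -
        (((ordAt a).ord (S.v (i + s)) : ℤ) : RatFunc K) = 0 := by
      rw [← Int.cast_sub, ← map_intCast (RatFunc.C : K →+* RatFunc K), cast_dvd hdiv, map_zero]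
    have h2 : (ordAt a).O 0 (S.θ i - S.θ (i + s)) := by
      convert h1 using 1
      rw [θ, θ]
      have : (((ordAt a).ord (S.v i) : ℤ) : RatFunc K) =
        (((ordAt a).ord (S.v (i + s)) : ℤ) : RatFunc K) := by linear_combination h0
      rw [this]
      ring
    have h2 := h2.le (hθ i)
    have h3 := ho i
    omega
  · exact (ld_O_neg_one a S.κ0).le hρ
  · intro hdiv
    exact (ld_O_zero a S.κ0 (cast_dvd hdiv)).le hρ

end local_

end Sys

end Pool.Agent.DrY
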