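import Pool.Agent.Lib.MP_531408_nt.Sys

set_option autoImplicit false

namespace Pool.Agent.DrY

open Polynomial

namespace Sys

variable {K : Type*} [Field K] {p n d : ℕ} [Fact p.Prime] [CharP K p] (S : Sys K p n d)
variable {a : K} {L : ℤ}

lemma exists_third (l i : ℕ) : ∃ j, S.t l ≠ S.t j ∧ S.t i ≠ S.t j := by
  have hd := S.hd
  have h1 := S.t_ne l 1 (by omega) (by omega)
  have h2 := S.t_ne l 2 (by omega) (by omega)
  have h3 := S.t_ne (l + 1) 1 (by omega) (by omega)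
  by_cases h : S.t i = S.t (l + 1)
  · refine ⟨l + 2, h2, ?_⟩
    rw [h]
    exact h3
  · exact ⟨l + 1, h1, h⟩

lemma N_O (hx : ∀ i, (ordAt a).ord (S.v i) = -L) (i j : ℕ) : (ordAt a).O (-L) (S.N i j) := by
  have h : ∀ i, (ordAt a).O (-L) (S.v i) := fun i => OrdFn.O_of_le (by rw [hx])
  rw [N]
  exact ((h i).mul' (ordAt_O_X_sub_C _ _) (by linarith)).sub
    ((h j).mul' (ordAt_O_X_sub_C _ _) (by linarith))

lemma tsucc_ne {i j : ℕ} (h : S.t i ≠ S.t j) : S.t (i + 1) ≠ S.t (j + 1) := by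
  intro h'
  rw [S.ht, S.ht] at h'
  exact h ((iterateFrobenius K p n).injective h')

lemma B_w (hL : 0 < L) (hx : ∀ i, (ordAt a).ord (S.v i) = -L)
    (hk : (ordAt a).ord S.κ = ((p ^ n : ℕ) : ℤ) * L) {i j : ℕ} (h : S.t i ≠ S.t j) :
    ((p ^ n : ℕ) : ℤ) * ((ordAt a).ord (S.v i - S.v j) + L) = L := by
  have hq : (2 : ℤ) ≤ ((p ^ n : ℕ) : ℤ) := by exact_mod_cast S.q_ge
  set q : ℤ := ((p ^ n : ℕ) : ℤ) with hqdef
  have hN : ∀ i j, S.t i ≠ S.t j → (ordAt a).ord (S.N (i + 1) (j + 1)) =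
      q * L + q * (ordAt a).ord (S.v i - S.v j) - 2 * L := by
    intro i j h
    rw [← S.N_eq, (ordAt a).ord_mul (mul_ne_zero S.κ0 (pow_ne_zero _ (S.v_sub_ne h)))
      (mul_ne_zero (S.v_ne _) (S.v_ne _)),
      (ordAt a).ord_mul S.κ0 (pow_ne_zero _ (S.v_sub_ne h)), (ordAt a).ord_pow (S.v_sub_ne h),
      (ordAt a).ord_mul (S.v_ne _) (S.v_ne _), hx, hx, hk]
    ring
  have hw : ∀ i j, S.t i ≠ S.t j → -L + 1 ≤ (ordAt a).ord (S.v i - S.v j) := by
    intro i j h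
    have h1 := (S.N_O hx (i + 1) (j + 1)).le (S.N_ne h)
    rw [hN i j h] at h1
    by_contra hcon
    push Not at hcon
    have h2 : (ordAt a).ord (S.v i - S.v j) + L ≤ 0 := by omega
    have h3 : q * ((ordAt a).ord (S.v i - S.v j) + L) ≤ 0 :=
      mul_nonpos_of_nonneg_of_nonpos (by linarith) h2
    linarith
  have h1 : S.t (i + 1) ≠ S.t (j + 1) := S.tsucc_ne h
  have hc : (RatFunc.C (S.t (i + 1)) - RatFunc.C (S.t (j + 1)) : RatFunc K) ≠ 0 := by
    rw [← map_sub]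
    exact (_root_.map_ne_zero _).mpr (sub_ne_zero.mpr h1)
  have hco : (ordAt a).ord (S.v (j + 1) * (RatFunc.C (S.t (i + 1)) - RatFunc.C (S.t (j + 1)))) =
      -L := by
    rw [(ordAt a).ord_mul (S.v_ne _) hc, hx, ← map_sub, ordAt_C, add_zero]
  have h2 : (ordAt a).ord (S.N (i + 1) (j + 1)) = -L := by
    have h3 : S.N (i + 1) (j + 1) = (S.v (i + 1) - S.v (j + 1)) *
        (RatFunc.X - RatFunc.C (S.t (j + 1))) +
        S.v (j + 1) * (RatFunc.C (S.t (i + 1)) - RatFunc.C (S.t (j + 1))) := by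
      rw [N]; ring
    rw [h3, (OrdFn.add_eq_right (mul_ne_zero (S.v_ne _) hc) ?_).2, hco]
    rw [hco]
    exact (OrdFn.O_of_le (hw _ _ h1)).mul' (ordAt_O_X_sub_C _ _) (by linarith)
  rw [hN i j h] at h2
  linarith

section

variable {γ : ℤ}

/-- hypotheses for a place of type B -/
structure IsB (S : Sys K p n d) (a : K) (L γ : ℤ) : Prop where
  hL : 0 < L
  hx : ∀ i, (ordAt a).ord (S.v i) = -L
  hk : (ordAt a).ord S.κ = ((p ^ n : ℕ) : ℤ) * L
  hγ : ((p ^ n : ℕ) : ℤ) * γ = L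

variable {S}

lemma IsB.w (H : IsB S a L γ) {i j : ℕ} (h : S.t i ≠ S.t j) :
    (ordAt a).ord (S.v i - S.v j) = -L + γ := by
  have h1 := S.B_w H.hL H.hx H.hk h
  have h2 := H.hγ
  have hq : (2 : ℤ) ≤ ((p ^ n : ℕ) : ℤ) := by exact_mod_cast S.q_ge
  have h3 : (ordAt a).ord (S.v i - S.v j) + L = γ :=
    mul_left_cancel₀ (by linarith : ((p ^ n : ℕ) : ℤ) ≠ 0) (by rw [h1, h2])
  linarith

lemma IsB.γpos (H : IsB S a L γ) : 0 < γ := by
  have h2 := H.hγ
  have hL := H.hL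
  have hq : (2 : ℤ) ≤ ((p ^ n : ℕ) : ℤ) := by exact_mod_cast S.q_ge
  by_contra hcon
  push Not at hcon
  nlinarith

lemma IsB.p_dvd_L (H : IsB S a L γ) : (p : ℤ) ∣ L := by
  rw [← H.hγ]
  exact Dvd.dvd.mul_right (by exact_mod_cast S.p_dvd_q) _

lemma IsB.theta_O (H : IsB S a L γ) (i : ℕ) : (ordAt a).O 0 (S.θ i) := by
  apply ld_O_zero a (S.v_ne i)
  rw [H.hx]
  exact cast_dvd ((dvd_neg).mpr H.p_dvd_L)

lemma IsB.rho_O0 (H : IsB S a L γ) : (ordAt a).O 0 S.ρ := by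
  apply ld_O_zero a S.κ0
  rw [H.hk]
  exact cast_dvd (Dvd.dvd.mul_left H.p_dvd_L _)

lemma IsB.v_O (H : IsB S a L γ) (i : ℕ) : (ordAt a).O (-L) (S.v i) :=
  OrdFn.O_of_le (by rw [H.hx])

lemma IsB.vinv_O (H : IsB S a L γ) (i : ℕ) : (ordAt a).O L (S.v i)⁻¹ :=
  OrdFn.O_of_le (by rw [(ordAt a).ord_inv (S.v_ne i), H.hx, neg_neg])

lemma IsB.rho_O (H : IsB S a L γ) : (ordAt a).O L S.ρ := by
  have h1 : (ordAt a).O 0 (S.ρ * S.v 0) := by
    have h2 := S.theta_eq 0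
    have h3 : S.ρ * S.v 0 = 1 - S.ρ * (RatFunc.X - RatFunc.C (S.t 0)) -
      (RatFunc.X - RatFunc.C (S.t 0)) * S.θ 0 := by linear_combination h2
    rw [h3]
    exact (OrdFn.O_one.sub (H.rho_O0.mul' (ordAt_O_X_sub_C _ _) (by norm_num))).sub
      ((ordAt_O_X_sub_C _ _).mul' (H.theta_O 0) (by norm_num))
  have h2 := h1.mul (H.vinv_O 0)
  rw [mul_assoc, mul_inv_cancel₀ (S.v_ne 0), mul_one, zero_add] at h2
  exact h2

lemma IsB.der_v_O (H : IsB S a L γ) (i : ℕ) : (ordAt a).O (-L) (der K (S.v i)) := by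
  rw [der_eq_mul_ld (S.v_ne i)]
  exact (H.v_O i).mul' (H.theta_O i) (by linarith)

/-- second order comparison -/
lemma IsB.step2 (H : IsB S a L γ) {l i j : ℕ} (hlj : S.t l ≠ S.t j) (hli : S.t l ≠ S.t i) :
    (ordAt a).O (-L + γ + 1) ((S.v l - S.v j) -
      RatFunc.C ((S.t l - S.t j) / (S.t l - S.t i)) * (S.v l - S.v i)) := by
  set c : K := (S.t l - S.t j) / (S.t l - S.t i) with hc
  set A := S.v l - S.v j with hA
  set B := S.v l - S.v i with hB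
  have hcq : c ^ (p ^ n) * (S.t (l + 1) - S.t (i + 1)) = S.t (l + 1) - S.t (j + 1) := by
    rw [S.ht, S.ht, S.ht, ← sub_pow_char_pow, ← sub_pow_char_pow, ← mul_pow, hc,
      div_mul_cancel₀ _ (sub_ne_zero.mpr hli)]
  have hR : ∀ j, S.t l ≠ S.t j → (ordAt a).O (L + γ)
      ((RatFunc.C (S.t (j + 1)) - RatFunc.X) * (S.v (j + 1) - S.v (l + 1)) *
        ((S.v (l + 1))⁻¹ * (S.v (j + 1))⁻¹)) := by
    intro j hj
    have h1 : (ordAt a).O (-L + γ) (S.v (j + 1) - S.v (l + 1)) :=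
      OrdFn.O_of_le (by rw [H.w (S.tsucc_ne hj).symm])
    exact ((ordAt_O_C_sub_X _ _).mul' h1 (le_refl (0 + (-L + γ)))).mul'
      ((H.vinv_O _).mul (H.vinv_O _)) (by linarith)
  have hz : ∀ j, S.κ * (S.v l - S.v j) ^ (p ^ n) =
      (RatFunc.C (S.t (l + 1)) - RatFunc.C (S.t (j + 1))) * (S.v (l + 1))⁻¹ +
      ((RatFunc.C (S.t (j + 1)) - RatFunc.X) * (S.v (j + 1) - S.v (l + 1)) *
        ((S.v (l + 1))⁻¹ * (S.v (j + 1))⁻¹)) := by
    intro j
    rw [← S.z_sub]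
    have h1 := S.heq l
    have h2 := S.heq j
    have n1 := S.v_ne (l + 1)
    have n2 := S.v_ne (j + 1)
    have e1 : 1 + S.κ * S.v l ^ (p ^ n) =
        (RatFunc.C (S.t (l + 1)) - RatFunc.X) * (S.v (l + 1))⁻¹ := by
      rw [← h1]; field_simp
    have e2 : 1 + S.κ * S.v j ^ (p ^ n) =
        (RatFunc.C (S.t (j + 1)) - RatFunc.X) * (S.v (j + 1))⁻¹ := by
      rw [← h2]; field_simp
    rw [e1, e2]
    field_simp
    ring
  have key : S.κ * (A - RatFunc.C c * B) ^ (p ^ n) =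
      ((RatFunc.C (S.t (j + 1)) - RatFunc.X) * (S.v (j + 1) - S.v (l + 1)) *
        ((S.v (l + 1))⁻¹ * (S.v (j + 1))⁻¹)) -
      RatFunc.C (c ^ (p ^ n)) *
      ((RatFunc.C (S.t (i + 1)) - RatFunc.X) * (S.v (i + 1) - S.v (l + 1)) *
        ((S.v (l + 1))⁻¹ * (S.v (i + 1))⁻¹)) := by
    rw [sub_pow_char_pow, mul_pow, mul_sub]
    have h1 := hz j
    have h2 := hz i
    have h3 : RatFunc.C (c ^ (p ^ n)) * (RatFunc.C (S.t (l + 1)) - RatFunc.C (S.t (i + 1))) =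
        (RatFunc.C (S.t (l + 1)) - RatFunc.C (S.t (j + 1)) : RatFunc K) := by
      rw [← map_sub, ← map_sub, ← map_mul, hcq]
    rw [← map_pow]
    linear_combination h1 - RatFunc.C (c ^ (p ^ n)) * h2 - (S.v (l + 1))⁻¹ * h3
  have hO : (ordAt a).O (L + γ) (S.κ * (A - RatFunc.C c * B) ^ (p ^ n)) := by
    rw [key]
    exact (hR j hlj).sub ((ordAt_O_C _ _).mul' (hR i hli) (by linarith))
  by_cases h0 : A - RatFunc.C c * B = 0
  · exact Or.inl h0
  · apply OrdFn.O_of_le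
    have h1 := hO.le (mul_ne_zero S.κ0 (pow_ne_zero _ h0))
    rw [(ordAt a).ord_mul S.κ0 (pow_ne_zero _ h0), (ordAt a).ord_pow h0, H.hk] at h1
    have hγ := H.hγ
    have hγ0 := H.γpos
    have hq : (2 : ℤ) ≤ ((p ^ n : ℕ) : ℤ) := by exact_mod_cast S.q_ge
    by_contra hcon
    push Not at hcon
    have h2 : (ordAt a).ord (A - RatFunc.C c * B) + L ≤ γ := by omega
    have h3 : ((p ^ n : ℕ) : ℤ) * ((ordAt a).ord (A - RatFunc.C c * B) + L) ≤
      ((p ^ n : ℕ) : ℤ) * γ := mul_le_mul_of_nonneg_left h2 (by linarith)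
    linarith

lemma IsB.step3 (H : IsB S a L γ) {l i : ℕ} (hli : S.t l ≠ S.t i) (hla : S.t l ≠ a) :
    (ordAt a).O (-2 * L + γ) (S.W l i) := by
  classical
  obtain ⟨j, hlj, hij⟩ := S.exists_third l i
  have hs2 := H.step2 hlj hli
  set c : K := (S.t l - S.t j) / (S.t l - S.t i) with hc
  have hγ0 := H.γpos
  have hL := H.hL
  have hcl : c * (S.t l - S.t i) = S.t l - S.t j := by
    rw [hc, div_mul_cancel₀ _ (sub_ne_zero.mpr hli)]
  have hc0 : c ≠ 0 := by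
    rw [hc]
    exact div_ne_zero (sub_ne_zero.mpr hlj) (sub_ne_zero.mpr hli)
  -- E1
  have E1 : (ordAt a).O (-2 * L + γ) (S.W l j - RatFunc.C c * S.W l i) := by
    have h1 : S.W l j - RatFunc.C c * S.W l i =
        S.v l * der K ((S.v l - S.v j) - RatFunc.C c * (S.v l - S.v i)) -
        der K (S.v l) * ((S.v l - S.v j) - RatFunc.C c * (S.v l - S.v i)) := by
      rw [W, W, der_sub, der_mul, der_sub, der_sub, der_C]
      ring
    rw [h1]
    exact ((H.v_O l).mul' (der_O a hs2) (by linarith)).sub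
      ((H.der_v_O l).mul' hs2 (by linarith))
  -- E2
  have E2 : ∀ j, S.t l ≠ S.t j → (ordAt a).O (-2 * L + γ)
      ((RatFunc.X - RatFunc.C (S.t l)) * (RatFunc.X - RatFunc.C (S.t j)) * S.W l j -
        (RatFunc.C (S.t l) - RatFunc.C (S.t j)) * (S.v l ^ 2 * (1 - S.ρ * S.v l))) := by
    intro j hj
    have hAO : (ordAt a).O (-L + γ) (S.v l - S.v j) := OrdFn.O_of_le (by rw [H.w hj])
    have h1 : (RatFunc.X - RatFunc.C (S.t l)) * (RatFunc.X - RatFunc.C (S.t j)) * S.W l j =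
        S.v l * S.v j * ((RatFunc.C (S.t l) - RatFunc.C (S.t j)) - S.ρ * S.N l j) := by
      rw [W_eq, ← S.theta_sub]; ring
    have h2 : (RatFunc.X - RatFunc.C (S.t l)) * (RatFunc.X - RatFunc.C (S.t j)) * S.W l j -
        (RatFunc.C (S.t l) - RatFunc.C (S.t j)) * (S.v l ^ 2 * (1 - S.ρ * S.v l)) =
        -(S.v l * S.v l * S.ρ * (S.v l - S.v j) * (RatFunc.X - RatFunc.C (S.t l))) -
        (S.v l * (S.v l - S.v j)) * ((RatFunc.C (S.t l) - RatFunc.C (S.t j)) *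
          (1 - S.ρ * S.v l) - S.ρ * (S.v l - S.v j) * (RatFunc.X - RatFunc.C (S.t l))) := by
      rw [h1, N]; ring
    rw [h2]
    have g1 : (ordAt a).O (-2 * L + γ)
        (S.v l * S.v l * S.ρ * (S.v l - S.v j) * (RatFunc.X - RatFunc.C (S.t l))) :=
      ((((H.v_O l).mul (H.v_O l)).mul H.rho_O).mul hAO).mul' (ordAt_O_X_sub_C _ _)
        (by linarith)
    have g2 : (ordAt a).O (-2 * L + γ) (S.v l * (S.v l - S.v j)) :=
      (H.v_O l).mul' hAO (by linarith)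
    have g3 : (ordAt a).O 0 ((RatFunc.C (S.t l) - RatFunc.C (S.t j)) *
          (1 - S.ρ * S.v l) - S.ρ * (S.v l - S.v j) * (RatFunc.X - RatFunc.C (S.t l))) := by
      refine OrdFn.O.sub ?_ ?_
      · refine OrdFn.O.mul' (m := 0) (n := 0) ?_ ?_ (by norm_num)
        · rw [← map_sub]; exact ordAt_O_C _ _
        · exact OrdFn.O_one.sub (H.rho_O.mul' (H.v_O l) (by linarith))
      · exact ((H.rho_O.mul hAO).mul' (ordAt_O_X_sub_C _ _) (by linarith))
    exact g1.neg.sub (g2.mul' g3 (by linarith))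
  have hj2 := E2 j hlj
  have hi2 := E2 i hli
  -- combine
  have hX : (ordAt a).O 0 (RatFunc.X - RatFunc.C (S.t l)) := ordAt_O_X_sub_C _ _
  have hXj : (ordAt a).O 0 (RatFunc.X - RatFunc.C (S.t j)) := ordAt_O_X_sub_C _ _
  have comb : (ordAt a).O (-2 * L + γ)
      ((RatFunc.X - RatFunc.C (S.t l)) * (RatFunc.C (c * (S.t i - S.t j)) * S.W l i)) := by
    have h1 : (RatFunc.X - RatFunc.C (S.t l)) * (RatFunc.C (c * (S.t i - S.t j)) * S.W l i) =
        ((RatFunc.X - RatFunc.C (S.t l)) * (RatFunc.X - RatFunc.C (S.t j)) * S.W l j -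
        (RatFunc.C (S.t l) - RatFunc.C (S.t j)) * (S.v l ^ 2 * (1 - S.ρ * S.v l))) -
        (RatFunc.X - RatFunc.C (S.t l)) * (RatFunc.X - RatFunc.C (S.t j)) *
          (S.W l j - RatFunc.C c * S.W l i) -
        RatFunc.C c * ((RatFunc.X - RatFunc.C (S.t l)) * (RatFunc.X - RatFunc.C (S.t i)) *
          S.W l i - (RatFunc.C (S.t l) - RatFunc.C (S.t i)) *
          (S.v l ^ 2 * (1 - S.ρ * S.v l))) := by
      have h2 : (RatFunc.C c * (RatFunc.C (S.t l) - RatFunc.C (S.t i)) : RatFunc K) =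
          RatFunc.C (S.t l) - RatFunc.C (S.t j) := by
        rw [← map_sub, ← map_mul, hcl, map_sub]
      rw [map_mul, map_sub]
      linear_combination -(S.v l ^ 2 * (1 - S.ρ * S.v l)) * h2
    rw [h1]
    exact (hj2.sub ((hX.mul' hXj (le_refl (0 + 0))).mul' E1 (by linarith))).sub
      ((ordAt_O_C _ _).mul' hi2 (by linarith))
  have hXne := X_sub_C_ne (K := K) (S.t l)
  have hcne : c * (S.t i - S.t j) ≠ 0 := mul_ne_zero hc0 (sub_ne_zero.mpr hij)
  have hXinv : (ordAt a).O 0 (RatFunc.X - RatFunc.C (S.t l))⁻¹ := by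
    apply OrdFn.O_of_le
    rw [(ordAt a).ord_inv hXne, ordAt_X_sub_C, if_neg hla, neg_zero]
  have h3 := (hXinv.mul' (ordAt_O_C a (c * (S.t i - S.t j))⁻¹) (le_refl (0 + 0))).mul' comb
    (show -2 * L + γ ≤ 0 + 0 + (-2 * L + γ) by linarith)
  have h4 : (RatFunc.X - RatFunc.C (S.t l))⁻¹ * RatFunc.C (c * (S.t i - S.t j))⁻¹ *
      ((RatFunc.X - RatFunc.C (S.t l)) * (RatFunc.C (c * (S.t i - S.t j)) * S.W l i)) =
      S.W l i := by
    have h5 : (RatFunc.C (c * (S.t i - S.t j))⁻¹ * RatFunc.C (c * (S.t i - S.t j)) : RatFunc K) =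
        1 := by rw [← map_mul, inv_mul_cancel₀ hcne, map_one]
    calc _ = ((RatFunc.X - RatFunc.C (S.t l))⁻¹ * (RatFunc.X - RatFunc.C (S.t l))) *
          (RatFunc.C (c * (S.t i - S.t j))⁻¹ * RatFunc.C (c * (S.t i - S.t j))) * S.W l i := by
          ring
      _ = S.W l i := by rw [h5, inv_mul_cancel₀ hXne]; ring
  rw [h4] at h3
  exact h3

lemma W_symm (S : Sys K p n d) (i j : ℕ) : S.W i j = - S.W j i := by
  rw [W, W]; ring

/-- the bound on Wronskians at places of type B -/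
lemma IsB.W_O (H : IsB S a L γ) {l i : ℕ} (hli : S.t l ≠ S.t i) :
    (ordAt a).O (-2 * L + γ) (S.W l i) := by
  by_cases hla : S.t l = a
  · have : S.t i ≠ a := fun h => hli (by rw [hla, h])
    rw [W_symm]
    exact (H.step3 hli.symm this).neg
  · exact H.step3 hli hla

end

end Sys

end Pool.Agent.DrY
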