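import Pool.Agent.Lib.MP_531408_nt.Rho0

set_option autoImplicit false

namespace Pool.Agent.DrY

open Polynomial Finset

lemma quad_three {L : Type*} [Field L] {α β γ s1 s2 s3 : L} (h1 : α * s1 ^ 2 + β * s1 + γ = 0)
    (h2 : α * s2 ^ 2 + β * s2 + γ = 0) (h3 : α * s3 ^ 2 + β * s3 + γ = 0)
    (h12 : s1 ≠ s2) (h13 : s1 ≠ s3) (h23 : s2 ≠ s3) : α = 0 := by
  have e1 : α * (s1 + s2) + β = 0 := by
    have : (s1 - s2) * (α * (s1 + s2) + β) = 0 := by linear_combination h1 - h2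
    exact (mul_eq_zero.mp this).resolve_left (sub_ne_zero.mpr h12)
  have e2 : α * (s1 + s3) + β = 0 := by
    have : (s1 - s3) * (α * (s1 + s3) + β) = 0 := by linear_combination h1 - h3
    exact (mul_eq_zero.mp this).resolve_left (sub_ne_zero.mpr h13)
  have e3 : (s2 - s3) * α = 0 := by linear_combination e1 - e2
  exact (mul_eq_zero.mp e3).resolve_left (sub_ne_zero.mpr h23)

namespace Sys

variable {K : Type*} [Field K] {p n d : ℕ} [Fact p.Prime] [CharP K p] (S : Sys K p n d)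

/-- `μ i = -(1 + θ i / ρ)` -/
noncomputable def μ (i : ℕ) : RatFunc K := -(1 + S.θ i * (S.ρ)⁻¹)

lemma v_eq_mu (hρ : S.ρ ≠ 0) (i : ℕ) :
    S.v i = (S.ρ)⁻¹ + S.μ i * (RatFunc.X - RatFunc.C (S.t i)) := by
  have h := S.theta_eq i
  rw [μ]
  have h2 : S.ρ * S.v i = 1 - S.ρ * (RatFunc.X - RatFunc.C (S.t i)) -
      (RatFunc.X - RatFunc.C (S.t i)) * S.θ i := by linear_combination h
  have h3 : S.v i = (S.ρ)⁻¹ * (S.ρ * S.v i) := by
    rw [← mul_assoc, inv_mul_cancel₀ hρ, one_mul]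
  have h4 : (S.ρ)⁻¹ * S.ρ = 1 := inv_mul_cancel₀ hρ
  rw [h3, h2]
  linear_combination -(RatFunc.X - RatFunc.C (S.t i)) * h4

lemma mu_eq_iff (hρ : S.ρ ≠ 0) (i j : ℕ) : S.μ i = S.μ j ↔ S.θ i = S.θ j := by
  constructor
  · intro h
    rw [μ, μ] at h
    have h1 : S.θ i * (S.ρ)⁻¹ = S.θ j * (S.ρ)⁻¹ := by linear_combination -h
    exact mul_right_cancel₀ (inv_ne_zero hρ) h1
  · intro h; rw [μ, μ, h]

lemma mu_eq_of_W (hρ : S.ρ ≠ 0) {i j : ℕ} (h : S.W i j = 0) : S.μ i = S.μ j :=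
  (S.mu_eq_iff hρ i j).mpr ((S.W_ne_iff i j).mp h)

lemma v_sub_mu (hρ : S.ρ ≠ 0) {i j : ℕ} (h : S.μ i = S.μ j) :
    S.v i - S.v j = S.μ i * RatFunc.C (S.t j - S.t i) := by
  rw [S.v_eq_mu hρ i, S.v_eq_mu hρ j, ← h, map_sub]
  ring

lemma mu_ne (hρ : S.ρ ≠ 0) {i j : ℕ} (h : S.μ i = S.μ j) (hij : S.t i ≠ S.t j) : S.μ i ≠ 0 := by
  intro h0
  have h1 := S.v_sub_mu hρ h
  rw [h0, zero_mul] at h1
  exact S.v_sub_ne hij h1

lemma C_t_ne {i j : ℕ} (h : S.t i ≠ S.t j) :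
    (RatFunc.C (S.t i) : RatFunc K) ≠ RatFunc.C (S.t j) :=
  fun h' => h (RatFunc.C_injective h')

/-- the quadratic relation -/
lemma quad_rel (hρ : S.ρ ≠ 0) (i : ℕ) (m0 m1 : RatFunc K) (h0 : S.μ (i + 1) = m0)
    (h1 : S.μ i = m1) :
    (S.κ * m0 * m1 ^ (p ^ n)) * (RatFunc.C (S.t (i + 1))) ^ 2 +
      (-m0 * (1 + S.κ * ((S.ρ)⁻¹ + m1 * RatFunc.X) ^ (p ^ n)) -
        ((S.ρ)⁻¹ + m0 * RatFunc.X) * S.κ * m1 ^ (p ^ n) - 1) * RatFunc.C (S.t (i + 1)) +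
      (((S.ρ)⁻¹ + m0 * RatFunc.X) * (1 + S.κ * ((S.ρ)⁻¹ + m1 * RatFunc.X) ^ (p ^ n)) +
        RatFunc.X) = 0 := by
  have h := S.heq i
  have e1 : S.v i ^ (p ^ n) = ((S.ρ)⁻¹ + m1 * RatFunc.X) ^ (p ^ n) -
      m1 ^ (p ^ n) * RatFunc.C (S.t (i + 1)) := by
    rw [S.v_eq_mu hρ i, h1, S.ht, map_pow, ← mul_pow, ← sub_pow_char_pow]
    congr 1
    ring
  rw [e1, S.v_eq_mu hρ (i + 1), h0] at h
  linear_combination h

/-- case where all `θ i` are equal -/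
theorem W01_ne (hρ : S.ρ ≠ 0) : S.W 0 1 ≠ 0 := by
  intro hW
  have hd := S.hd
  have hall : ∀ i, S.μ i = S.μ 0 := by
    intro i
    induction i with
    | zero => rfl
    | succ i ih => rw [← ih, ← S.mu_eq_of_W hρ (S.W_all_zero 1 hW i)]
  have n12 := S.t_ne 1 1 (by omega) (by omega)
  have n13 := S.t_ne 1 2 (by omega) (by omega)
  have n23 := S.t_ne 2 1 (by omega) (by omega)
  have h := quad_three (S.quad_rel hρ 0 _ _ (hall _) (hall _))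
    (S.quad_rel hρ 1 _ _ (hall _) (hall _)) (S.quad_rel hρ 2 _ _ (hall _) (hall _))
    (S.C_t_ne n12) (S.C_t_ne n13) (S.C_t_ne n23)
  have h2 := S.mu_ne hρ (hall 1 : S.μ 1 = S.μ 0)
    (by have := S.t_ne 0 1 (by omega) (by omega); rw [zero_add] at this; exact this.symm)
  rw [hall 1] at h2
  exact mul_ne_zero (mul_ne_zero S.κ0 h2) (pow_ne_zero _ h2) h

/-- case `d` odd -/
theorem W02_ne_odd (hρ : S.ρ ≠ 0) (hodd : Odd d) : S.W 0 2 ≠ 0 := by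
  intro hW
  obtain ⟨e, he⟩ := hodd
  have h2 : ∀ m, S.μ (1 + 2 * m) = S.μ 1 := by
    intro m
    induction m with
    | zero => rfl
    | succ m ih =>
      rw [← ih, show 1 + 2 * (m + 1) = 1 + 2 * m + 2 by ring]
      exact (S.mu_eq_of_W hρ (S.W_all_zero 2 hW _)).symm
  have h3 : S.μ d = S.μ 1 := by
    have h5 : 1 + 2 * e = d := by omega
    have h6 := h2 e
    rwa [h5] at h6
  have h4 : S.μ d = S.μ 0 := by
    have := S.vper 0
    rw [zero_add] at this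
    rw [μ, μ, θ, θ, this]
  apply S.W01_ne hρ
  rw [S.W_ne_iff, ← S.mu_eq_iff hρ, ← h3, h4]

/-- case `p` odd -/
theorem W02_ne_podd (hρ : S.ρ ≠ 0) (hp : p ≠ 2) : S.W 0 2 ≠ 0 := by
  intro hW
  have hd := S.hd
  have key : ∀ i, der K (S.ρ)⁻¹ + 1 + 2 * S.μ i = 0 := by
    intro i
    have hμ : S.μ i = S.μ (i + 2) := S.mu_eq_of_W hρ (S.W_all_zero 2 hW i)
    have hrel : ∀ j, S.μ j = S.μ i → (der K (S.ρ)⁻¹ + 1 + 2 * S.μ i) +
        (der K (S.μ i) + S.ρ * S.μ i * (1 + S.μ i)) * (RatFunc.X - RatFunc.C (S.t j)) = 0 := by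
      intro j hj
      have h1 := S.v_eq_mu hρ j
      have h2 := congrArg (der K) h1
      rw [der_add, der_mul, der_sub, der_X, der_C, der_eq_mul_ld (S.v_ne j)] at h2
      have h3 : ld (S.v j) = -(S.ρ * (1 + S.μ j)) := by
        rw [μ]
        have : S.θ j = ld (S.v j) := rfl
        rw [← this]
        have h4 : (S.ρ)⁻¹ * S.ρ = 1 := inv_mul_cancel₀ hρ
        linear_combination -S.θ j * h4
      rw [h3] at h2
      rw [hj] at h1 h2
      have h4 : (S.ρ)⁻¹ * S.ρ = 1 := inv_mul_cancel₀ hρ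
      rw [h1] at h2
      linear_combination -h2 - (1 + S.μ i) * h4
    have r1 := hrel i rfl
    have r2 := hrel (i + 2) hμ.symm
    have hne := S.C_t_ne (S.t_ne i 2 (by omega) (by omega))
    have r3 : (der K (S.μ i) + S.ρ * S.μ i * (1 + S.μ i)) *
        (RatFunc.C (S.t i) - RatFunc.C (S.t (i + 2))) = 0 := by linear_combination r2 - r1
    have r4 := (mul_eq_zero.mp r3).resolve_right (sub_ne_zero.mpr hne)
    rw [r4, zero_mul, add_zero] at r1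
    exact r1
  have h0 := key 0
  have h1 := key 1
  have h2 : (2 : RatFunc K) ≠ 0 := by
    intro h
    have h3 : ((2 : ℕ) : RatFunc K) = 0 := by exact_mod_cast h
    rw [CharP.cast_eq_zero_iff (RatFunc K) p] at h3
    exact hp ((Nat.prime_dvd_prime_iff_eq (Fact.out : p.Prime) Nat.prime_two).mp h3)
  have h3 : S.μ 0 = S.μ 1 := by
    apply mul_left_cancel₀ h2
    linear_combination h0 - h1
  apply S.W01_ne hρ
  rw [S.W_ne_iff, ← S.mu_eq_iff hρ, h3]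

/-- case `d ≥ 6` -/
theorem W02_ne_six (hρ : S.ρ ≠ 0) (hd6 : 6 ≤ d) : S.W 0 2 ≠ 0 := by
  intro hW
  have hμ : ∀ i, S.μ (i + 2) = S.μ i := fun i =>
    (S.mu_eq_of_W hρ (S.W_all_zero 2 hW i)).symm
  have m3 : S.μ 3 = S.μ 1 := hμ 1
  have m5 : S.μ 5 = S.μ 1 := by rw [← m3]; exact hμ 3
  have m2 : S.μ 2 = S.μ 0 := hμ 0
  have m4 : S.μ 4 = S.μ 0 := by rw [← m2]; exact hμ 2
  have m6 : S.μ 6 = S.μ 0 := by rw [← m4]; exact hμ 4
  have n1 := S.t_ne 2 2 (by omega) (by omega)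
  have n2 := S.t_ne 2 4 (by omega) (by omega)
  have n3 := S.t_ne 4 2 (by omega) (by omega)
  have h := quad_three (S.quad_rel hρ 1 _ _ m2 rfl)
    (S.quad_rel hρ 3 _ _ m4 m3) (S.quad_rel hρ 5 _ _ m6 m5)
    (S.C_t_ne n1) (S.C_t_ne n2) (S.C_t_ne n3)
  have n02 := S.t_ne 0 2 (by omega) (by omega)
  rw [zero_add] at n02
  have n13 := S.t_ne 1 2 (by omega) (by omega)
  exact mul_ne_zero (mul_ne_zero S.κ0 (S.mu_ne hρ m2.symm n02))
    (pow_ne_zero _ (S.mu_ne hρ m3.symm n13)) h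

end Sys

end Pool.Agent.DrY
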